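import Pool.Agent.RCRSGen.LB

/-! Killed forward laws, the Jensen step and the two-time decoupling (MP_73ccd0_lc, exact 1/2,
general graphs). -/

namespace Pool.Agent.RCRSGen

open Set Finset Pool.Agent.RCRSHalf

set_option linter.unusedSectionVars false

variable {V : Type*} [Fintype V] [DecidableEq V]

/-- forward law started at `U`, killed at rate `∑ a ∈ F, k t a` in state `F`. -/
structure IsKLaw (h : ℝ → V → V → ℝ) (k : ℝ → V → ℝ) (U : Finset V) (T : ℝ)
    (m : ℝ → Finset V → ℝ) : Prop where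
  start : m 0 = pt U
  deriv : ∀ F, ∀ t ∈ Icc 0 T, HasDerivAt (fun t => m t F)
    (fwd (h t) (m t) F - (∑ a ∈ F, k t a) * m t F) t
  nonneg : ∀ F, ∀ t ∈ Icc 0 T, 0 ≤ m t F

section

variable {h : ℝ → V → V → ℝ} {k k1 : ℝ → V → ℝ} {U : Finset V} {T s : ℝ} {m : ℝ → Finset V → ℝ}

theorem exists_klaw (hc : ∀ a b, Continuous fun t => h t a b) {C : ℝ}
    (hb : ∀ t a b, h t a b ≤ C) (h0 : ∀ t a b, 0 ≤ h t a b)
    (kc : ∀ a, Continuous fun t => k t a) (kb : ∀ t a, k t a ≤ C) (k0 : ∀ t a, 0 ≤ k t a)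
    (U : Finset V) {T : ℝ} (hT : T ∈ Ico (0 : ℝ) 1) : ∃ m : ℝ → Finset V → ℝ, IsKLaw h k U T m := by
  have hU : ∀ a b, UBL fun (t : ℝ) (_ : Finset V → ℝ) => h t a b := fun a b =>
    UBL.ofTime (hc a b) (C := C) fun t => by rw [abs_of_nonneg (h0 t a b)]; exact hb t a b
  have kU : ∀ a, UBL fun (t : ℝ) (_ : Finset V → ℝ) => k t a := fun a =>
    UBL.ofTime (kc a) (C := C) fun t => by rw [abs_of_nonneg (k0 t a)]; exact kb t a
  let cl : (Finset V → ℝ) → Finset V → ℝ := fun y F => max 0 (min 1 (y F))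
  let f : ℝ → (Finset V → ℝ) → (Finset V → ℝ) := fun t y F =>
    fwd (h t) (cl y) F - (∑ a ∈ F, k t a) * cl y F
  have hgen : ∀ F0 F, UBL fun (t : ℝ) (_ : Finset V → ℝ) => gen (h t) (pt F0) F := by
    intro F0 F
    refine (UBL.const (1 / 2)).mul (UBL.sum _ fun a _ => UBL.sum _ fun b _ => ?_)
    exact (hU a b).mul (UBL.const _)
  have hf : ∀ F, UBL fun t y => f t y F := by
    intro F
    refine UBL.sub (UBL.sum _ fun G _ => (UBL.coord G).mul (hgen F G)) ?_
    exact (UBL.sum _ fun a _ => kU a).mul (UBL.coord F)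
  obtain ⟨α, hα0, hα⟩ := exists_sol f hf (t0 := 0) ⟨by norm_num, by norm_num⟩ (pt U)
  have hmem : ∀ r ∈ Icc 0 T, r ∈ Ioo (-1 : ℝ) 1 := fun r hr =>
    ⟨by linarith [hr.1], hr.2.trans_lt hT.2⟩
  have cl0 : ∀ y F, 0 ≤ cl y F := fun y F => le_max_left _ _
  have pt0 : ∀ F G : Finset V, 0 ≤ pt F G := fun F G => by unfold pt; split_ifs <;> norm_num
  have hge : ∀ F, ∀ r ∈ Icc 0 T, 0 ≤ α r F := by
    intro F0
    refine nonneg_of_forward (fun r hr => hα r (hmem r hr) F0) (by rw [hα0]; exact pt0 _ _) ?_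
    intro r hr hlt
    have hcl : cl (α r) F0 = 0 := by
      simp only [cl]; exact max_eq_left ((min_le_right _ _).trans hlt.le)
    simp only [f]
    rw [hcl, mul_zero, sub_zero]
    unfold fwd
    refine Finset.sum_nonneg fun F _ => ?_
    by_cases hF : F = F0
    · subst hF; rw [hcl, zero_mul]
    · refine mul_nonneg (cl0 _ _) ?_
      unfold gen
      have : pt F0 F = 0 := by unfold pt; rw [if_neg hF]
      rw [this]
      refine mul_nonneg (by norm_num) (Finset.sum_nonneg fun a _ => Finset.sum_nonneg fun b _ => ?_)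
      rw [sub_zero]
      exact mul_nonneg (h0 _ _ _) (pt0 _ _)
  have hsum : ∀ r ∈ Icc 0 T, HasDerivAt (fun t => ∑ F : Finset V, α t F)
      (-∑ F : Finset V, (∑ a ∈ F, k r a) * cl (α r) F) r := by
    intro r hr
    have h1 : HasDerivAt (fun t => ∑ F : Finset V, α t F) (∑ F : Finset V, f r (α r) F) r :=
      HasDerivAt.fun_sum fun F _ => hα r (hmem r hr) F
    have h2 : ∑ F : Finset V, f r (α r) F = -∑ F : Finset V, (∑ a ∈ F, k r a) * cl (α r) F := by
      have := sum_fwd (h r) (cl (α r)) (fun _ => 1)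
      simp only [mul_one] at this
      simp only [f]
      rw [Finset.sum_sub_distrib, this]
      simp [gen_const]
    rwa [h2] at h1
  have h00 : ∑ F : Finset V, α 0 F = 1 := by rw [hα0]; simp [pt]
  have htot : ∀ r ∈ Icc 0 T, ∑ F : Finset V, α r F ≤ 1 := by
    intro r hr
    have e2 := nonneg_of_forward (U := fun t => 1 - ∑ F : Finset V, α t F)
      (U' := fun r => ∑ F : Finset V, (∑ a ∈ F, k r a) * cl (α r) F)
      (a := 0) (s := T) (fun r hr => by simpa using (hsum r hr).const_sub 1)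
      (by simp [h00]) (fun r _ _ => Finset.sum_nonneg fun F _ =>
        mul_nonneg (Finset.sum_nonneg fun a _ => k0 _ _) (cl0 _ _)) r hr
    linarith
  have hle : ∀ F, ∀ r ∈ Icc 0 T, α r F ≤ 1 := by
    intro F r hr
    refine le_trans ?_ (htot r hr)
    exact Finset.single_le_sum (f := fun F => α r F) (fun G _ => hge G r hr) (Finset.mem_univ F)
  have hcl : ∀ r ∈ Icc 0 T, cl (α r) = α r := by
    intro r hr
    funext F
    simp only [cl]
    rw [min_eq_right (hle F r hr), max_eq_right (hge F r hr)]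
  refine ⟨α, ⟨hα0, fun F r hr => ?_, hge⟩⟩
  have := hα r (hmem r hr) F
  simp only [f] at this
  rw [hcl r hr] at this
  exact this

/-- weak form -/
theorem IsKLaw.deriv_sum (hm : IsKLaw h k U T m) {φ φ' : ℝ → Finset V → ℝ} {t : ℝ}
    (ht : t ∈ Icc 0 T) (hφ : ∀ F, HasDerivAt (fun t => φ t F) (φ' t F) t) :
    HasDerivAt (fun t => ∑ F : Finset V, m t F * φ t F)
      (∑ F : Finset V, m t F * (gen (h t) (φ t) F - (∑ a ∈ F, k t a) * φ t F + φ' t F)) t := by
  have h1 : HasDerivAt (fun t => ∑ F : Finset V, m t F * φ t F)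
      (∑ F : Finset V, ((fwd (h t) (m t) F - (∑ a ∈ F, k t a) * m t F) * φ t F
        + m t F * φ' t F)) t :=
    HasDerivAt.fun_sum fun F _ => (hm.deriv F t ht).mul (hφ F)
  refine h1.congr_deriv ?_
  have e : ∀ F : Finset V, (fwd (h t) (m t) F - (∑ a ∈ F, k t a) * m t F) * φ t F
        + m t F * φ' t F = fwd (h t) (m t) F * φ t F
        + m t F * (-(∑ a ∈ F, k t a) * φ t F + φ' t F) := fun F => by ring
  simp_rw [e]
  rw [Finset.sum_add_distrib, sum_fwd, ← Finset.sum_add_distrib]
  exact Finset.sum_congr rfl fun F _ => by ring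

/-- a killed law lives on subsets of its start -/
theorem IsKLaw.support (h0 : ∀ t a b, 0 ≤ h t a b) (k0 : ∀ t a, 0 ≤ k t a)
    (hm : IsKLaw h k U T m) {F : Finset V} (hF : ¬ F ⊆ U) : ∀ t ∈ Icc 0 T, m t F = 0 := by
  have key := nonneg_of_forward
    (U := fun t => -∑ G : Finset V, m t G * (if G ⊆ U then (0 : ℝ) else 1))
    (U' := fun t => -∑ G : Finset V, m t G * (gen (h t) (fun G => if G ⊆ U then (0 : ℝ) else 1) G
      - (∑ a ∈ G, k t a) * (if G ⊆ U then (0 : ℝ) else 1) + 0)) (a := 0) (s := T)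
    (fun t ht => (hm.deriv_sum (φ := fun _ G => if G ⊆ U then (0 : ℝ) else 1)
      (φ' := fun _ _ => 0) ht (fun G => hasDerivAt_const _ _)).neg)
    (by
      rw [hm.start]
      refine le_of_eq (Eq.symm ?_)
      rw [neg_eq_zero]
      refine Finset.sum_eq_zero fun G _ => ?_
      unfold pt
      by_cases hG : G = U
      · rw [hG, if_pos Finset.Subset.rfl, mul_zero]
      · rw [if_neg hG, zero_mul])
    (fun t ht _ => by
      rw [← Finset.sum_neg_distrib]
      refine Finset.sum_nonneg fun G _ => ?_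
      rw [← mul_neg]
      refine mul_nonneg (hm.nonneg G t ht) ?_
      have g1 : gen (h t) (fun G => if G ⊆ U then (0 : ℝ) else 1) G ≤ 0 := by
        unfold gen
        refine mul_nonpos_of_nonneg_of_nonpos (by norm_num)
          (Finset.sum_nonpos fun a _ => Finset.sum_nonpos fun b _ => ?_)
        refine mul_nonpos_of_nonneg_of_nonpos (h0 _ _ _) ?_
        beta_reduce
        by_cases hG : G ⊆ U
        · rw [if_pos hG, if_pos ((Finset.erase_subset _ _).trans ((Finset.erase_subset _ _).trans hG))]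
          simp
        · rw [if_neg hG]
          split_ifs <;> norm_num
      have g2 : 0 ≤ (∑ a ∈ G, k t a) * (if G ⊆ U then (0 : ℝ) else 1) :=
        mul_nonneg (Finset.sum_nonneg fun a _ => k0 _ _) (by split_ifs <;> norm_num)
      linarith)
  intro t ht
  have h1 : m t F * 1 ≤ ∑ G : Finset V, m t G * (if G ⊆ U then (0 : ℝ) else 1) := by
    have := Finset.single_le_sum (f := fun G => m t G * (if G ⊆ U then (0 : ℝ) else 1))
      (fun G _ => mul_nonneg (hm.nonneg G t ht) (by split_ifs <;> norm_num)) (Finset.mem_univ F)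
    simpa [hF] using this
  have h2 := key t ht
  have h3 := hm.nonneg F t ht
  linarith

/-- Jensen step: effect of an additional killing -/
theorem jensen (h0 : ∀ t a b, 0 ≤ h t a b) {R0 R1 : Finset V → ℝ → ℝ} (hR0 : IsBack h k s R0)
    (hR1 : IsBack h (fun t a => k t a + k1 t a) s R1) (p0 : ∀ F, ∀ r ∈ Icc 0 s, 0 < R0 F r)
    (p1 : ∀ F, ∀ r ∈ Icc 0 s, 0 < R1 F r) (hm : IsKLaw h k U s m) (hs0 : 0 ≤ s)
    {I I' : ℝ → ℝ} (hI : ∀ r ∈ Icc 0 s, HasDerivAt I (I' r) r) (hI0 : I 0 = 0)
    (hI' : ∀ r ∈ Icc 0 s, ∑ F : Finset V, m r F * ((∑ a ∈ F, k1 r a) * R0 F r)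
      ≤ I' r * R0 U 0) :
    Real.exp (-I s) * R0 U 0 ≤ R1 U 0 := by
  set φ : ℝ → Finset V → ℝ := fun r F => R0 F r * (Real.log (R1 F r) - Real.log (R0 F r)) with hφ
  set φ' : ℝ → Finset V → ℝ := fun r F =>
    (-(gen (h r) (fun G => R0 G r) F - (∑ a ∈ F, k r a) * R0 F r))
        * (Real.log (R1 F r) - Real.log (R0 F r))
      + R0 F r * ((-(gen (h r) (fun G => R1 G r) F - (∑ a ∈ F, (k r a + k1 r a)) * R1 F r)) / R1 F r
        - (-(gen (h r) (fun G => R0 G r) F - (∑ a ∈ F, k r a) * R0 F r)) / R0 F r) with hφ'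
  have hd : ∀ r ∈ Icc 0 s, ∀ F, HasDerivAt (fun r => φ r F) (φ' r F) r := fun r hr F =>
    (hR0.deriv F r hr).mul (((hR1.deriv F r hr).log (p1 F r hr).ne').sub
      ((hR0.deriv F r hr).log (p0 F r hr).ne'))
  have hs' : s ∈ Icc 0 s := ⟨hs0, le_rfl⟩
  have h00 : (0 : ℝ) ∈ Icc 0 s := ⟨le_rfl, hs0⟩
  -- pointwise inequality
  have hpt : ∀ r ∈ Icc 0 s, ∀ F, gen (h r) (φ r) F - (∑ a ∈ F, k r a) * φ r F + φ' r F
      ≤ (∑ a ∈ F, k1 r a) * R0 F r := by
    intro r hr F
    have hp0 := p0 F r hr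
    have hp1 := p1 F r hr
    have e1 : gen (h r) (φ r) F - (∑ a ∈ F, k r a) * φ r F + φ' r F
        = (1 / 2) * ∑ a ∈ F, ∑ b ∈ F, h r a b *
          (φ r ((F.erase a).erase b) - φ r F
            - (R0 ((F.erase a).erase b) r - R0 F r) * (Real.log (R1 F r) - Real.log (R0 F r))
            - R0 F r * ((R1 ((F.erase a).erase b) r - R1 F r) / R1 F r)
            + (R0 ((F.erase a).erase b) r - R0 F r))
          + (∑ a ∈ F, k1 r a) * R0 F r := by
      have x1 : (1 / 2) * ∑ a ∈ F, ∑ b ∈ F, h r a b *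
          (φ r ((F.erase a).erase b) - φ r F
            - (R0 ((F.erase a).erase b) r - R0 F r) * (Real.log (R1 F r) - Real.log (R0 F r))
            - R0 F r * ((R1 ((F.erase a).erase b) r - R1 F r) / R1 F r)
            + (R0 ((F.erase a).erase b) r - R0 F r))
          = gen (h r) (φ r) F
            - gen (h r) (fun G => R0 G r) F * (Real.log (R1 F r) - Real.log (R0 F r))
            - R0 F r * (gen (h r) (fun G => R1 G r) F / R1 F r)
            + gen (h r) (fun G => R0 G r) F := by
        unfold gen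
        have y1 : ∀ (f : V → V → ℝ) (c : ℝ), ((1 / 2 : ℝ) * ∑ a ∈ F, ∑ b ∈ F, f a b) * c
            = (1 / 2) * ∑ a ∈ F, ∑ b ∈ F, f a b * c := fun f c => by
          rw [mul_assoc, Finset.sum_mul]
          congr 1
          exact Finset.sum_congr rfl fun a _ => by rw [Finset.sum_mul]
        rw [div_eq_mul_inv (_ * _) (R1 F r), y1, y1, mul_comm (R0 F r) ((1 / 2) * _), y1,
          ← mul_sub, ← mul_sub, ← mul_add]
        congr 1
        rw [← Finset.sum_sub_distrib, ← Finset.sum_sub_distrib, ← Finset.sum_add_distrib]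
        refine Finset.sum_congr rfl fun a _ => ?_
        rw [← Finset.sum_sub_distrib, ← Finset.sum_sub_distrib, ← Finset.sum_add_distrib]
        refine Finset.sum_congr rfl fun b _ => ?_
        ring
      rw [x1]
      simp only [hφ', hφ]
      rw [Finset.sum_add_distrib]
      field_simp
      ring
    rw [e1]
    have e2 : (1 / 2) * ∑ a ∈ F, ∑ b ∈ F, h r a b *
          (φ r ((F.erase a).erase b) - φ r F
            - (R0 ((F.erase a).erase b) r - R0 F r) * (Real.log (R1 F r) - Real.log (R0 F r))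
            - R0 F r * ((R1 ((F.erase a).erase b) r - R1 F r) / R1 F r)
            + (R0 ((F.erase a).erase b) r - R0 F r)) ≤ 0 := by
      refine mul_nonpos_of_nonneg_of_nonpos (by norm_num)
        (Finset.sum_nonpos fun a _ => Finset.sum_nonpos fun b _ => ?_)
      refine mul_nonpos_of_nonneg_of_nonpos (h0 _ _ _) ?_
      simp only [hφ]
      have q0 := p0 ((F.erase a).erase b) r hr
      have q1 := p1 ((F.erase a).erase b) r hr
      set A := R0 ((F.erase a).erase b) r
      set B := R1 ((F.erase a).erase b) r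
      set A0 := R0 F r
      set B0 := R1 F r
      -- A * (d - exp d + 1) ≤ 0 with exp d = B A0 / (A B0)
      set d := (Real.log B - Real.log A) - (Real.log B0 - Real.log A0) with hd
      have hexp : Real.exp d = B * A0 / (A * B0) := by
        rw [hd, Real.exp_sub, Real.exp_sub, Real.exp_sub, Real.exp_log q1, Real.exp_log q0,
          Real.exp_log hp1, Real.exp_log hp0]
        field_simp
      have h1 := Real.add_one_le_exp d
      rw [hexp] at h1
      have h2 : A * (d + 1) ≤ A0 * (B / B0) := by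
        have := mul_le_mul_of_nonneg_left h1 q0.le
        refine this.trans (le_of_eq ?_)
        field_simp
      have h3 : A0 * ((B - B0) / B0) = A0 * (B / B0) - A0 := by
        field_simp
      rw [h3]
      have h4 : A * d = A * (Real.log B - Real.log A) - A * (Real.log B0 - Real.log A0) := by
        rw [hd]; ring
      nlinarith
    linarith
  have key := nonneg_of_forward
    (U := fun r => (∑ F : Finset V, m 0 F * φ 0 F)
      - (∑ F : Finset V, m r F * φ r F) + I r * R0 U 0)
    (U' := fun r => -(∑ F : Finset V, m r F *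
      (gen (h r) (φ r) F - (∑ a ∈ F, k r a) * φ r F + φ' r F)) + I' r * R0 U 0)
    (a := 0) (s := s)
    (fun r hr => by
      exact ((hm.deriv_sum hr (hd r hr)).const_sub _).add ((hI r hr).mul_const _))
    (by rw [hI0]; simp) (fun r hr _ => by
      have h1 : ∑ F : Finset V, m r F *
          (gen (h r) (φ r) F - (∑ a ∈ F, k r a) * φ r F + φ' r F)
          ≤ ∑ F : Finset V, m r F * ((∑ a ∈ F, k1 r a) * R0 F r) :=
        Finset.sum_le_sum fun F _ => mul_le_mul_of_nonneg_left (hpt r hr F) (hm.nonneg F r hr)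
      have h2 := hI' r hr
      linarith) s hs'
  have e1 : ∑ F : Finset V, m 0 F * φ 0 F = φ 0 U := by
    rw [hm.start]; simp [pt]
  have e2 : ∑ F : Finset V, m s F * φ s F = 0 := by
    refine Finset.sum_eq_zero fun F _ => ?_
    simp only [hφ, hR0.end_, hR1.end_]
    simp
  rw [e1, e2, sub_zero] at key
  have hpU := p0 U 0 h00
  have hpU1 := p1 U 0 h00
  simp only [hφ] at key
  have h3 : Real.log (R0 U 0) - I s ≤ Real.log (R1 U 0) := by
    have : 0 ≤ R0 U 0 * (Real.log (R1 U 0) - Real.log (R0 U 0) + I s) := by linarith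
    have h4 := nonneg_of_mul_nonneg_right this hpU
    linarith
  have h5 := Real.exp_le_exp.2 h3
  rw [Real.exp_sub, Real.exp_log hpU, Real.exp_log hpU1] at h5
  rw [Real.exp_neg, inv_mul_eq_div]
  exact h5

/-- two-time decoupling: `v` is free at time `r1` and the final event of `R0` happens -/
theorem theta_bound (hsy : ∀ t a b, h t a b = h t b a) (haa : ∀ t a, h t a a = 0)
    (h0 : ∀ t a b, 0 ≤ h t a b) (k0 : ∀ t a, 0 ≤ k t a) {R0 C : Finset V → ℝ → ℝ}
    (hR0 : IsBack h k s R0) {v : V} (hv : v ∈ U) {r1 : ℝ} (hr1 : r1 ∈ Icc 0 s)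
    (hC : IsBack h (fun t a => h t v a) r1 C) (hm : IsKLaw h k U s m)
    {Θ θ : ℝ → ℝ} (hΘ : ∀ q ∈ Icc 0 r1, HasDerivAt Θ (θ q) q) (hΘ0 : Θ 0 = 0)
    (hΓ : ∀ G ⊆ U.erase v, ∀ q ∈ Icc 0 r1,
      (1 / 2) * ∑ a ∈ G, ∑ b ∈ G, h q a b * ((C ((G.erase a).erase b) q - C G q)
        * (R0 (insert v ((G.erase a).erase b)) q - R0 (insert v G) q))
      + ∑ b ∈ G, h q v b * (C G q * (R0 (insert v G) q - R0 (G.erase b) q))
      ≤ θ q * (C G q * R0 (insert v G) q)) :
    ∑ F : Finset V, m r1 F * (if v ∈ F then R0 F r1 else 0)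
      ≤ Real.exp (Θ r1) * (C (U.erase v) 0 * R0 U 0) := by
  set φ : ℝ → Finset V → ℝ := fun q F => if v ∈ F then C (F.erase v) q * R0 F q else 0 with hφ
  set φ' : ℝ → Finset V → ℝ := fun q F => if v ∈ F then
      (-(gen (h q) (fun G => C G q) (F.erase v) - (∑ a ∈ F.erase v, h q v a) * C (F.erase v) q))
        * R0 F q
      + C (F.erase v) q * (-(gen (h q) (fun G => R0 G q) F - (∑ a ∈ F, k q a) * R0 F q)) else 0
    with hφ'
  have hms : ∀ q ∈ Icc 0 r1, q ∈ Icc 0 s := fun q hq => ⟨hq.1, hq.2.trans hr1.2⟩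
  have hd : ∀ q ∈ Icc 0 r1, ∀ F, HasDerivAt (fun q => φ q F) (φ' q F) q := by
    intro q hq F
    simp only [hφ, hφ']
    by_cases hvF : v ∈ F
    · simp only [if_pos hvF]
      exact (hC.deriv (F.erase v) q hq).mul (hR0.deriv F q (hms q hq))
    · simp only [if_neg hvF]
      exact hasDerivAt_const _ _
  have hpt : ∀ q ∈ Icc 0 r1, ∀ F, F ⊆ U →
      gen (h q) (φ q) F - (∑ a ∈ F, k q a) * φ q F + φ' q F ≤ θ q * φ q F := by
    intro q hq F hF
    by_cases hvF : v ∈ F
    · obtain ⟨G, hvG, rfl⟩ : ∃ G, v ∉ G ∧ F = insert v G :=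
        ⟨F.erase v, Finset.notMem_erase _ _, (Finset.insert_erase hvF).symm⟩
      have hGU : G ⊆ U.erase v := fun x hx => Finset.mem_erase.2
        ⟨fun e => hvG (e ▸ hx), hF (Finset.mem_insert_of_mem hx)⟩
      have e1 := gen_insert (h q) (hsy q) (haa q) (φ q) hvG
      have e2 := gen_insert (h q) (hsy q) (haa q) (fun G => R0 G q) hvG
      have w1 : φ q (insert v G) = C G q * R0 (insert v G) q := by
        simp only [hφ, if_pos (Finset.mem_insert_self v G), Finset.erase_insert hvG]
      have w2 : φ' q (insert v G) = (-(gen (h q) (fun G => C G q) G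
          - (∑ a ∈ G, h q v a) * C G q)) * R0 (insert v G) q
          + C G q * (-(gen (h q) (fun G => R0 G q) (insert v G)
            - (∑ a ∈ insert v G, k q a) * R0 (insert v G) q)) := by
        simp only [hφ', if_pos (Finset.mem_insert_self v G), Finset.erase_insert hvG]
      have w3 : ∀ b ∈ G, φ q (G.erase b) = 0 := by
        intro b _
        simp only [hφ]
        exact if_neg fun hh => hvG (Finset.mem_of_mem_erase hh)
      have w4 : ∀ a b : V, φ q (insert v ((G.erase a).erase b))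
          = C ((G.erase a).erase b) q * R0 (insert v ((G.erase a).erase b)) q := by
        intro a b
        have : v ∉ (G.erase a).erase b := fun hh =>
          hvG (Finset.mem_of_mem_erase (Finset.mem_of_mem_erase hh))
        simp only [hφ, if_pos (Finset.mem_insert_self v _), Finset.erase_insert this]
      have w5 : ∑ b ∈ G, h q v b * (φ q (G.erase b) - φ q (insert v G))
          = -((∑ b ∈ G, h q v b) * (C G q * R0 (insert v G) q)) := by
        rw [Finset.sum_mul, ← Finset.sum_neg_distrib]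
        refine Finset.sum_congr rfl fun b hb => ?_
        rw [w3 b hb, w1]; ring
      have w6 : ∑ b ∈ G, h q v b * (C G q * (R0 (insert v G) q - R0 (G.erase b) q))
          = -(C G q * ∑ b ∈ G, h q v b * (R0 (G.erase b) q - R0 (insert v G) q)) := by
        rw [Finset.mul_sum, ← Finset.sum_neg_distrib]
        exact Finset.sum_congr rfl fun b _ => by ring
      have w7 : (1 / 2) * ∑ a ∈ G, ∑ b ∈ G, h q a b * ((C ((G.erase a).erase b) q - C G q)
          * (R0 (insert v ((G.erase a).erase b)) q - R0 (insert v G) q))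
          = (1 / 2) * ∑ a ∈ G, ∑ b ∈ G, h q a b *
              (φ q (insert v ((G.erase a).erase b)) - φ q (insert v G))
            - gen (h q) (fun G => C G q) G * R0 (insert v G) q
            - C G q * ((1 / 2) * ∑ a ∈ G, ∑ b ∈ G, h q a b *
              (R0 (insert v ((G.erase a).erase b)) q - R0 (insert v G) q)) := by
        unfold gen
        have y1 : ∀ (f : V → V → ℝ) (c : ℝ), ((1 / 2 : ℝ) * ∑ a ∈ G, ∑ b ∈ G, f a b) * c
            = (1 / 2) * ∑ a ∈ G, ∑ b ∈ G, f a b * c := fun f c => by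
          rw [mul_assoc, Finset.sum_mul]
          congr 1
          exact Finset.sum_congr rfl fun a _ => by rw [Finset.sum_mul]
        rw [y1, mul_comm (C G q) ((1 / 2) * _), y1, ← mul_sub, ← mul_sub]
        congr 1
        rw [← Finset.sum_sub_distrib, ← Finset.sum_sub_distrib]
        refine Finset.sum_congr rfl fun a _ => ?_
        rw [← Finset.sum_sub_distrib, ← Finset.sum_sub_distrib]
        refine Finset.sum_congr rfl fun b _ => ?_
        rw [w4 a b, w1]
        ring
      have hh := hΓ G hGU q hq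
      rw [w6, w7] at hh
      rw [w2, e1, e2, w5, w1]
      rw [w1] at hh
      refine le_trans (le_of_eq ?_) hh
      ring
    · have e1 : φ q F = 0 := by simp only [hφ]; exact if_neg hvF
      have e2 : φ' q F = 0 := by simp only [hφ']; exact if_neg hvF
      have e3 : gen (h q) (φ q) F = 0 := by
        have : gen (h q) (φ q) F = gen (h q) (fun _ => 0) F := by
          refine gen_congr fun G hG => ?_
          simp only [hφ]
          exact if_neg fun hh => hvF (hG hh)
        rw [this, gen_const]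
      rw [e1, e2, e3]; simp
  have hr0 : r1 ∈ Icc 0 r1 := ⟨hr1.1, le_rfl⟩
  have key := nonneg_of_forward
    (U := fun q => (∑ F : Finset V, m 0 F * φ 0 F)
      - Real.exp (-Θ q) * ∑ F : Finset V, m q F * φ q F)
    (U' := fun q => -(Real.exp (-Θ q) * (-θ q) * (∑ F : Finset V, m q F * φ q F)
      + Real.exp (-Θ q) * ∑ F : Finset V, m q F *
      (gen (h q) (φ q) F - (∑ a ∈ F, k q a) * φ q F + φ' q F)))
    (a := 0) (s := r1)
    (fun q hq => by
      exact (((hΘ q hq).neg.exp).mul (hm.deriv_sum (hms q hq) (hd q hq))).const_sub _)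
    (by rw [hΘ0]; simp) (fun q hq _ => by
      have h1 : ∑ F : Finset V, m q F *
          (gen (h q) (φ q) F - (∑ a ∈ F, k q a) * φ q F + φ' q F)
          ≤ ∑ F : Finset V, m q F * (θ q * φ q F) := by
        refine Finset.sum_le_sum fun F _ => ?_
        by_cases hF : F ⊆ U
        · exact mul_le_mul_of_nonneg_left (hpt q hq F hF) (hm.nonneg F q (hms q hq))
        · rw [hm.support h0 k0 hF q (hms q hq)]; simp
      have h2 : ∑ F : Finset V, m q F * (θ q * φ q F)
          = θ q * ∑ F : Finset V, m q F * φ q F := by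
        rw [Finset.mul_sum]
        exact Finset.sum_congr rfl fun F _ => by ring
      rw [h2] at h1
      have h3 := mul_le_mul_of_nonneg_left h1 (Real.exp_pos (-Θ q)).le
      linarith) r1 hr0
  have e1 : ∑ F : Finset V, m 0 F * φ 0 F = C (U.erase v) 0 * R0 U 0 := by
    rw [hm.start]
    simp only [pt, ite_mul, one_mul, zero_mul, Finset.sum_ite_eq', Finset.mem_univ, if_true]
    simp only [hφ, if_pos hv]
  have e2 : ∑ F : Finset V, m r1 F * φ r1 F
      = ∑ F : Finset V, m r1 F * (if v ∈ F then R0 F r1 else 0) := by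
    refine Finset.sum_congr rfl fun F _ => ?_
    simp only [hφ, hC.end_, one_mul]
  rw [e1, e2] at key
  have h4 : Real.exp (-Θ r1) * ∑ F : Finset V, m r1 F * (if v ∈ F then R0 F r1 else 0)
      ≤ C (U.erase v) 0 * R0 U 0 := by linarith
  have h5 := mul_le_mul_of_nonneg_left h4 (Real.exp_pos (Θ r1)).le
  rwa [← mul_assoc, ← Real.exp_add, add_neg_cancel, Real.exp_zero, one_mul] at h5

end

end Pool.Agent.RCRSGen
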