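import Pool.Agent.RCRSGen.Cmp2
import Pool.Agent.RCRSGen.KLaw

/-! Corollaries of the comparison theorems (MP_73ccd0_lc, exact 1/2, general graphs). -/

namespace Pool.Agent.RCRSGen

open Set Finset Pool.Agent.RCRSHalf

set_option linter.unusedSectionVars false

variable {V : Type*} [Fintype V] [DecidableEq V]
variable {h : ℝ → V → V → ℝ} {k k' δ : ℝ → V → ℝ} {s : ℝ} {l l' l1 : Finset V → ℝ → ℝ}

/-- the backward function on subsets of `H` depends on the killing rates in `H` only -/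
theorem lb_le (h0 : ∀ t a b, 0 ≤ h t a b) (hs0 : 0 ≤ s) (hl : IsLB h k s l)
    (hl' : IsLB h k' s l') {H : Finset V} (hk : ∀ a ∈ H, ∀ r ∈ Icc 0 s, k r a = k' r a) :
    ∀ G ⊆ H, ∀ r ∈ Icc 0 s, l G r ≤ l' G r := by
  intro G
  induction hn : G.card using Nat.strong_induction_on generalizing G with
  | _ n ih =>
  intro hG
  have key := cmp_le (s := s) (L := fun r => l G r - l' G r)
    (L' := fun r => (-(elg (h r) (fun G => l G r) G - ∑ a ∈ G, k r a))
      - (-(elg (h r) (fun G => l' G r) G - ∑ a ∈ G, k' r a)))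
    (K := fun _ => 0) (K' := fun _ => 0)
    (fun r hr => (hl.deriv G r hr).sub (hl'.deriv G r hr)) (fun r _ => hasDerivAt_const _ _)
    (by simp [hl.end_, hl'.end_]) (fun r hr hlt => by
      have hlt' : l' G r < l G r := by linarith
      have e1 : ∑ a ∈ G, k r a = ∑ a ∈ G, k' r a :=
        Finset.sum_congr rfl fun a ha => hk a (hG ha) r hr
      have e2 : elg (h r) (fun G => l G r) G ≤ elg (h r) (fun G => l' G r) G := by
        unfold elg
        refine mul_le_mul_of_nonneg_left (Finset.sum_le_sum fun a ha => Finset.sum_le_sum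
          fun b _ => ?_) (by norm_num)
        refine mul_le_mul_of_nonneg_left ?_ (h0 _ _ _)
        have hc2 : ((G.erase a).erase b).card < n := by
          rw [← hn]
          exact (Finset.card_le_card (Finset.erase_subset _ _)).trans_lt
            (Finset.card_erase_lt_of_mem ha)
        have i1 := ih _ hc2 ((G.erase a).erase b) rfl
          ((Finset.erase_subset _ _).trans ((Finset.erase_subset _ _).trans hG)) r hr
        have := Real.exp_le_exp.2 (show l ((G.erase a).erase b) r - l G r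
          ≤ l' ((G.erase a).erase b) r - l' G r by linarith)
        linarith
      rw [e1]
      linarith)
  intro r hr
  have := key r hr
  linarith

theorem lb_local (h0 : ∀ t a b, 0 ≤ h t a b) (hs0 : 0 ≤ s) (hl : IsLB h k s l)
    (hl' : IsLB h k' s l') {H : Finset V} (hk : ∀ a ∈ H, ∀ r ∈ Icc 0 s, k r a = k' r a) :
    ∀ G ⊆ H, ∀ r ∈ Icc 0 s, l G r = l' G r := fun G hG r hr =>
  le_antisymm (lb_le h0 hs0 hl hl' hk G hG r hr)
    (lb_le h0 hs0 hl' hl (fun a ha r hr => (hk a ha r hr).symm) G hG r hr)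

theorem zero_lb (h : ℝ → V → V → ℝ) (s : ℝ) : IsLB h (fun _ _ => 0) s (fun _ _ => 0) := by
  refine ⟨fun F => rfl, fun F r _ => ?_⟩
  refine (hasDerivAt_const r (0 : ℝ)).congr_deriv ?_
  unfold elg
  simp

/-- influence bounds in logarithmic form -/
theorem infl_log (hs : ∀ t a b, h t a b = h t b a) (haa : ∀ t a, h t a a = 0)
    (h0 : ∀ t a b, 0 ≤ h t a b) (k0 : ∀ t a, 0 ≤ k t a) (hs0 : 0 ≤ s) (hl : IsLB h k s l)
    {H : Finset V} {P P' N N' : V → ℝ → ℝ}
    (hPd : ∀ a ∈ H, ∀ r ∈ Icc 0 s, HasDerivAt (P a) (P' a r) r)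
    (hNd : ∀ a ∈ H, ∀ r ∈ Icc 0 s, HasDerivAt (N a) (N' a r) r)
    (hP0 : ∀ a ∈ H, ∀ r ∈ Icc 0 s, 0 ≤ P a r) (hN0 : ∀ a ∈ H, ∀ r ∈ Icc 0 s, 0 ≤ N a r)
    (hP : ∀ a ∈ H, ∀ r ∈ Icc 0 s, k r a + ∑ b ∈ H.erase a, h r a b * N b r ≤ -P' a r)
    (hN : ∀ a ∈ H, ∀ r ∈ Icc 0 s,
      ∑ b ∈ H.erase a, h r a b * (Real.exp (P b r) - 1) ≤ -N' a r) :
    ∀ G ⊆ H, ∀ a ∈ H, a ∉ G → ∀ r ∈ Icc 0 s,
      -N a r ≤ l G r - l (insert a G) r ∧ l G r - l (insert a G) r ≤ P a r := by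
  have hl1 : IsLB h (fun t a => (fun _ _ => (0 : ℝ)) t a + k t a) s l := by
    simpa using hl
  intro G hG a ha haG r hr
  have := eta_bound (X := fun p q r => max (Real.exp (P p r + P q r) - 1)
      (1 - Real.exp (-(N p r + N q r)))) (D := fun _ _ _ => 0) (Rb := fun _ _ _ => 1)
    hs haa h0 k0 hs0 (zero_lb h s) hl1 (H := H)
    (fun T _ p _ q _ _ r _ => by simp) (fun _ _ _ _ _ _ => le_rfl)
    (fun G _ a _ c _ _ _ _ r _ => by simp) hPd hNd hP0 hN0
    (fun p _ q _ _ r _ => le_max_left _ _) (fun p _ q _ _ r _ => le_max_right _ _)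
    (fun a ha r hr => by simpa using hP a ha r hr) (fun a ha r hr => by simpa using hN a ha r hr)
    G hG a ha haG r hr
  simpa using this

/-- pair bounds from single bounds -/
theorem pair_of_single {H : Finset V} {P N : V → ℝ → ℝ} {J : Set ℝ}
    (hb : ∀ G ⊆ H, ∀ a ∈ H, a ∉ G → ∀ r ∈ J,
      -N a r ≤ l G r - l (insert a G) r ∧ l G r - l (insert a G) r ≤ P a r) :
    ∀ T ⊆ H, ∀ p ∈ T, ∀ q ∈ T, p ≠ q → ∀ r ∈ J,
      -(N p r + N q r) ≤ l ((T.erase p).erase q) r - l T r ∧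
      l ((T.erase p).erase q) r - l T r ≤ P p r + P q r := by
  intro T hT p hp q hq hpq r hr
  have hq' : q ∈ T.erase p := Finset.mem_erase.2 ⟨fun e => hpq e.symm, hq⟩
  have i1 := hb (T.erase p) ((Finset.erase_subset _ _).trans hT) p (hT hp)
    (Finset.notMem_erase _ _) r hr
  have i2 := hb ((T.erase p).erase q)
    ((Finset.erase_subset _ _).trans ((Finset.erase_subset _ _).trans hT)) q (hT hq)
    (Finset.notMem_erase _ _) r hr
  rw [Finset.insert_erase hp] at i1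
  rw [Finset.insert_erase hq'] at i2
  constructor <;> linarith [i1.1, i1.2, i2.1, i2.2]

/-- the additional influence of `v` when the target is not killed by `v` -/
theorem eta_circ (hs : ∀ t a b, h t a b = h t b a) (haa : ∀ t a, h t a a = 0)
    (h0 : ∀ t a b, 0 ≤ h t a b) (δ0 : ∀ t a, 0 ≤ δ t a) (hs0 : 0 ≤ s)
    (hl : IsLB h k s l) {v : V}
    (hl1 : IsLB h (fun t a => k t a + (if a = v then 0 else δ t a)) s l1)
    {H : Finset V} (hv : v ∈ H) {Rb D X : V → V → ℝ → ℝ} {K K' M M' : V → ℝ → ℝ}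
    {K0 K0' : ℝ → ℝ}
    (hRb : ∀ T ⊆ H, ∀ p ∈ T, ∀ q ∈ T, p ≠ q → ∀ r ∈ Icc 0 s,
      Real.exp (l ((T.erase p).erase q) r - l T r) ≤ Rb p q r)
    (hD0 : ∀ a ∈ H, ∀ c ∈ H, ∀ r ∈ Icc 0 s, 0 ≤ D a c r)
    (hD : ∀ G ⊆ H, ∀ a ∈ H, ∀ c ∈ H, a ∉ G → c ∉ G → a ≠ c → ∀ r ∈ Icc 0 s,
      |l G r + l (insert a (insert c G)) r - l (insert a G) r - l (insert c G) r| ≤ D a c r)
    (hKd : ∀ a ∈ H, ∀ r ∈ Icc 0 s, HasDerivAt (K a) (K' a r) r)
    (hMd : ∀ a ∈ H, ∀ r ∈ Icc 0 s, HasDerivAt (M a) (M' a r) r)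
    (hK0 : ∀ a ∈ H, ∀ r ∈ Icc 0 s, 0 ≤ K a r) (hM0 : ∀ a ∈ H, ∀ r ∈ Icc 0 s, 0 ≤ M a r)
    (hX1 : ∀ p ∈ H, ∀ q ∈ H, p ≠ q → ∀ r ∈ Icc 0 s, Real.exp (K p r + K q r) - 1 ≤ X p q r)
    (hX2 : ∀ p ∈ H, ∀ q ∈ H, p ≠ q → ∀ r ∈ Icc 0 s, 1 - Real.exp (-(M p r + M q r)) ≤ X p q r)
    (hK : ∀ a ∈ H, ∀ r ∈ Icc 0 s, δ r a + ∑ b ∈ H.erase a, h r a b * (Rb a b r * M b r)
      + (1 / 2) * ∑ p ∈ H.erase a, ∑ q ∈ H.erase a, h r p q *
        (Rb p q r * (Real.exp (D a p r + D a q r) - 1) * X p q r) ≤ -K' a r)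
    (hM : ∀ a ∈ H, ∀ r ∈ Icc 0 s, ∑ b ∈ H.erase a, h r a b * (Rb a b r * (Real.exp (K b r) - 1))
      + (1 / 2) * ∑ p ∈ H.erase a, ∑ q ∈ H.erase a, h r p q *
        (Rb p q r * (Real.exp (D a p r + D a q r) - 1) * X p q r) ≤ -M' a r)
    (hK0d : ∀ r ∈ Icc 0 s, HasDerivAt K0 (K0' r) r) (hK00 : ∀ r ∈ Icc 0 s, 0 ≤ K0 r)
    (hK0K : ∀ r ∈ Icc 0 s, K0 r ≤ K v r)
    (hKv : ∀ r ∈ Icc 0 s, ∑ b ∈ H.erase v, h r v b * (Rb v b r * M b r)
      + (1 / 2) * ∑ p ∈ H.erase v, ∑ q ∈ H.erase v, h r p q *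
        (Rb p q r * (Real.exp (D v p r + D v q r) - 1) * X p q r) ≤ -K0' r) :
    (∀ G ⊆ H, v ∉ G → ∀ r ∈ Icc 0 s,
      -M v r ≤ (l1 G r - l1 (insert v G) r) - (l G r - l (insert v G) r) ∧
      (l1 G r - l1 (insert v G) r) - (l G r - l (insert v G) r) ≤ K0 r) ∧
    (∀ G ⊆ H, ∀ a ∈ H, a ∉ G → ∀ r ∈ Icc 0 s,
      -M a r ≤ (l1 G r - l1 (insert a G) r) - (l G r - l (insert a G) r) ∧
      (l1 G r - l1 (insert a G) r) - (l G r - l (insert a G) r) ≤ K a r) := by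
  have hle : ∀ a ∈ H, ∀ r ∈ Icc 0 s, (if a = v then K0 r else K a r) ≤ K a r := by
    intro a _ r hr
    split_ifs with e
    · rw [e]; exact hK0K r hr
    · exact le_rfl
  have hRb0 : ∀ r ∈ Icc 0 s, ∀ x ∈ H, ∀ y ∈ H, x ≠ y → 0 ≤ Rb x y r := by
    intro r hr x hx y hy hxy
    refine (Real.exp_pos _).le.trans (hRb {x, y} ?_ x (by simp) y (by simp) hxy r hr)
    intro z hz
    rcases Finset.mem_insert.1 hz with rfl | hz
    · exact hx
    · rw [Finset.mem_singleton.1 hz]; exact hy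
  have main := eta_bound (δ := fun t a => if a = v then 0 else δ t a)
    (K := fun a r => if a = v then K0 r else K a r)
    (K' := fun a r => if a = v then K0' r else K' a r) (M := M) (M' := M') (X := X) (D := D)
    (Rb := Rb) (H := H) hs haa h0 (fun t a => by split_ifs <;> [exact le_rfl; exact δ0 t a])
    hs0 hl hl1 hRb hD0 hD
    (fun a ha r hr => by
      by_cases e : a = v
      · simp only [e, if_true]; exact hK0d r hr
      · simp only [if_neg e]; exact hKd a ha r hr)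
    hMd
    (fun a ha r hr => by
      split_ifs
      · exact hK00 r hr
      · exact hK0 a ha r hr)
    hM0
    (fun p hp q hq hpq r hr => by
      refine le_trans ?_ (hX1 p hp q hq hpq r hr)
      have := Real.exp_le_exp.2 (add_le_add (hle p hp r hr) (hle q hq r hr))
      linarith)
    hX2
    (fun a ha r hr => by
      by_cases e : a = v
      · subst e
        simp only [if_true, zero_add]
        exact hKv r hr
      · simp only [if_neg e]; exact hK a ha r hr)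
    (fun a ha r hr => by
      refine le_trans (add_le_add (Finset.sum_le_sum fun b hb => ?_) le_rfl) (hM a ha r hr)
      have hbH := Finset.mem_of_mem_erase hb
      have hab : a ≠ b := fun e => Finset.notMem_erase a H (e ▸ hb)
      refine mul_le_mul_of_nonneg_left (mul_le_mul_of_nonneg_left ?_
        (hRb0 r hr a ha b hbH hab)) (h0 _ _ _)
      have := Real.exp_le_exp.2 (hle b hbH r hr)
      linarith)
  refine ⟨fun G hG hvG r hr => ?_, fun G hG a ha haG r hr => ?_⟩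
  · have := main G hG v hv hvG r hr
    simpa using this
  · have i := main G hG a ha haG r hr
    exact ⟨i.1, i.2.trans (hle a ha r hr)⟩

/-- two-time decoupling with logarithmic influences -/
theorem theta_log (hsy : ∀ t a b, h t a b = h t b a) (haa : ∀ t a, h t a a = 0)
    (h0 : ∀ t a b, 0 ≤ h t a b) (k0 : ∀ t a, 0 ≤ k t a) {R0 C : Finset V → ℝ → ℝ}
    {U : Finset V} {m : ℝ → Finset V → ℝ}
    (hR0 : IsBack h k s R0) (hRp : ∀ F, ∀ r ∈ Icc 0 s, 0 < R0 F r)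
    {v : V} (hv : v ∈ U) {r1 : ℝ} (hr1 : r1 ∈ Icc 0 s)
    (hC : IsBack h (fun t a => h t v a) r1 C) (hCp : ∀ F, ∀ r ∈ Icc 0 r1, 0 < C F r)
    (hm : IsKLaw h k U s m)
    {Θ θ : ℝ → ℝ} (hΘ : ∀ q ∈ Icc 0 r1, HasDerivAt Θ (θ q) q) (hΘ0 : Θ 0 = 0)
    {Kb Mb Kc Mc X : V → V → ℝ → ℝ} {W : V → ℝ → ℝ}
    (hb : ∀ G ⊆ U.erase v, ∀ p ∈ G, ∀ q ∈ G, p ≠ q → ∀ r ∈ Icc 0 r1,
      -Mb p q r ≤ Real.exp (Real.log (R0 (insert v ((G.erase p).erase q)) r)
        - Real.log (R0 (insert v G) r)) - 1 ∧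
      Real.exp (Real.log (R0 (insert v ((G.erase p).erase q)) r)
        - Real.log (R0 (insert v G) r)) - 1 ≤ Kb p q r)
    (hc : ∀ G ⊆ U.erase v, ∀ p ∈ G, ∀ q ∈ G, p ≠ q → ∀ r ∈ Icc 0 r1,
      -Mc p q r ≤ Real.exp (Real.log (C ((G.erase p).erase q) r) - Real.log (C G r)) - 1 ∧
      Real.exp (Real.log (C ((G.erase p).erase q) r) - Real.log (C G r)) - 1 ≤ Kc p q r)
    (hw : ∀ G ⊆ U.erase v, ∀ b ∈ G, ∀ r ∈ Icc 0 r1,
      1 - Real.exp (Real.log (R0 (G.erase b) r) - Real.log (R0 (insert v G) r)) ≤ W b r)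
    (hW0 : ∀ b ∈ U.erase v, ∀ r ∈ Icc 0 r1, 0 ≤ W b r)
    (hX0 : ∀ p ∈ U.erase v, ∀ q ∈ U.erase v, p ≠ q → ∀ r ∈ Icc 0 r1, 0 ≤ X p q r)
    (hX1 : ∀ p ∈ U.erase v, ∀ q ∈ U.erase v, p ≠ q → ∀ r ∈ Icc 0 r1,
      Kb p q r * Kc p q r ≤ X p q r)
    (hX2 : ∀ p ∈ U.erase v, ∀ q ∈ U.erase v, p ≠ q → ∀ r ∈ Icc 0 r1,
      Mb p q r * Mc p q r ≤ X p q r)
    (hθ : ∀ q ∈ Icc 0 r1, ∑ b ∈ U.erase v, h q v b * W b q
      + (1 / 2) * ∑ a ∈ U.erase v, ∑ b ∈ U.erase v, h q a b * X a b q ≤ θ q) :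
    ∑ F : Finset V, m r1 F * (if v ∈ F then R0 F r1 else 0)
      ≤ Real.exp (Θ r1) * (C (U.erase v) 0 * R0 U 0) := by
  refine theta_bound hsy haa h0 k0 hR0 hv hr1 hC hm hΘ hΘ0 ?_
  intro G hG q hq
  have hqs : q ∈ Icc 0 s := ⟨hq.1, hq.2.trans hr1.2⟩
  have hCG := hCp G q hq
  have hRG := hRp (insert v G) q hqs
  have hCR : 0 < C G q * R0 (insert v G) q := mul_pos hCG hRG
  have ediv : ∀ {x y : ℝ}, 0 < x → 0 < y → x = y * Real.exp (Real.log x - Real.log y) := by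
    intro x y hx hy
    rw [Real.exp_sub, Real.exp_log hx, Real.exp_log hy]
    field_simp
  have b1 := lsum_le (g := fun b => h q v b) (fun b => h0 q v b) hG
    (t := fun b => 1 - Real.exp (Real.log (R0 (G.erase b) q) - Real.log (R0 (insert v G) q)))
    (u := fun b => W b q) (fun b hb => hw G hG b hb q hq) (fun b hb => hW0 b hb q hq)
  have b2 := psum_le (h := h q) (h0 q) (haa q) hG
    (t := fun p p' => (Real.exp (Real.log (C ((G.erase p).erase p') q) - Real.log (C G q)) - 1)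
      * (Real.exp (Real.log (R0 (insert v ((G.erase p).erase p')) q)
        - Real.log (R0 (insert v G) q)) - 1))
    (u := fun p p' => X p p' q)
    (fun p hp p' hp' hpp => by
      beta_reduce
      have iv := hb G hG p hp p' hp' hpp q hq
      have iz := hc G hG p hp p' hp' hpp q hq
      have x0 := hX0 p (hG hp) p' (hG hp') hpp q hq
      have x1 := hX1 p (hG hp) p' (hG hp') hpp q hq
      have x2 := hX2 p (hG hp) p' (hG hp') hpp q hq
      set x := Real.exp (Real.log (R0 (insert v ((G.erase p).erase p')) q)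
        - Real.log (R0 (insert v G) q)) - 1
      set y := Real.exp (Real.log (C ((G.erase p).erase p') q) - Real.log (C G q)) - 1
      rw [mul_comm y x]
      rcases le_total 0 x with hx1 | hx1 <;> rcases le_total 0 y with hy1 | hy1
      · exact (mul_le_mul iv.2 iz.2 hy1 (hx1.trans iv.2)).trans x1
      · exact (mul_nonpos_of_nonneg_of_nonpos hx1 hy1).trans x0
      · exact (mul_nonpos_of_nonpos_of_nonneg hx1 hy1).trans x0
      · have := mul_le_mul (a := -x) (b := Mb p p' q) (c := -y) (d := Mc p p' q)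
          (by linarith [iv.1]) (by linarith [iz.1]) (by linarith) (by linarith [iv.1])
        nlinarith)
    (fun p hp p' hp' hpp => hX0 p hp p' hp' hpp q hq)
  have e1 : ∑ b ∈ G, h q v b * (C G q * (R0 (insert v G) q - R0 (G.erase b) q))
      = (C G q * R0 (insert v G) q) * ∑ b ∈ G, h q v b *
        (1 - Real.exp (Real.log (R0 (G.erase b) q) - Real.log (R0 (insert v G) q))) := by
    rw [Finset.mul_sum]
    refine Finset.sum_congr rfl fun b _ => ?_
    have := ediv (hRp (G.erase b) q hqs) hRG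
    set E := Real.exp (Real.log (R0 (G.erase b) q) - Real.log (R0 (insert v G) q))
    rw [this]; ring
  have e2 : (1 / 2) * ∑ a ∈ G, ∑ b ∈ G, h q a b * ((C ((G.erase a).erase b) q - C G q)
        * (R0 (insert v ((G.erase a).erase b)) q - R0 (insert v G) q))
      = (C G q * R0 (insert v G) q) * ((1 / 2) * ∑ p ∈ G, ∑ p' ∈ G, h q p p' *
        ((Real.exp (Real.log (C ((G.erase p).erase p') q) - Real.log (C G q)) - 1)
        * (Real.exp (Real.log (R0 (insert v ((G.erase p).erase p')) q)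
          - Real.log (R0 (insert v G) q)) - 1))) := by
    rw [mul_left_comm (C G q * R0 (insert v G) q) (1 / 2)]
    congr 1
    rw [Finset.mul_sum]
    refine Finset.sum_congr rfl fun a _ => ?_
    rw [Finset.mul_sum]
    refine Finset.sum_congr rfl fun b _ => ?_
    have i1 := ediv (hRp (insert v ((G.erase a).erase b)) q hqs) hRG
    have i2 := ediv (hCp ((G.erase a).erase b) q hq) hCG
    set E1 := Real.exp (Real.log (R0 (insert v ((G.erase a).erase b)) q)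
      - Real.log (R0 (insert v G) q))
    set E2 := Real.exp (Real.log (C ((G.erase a).erase b) q) - Real.log (C G q))
    rw [i1, i2]; ring
  rw [e1, e2, ← mul_add, mul_comm (θ q)]
  refine mul_le_mul_of_nonneg_left ?_ hCR.le
  have := hθ q hq
  linarith

end Pool.Agent.RCRSGen
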