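import Pool.Agent.RCRSGen.LB

/-! Comparison theorems for interactions of influences (MP_73ccd0_lc, exact 1/2, general
graphs). -/

namespace Pool.Agent.RCRSGen

open Set Finset Pool.Agent.RCRSHalf

set_option linter.unusedSectionVars false

variable {V : Type*} [Fintype V] [DecidableEq V]

section reals

theorem abs_exp_sub_one_le {y J : ℝ} (h : |y| ≤ J) : |Real.exp y - 1| ≤ Real.exp J - 1 := by
  have h1 : Real.exp |y| ≤ Real.exp J := Real.exp_le_exp.2 h
  rcases le_total 0 y with hy | hy
  · rw [abs_of_nonneg hy] at h1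
    rw [abs_of_nonneg (by have := Real.one_le_exp hy; linarith)]
    linarith
  · rw [abs_of_nonpos hy] at h1
    have h2 : Real.exp y ≤ 1 := Real.exp_le_one_iff.2 hy
    rw [abs_of_nonpos (by linarith)]
    have h3 : 1 ≤ Real.exp y * Real.exp (-y) := by rw [← Real.exp_add]; simp
    have h4 : 0 < Real.exp y := Real.exp_pos _
    have h5 : 2 ≤ Real.exp y + Real.exp (-y) := by
      nlinarith [sq_nonneg (Real.exp y - 1), Real.exp_pos (-y)]
    linarith

theorem one_sub_exp_neg_le {y : ℝ} : 1 - Real.exp (-y) ≤ y := by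
  have := Real.add_one_le_exp (-y)
  linarith

/-- product bound with a factor -/
theorem mul3_le {E a b Rb A B : ℝ} (hE0 : 0 ≤ E) (hE : E ≤ Rb) (ha : |a| ≤ A) (hb : |b| ≤ B) :
    |E * a * b| ≤ Rb * A * B := by
  rw [abs_mul, abs_mul, abs_of_nonneg hE0]
  have hA : 0 ≤ A := (abs_nonneg _).trans ha
  exact mul_le_mul (mul_le_mul hE ha (abs_nonneg _) (hE0.trans hE)) hb (abs_nonneg _)
    (mul_nonneg (hE0.trans hE) hA)

end reals

theorem psum_le {h : V → V → ℝ} (h0 : ∀ a b, 0 ≤ h a b) (haa : ∀ a, h a a = 0)
    {G H : Finset V} (hG : G ⊆ H) {t u : V → V → ℝ}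
    (ht : ∀ p ∈ G, ∀ q ∈ G, p ≠ q → t p q ≤ u p q)
    (hu : ∀ p ∈ H, ∀ q ∈ H, p ≠ q → 0 ≤ u p q) :
    (1 / 2) * ∑ p ∈ G, ∑ q ∈ G, h p q * t p q ≤ (1 / 2) * ∑ p ∈ H, ∑ q ∈ H, h p q * u p q := by
  refine mul_le_mul_of_nonneg_left ?_ (by norm_num)
  have hn : ∀ p ∈ H, ∀ q ∈ H, 0 ≤ h p q * u p q := by
    intro p hp q hq
    by_cases e : p = q
    · rw [e, haa]; simp
    · exact mul_nonneg (h0 _ _) (hu p hp q hq e)
  refine (Finset.sum_le_sum fun p hp => Finset.sum_le_sum fun q hq => ?_).trans
    ((Finset.sum_le_sum fun p hp => Finset.sum_le_sum_of_subset_of_nonneg hG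
      fun q hq _ => hn p (hG hp) q hq).trans
    (Finset.sum_le_sum_of_subset_of_nonneg hG fun p hp _ => Finset.sum_nonneg fun q hq =>
      hn p hp q hq))
  by_cases e : p = q
  · rw [e, haa]; simp
  · exact mul_le_mul_of_nonneg_left (ht p hp q hq e) (h0 _ _)

theorem psum_ge {h : V → V → ℝ} (h0 : ∀ a b, 0 ≤ h a b) (haa : ∀ a, h a a = 0)
    {G H : Finset V} (hG : G ⊆ H) {t u : V → V → ℝ}
    (ht : ∀ p ∈ G, ∀ q ∈ G, p ≠ q → -u p q ≤ t p q)
    (hu : ∀ p ∈ H, ∀ q ∈ H, p ≠ q → 0 ≤ u p q) :
    -((1 / 2) * ∑ p ∈ H, ∑ q ∈ H, h p q * u p q) ≤ (1 / 2) * ∑ p ∈ G, ∑ q ∈ G, h p q * t p q := by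
  have := psum_le h0 haa hG (t := fun p q => -t p q) (u := u)
    (fun p hp q hq e => by linarith [ht p hp q hq e]) hu
  have e : (1 / 2) * ∑ p ∈ G, ∑ q ∈ G, h p q * -t p q
      = -((1 / 2) * ∑ p ∈ G, ∑ q ∈ G, h p q * t p q) := by
    simp_rw [mul_neg, Finset.sum_neg_distrib]; ring
  linarith

theorem lsum_le {g : V → ℝ} (g0 : ∀ b, 0 ≤ g b) {G H : Finset V} (hG : G ⊆ H) {t u : V → ℝ}
    (ht : ∀ b ∈ G, t b ≤ u b) (hu : ∀ b ∈ H, 0 ≤ u b) :
    ∑ b ∈ G, g b * t b ≤ ∑ b ∈ H, g b * u b :=
  (Finset.sum_le_sum fun b hb => mul_le_mul_of_nonneg_left (ht b hb) (g0 b)).trans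
    (Finset.sum_le_sum_of_subset_of_nonneg hG fun b hb _ => mul_nonneg (g0 b) (hu b hb))

theorem lsum_ge {g : V → ℝ} (g0 : ∀ b, 0 ≤ g b) {G H : Finset V} (hG : G ⊆ H) {t u : V → ℝ}
    (ht : ∀ b ∈ G, -u b ≤ t b) (hu : ∀ b ∈ H, 0 ≤ u b) :
    -∑ b ∈ H, g b * u b ≤ ∑ b ∈ G, g b * t b := by
  have := lsum_le g0 hG (t := fun b => -t b) (u := u) (fun b hb => by linarith [ht b hb]) hu
  have e : ∑ b ∈ G, g b * -t b = -∑ b ∈ G, g b * t b := by
    simp_rw [mul_neg, Finset.sum_neg_distrib]
  linarith

/-- combination of four logarithmic generators on the same set -/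
theorem comb4 (h : V → V → ℝ) (l1 l2 l3 l4 : Finset V → ℝ) (G : Finset V) :
    elg h l1 G + elg h l2 G - elg h l3 G - elg h l4 G
      = (1 / 2) * ∑ p ∈ G, ∑ q ∈ G, h p q *
        (Real.exp (l1 ((G.erase p).erase q) - l1 G) + Real.exp (l2 ((G.erase p).erase q) - l2 G)
          - Real.exp (l3 ((G.erase p).erase q) - l3 G)
          - Real.exp (l4 ((G.erase p).erase q) - l4 G)) := by
  unfold elg
  rw [← mul_add, ← mul_sub, ← mul_sub, ← Finset.sum_add_distrib, ← Finset.sum_sub_distrib,
    ← Finset.sum_sub_distrib]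
  congr 1
  refine Finset.sum_congr rfl fun p _ => ?_
  rw [← Finset.sum_add_distrib, ← Finset.sum_sub_distrib, ← Finset.sum_sub_distrib]
  refine Finset.sum_congr rfl fun q _ => ?_
  ring

section eta

variable {h : ℝ → V → V → ℝ} {k δ : ℝ → V → ℝ} {s : ℝ} {l l1 : Finset V → ℝ → ℝ}

/-- two sided bounds for the additional influence of `a` when the killing is increased by `δ` -/
theorem eta_bound (hs : ∀ t a b, h t a b = h t b a) (haa : ∀ t a, h t a a = 0)
    (h0 : ∀ t a b, 0 ≤ h t a b) (δ0 : ∀ t a, 0 ≤ δ t a) (hs0 : 0 ≤ s)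
    (hl : IsLB h k s l) (hl1 : IsLB h (fun t a => k t a + δ t a) s l1)
    {H : Finset V} {Rb D X : V → V → ℝ → ℝ} {K K' M M' : V → ℝ → ℝ}
    (hRb : ∀ T ⊆ H, ∀ p ∈ T, ∀ q ∈ T, p ≠ q → ∀ r ∈ Icc 0 s,
      Real.exp (l ((T.erase p).erase q) r - l T r) ≤ Rb p q r)
    (hD0 : ∀ a ∈ H, ∀ c ∈ H, ∀ r ∈ Icc 0 s, 0 ≤ D a c r)
    (hD : ∀ G ⊆ H, ∀ a ∈ H, ∀ c ∈ H, a ∉ G → c ∉ G → a ≠ c → ∀ r ∈ Icc 0 s,
      |l G r + l (insert a (insert c G)) r - l (insert a G) r - l (insert c G) r| ≤ D a c r)
    (hKd : ∀ a ∈ H, ∀ r ∈ Icc 0 s, HasDerivAt (K a) (K' a r) r)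
    (hMd : ∀ a ∈ H, ∀ r ∈ Icc 0 s, HasDerivAt (M a) (M' a r) r)
    (hK0 : ∀ a ∈ H, ∀ r ∈ Icc 0 s, 0 ≤ K a r) (hM0 : ∀ a ∈ H, ∀ r ∈ Icc 0 s, 0 ≤ M a r)
    (hX1 : ∀ p ∈ H, ∀ q ∈ H, p ≠ q → ∀ r ∈ Icc 0 s, Real.exp (K p r + K q r) - 1 ≤ X p q r)
    (hX2 : ∀ p ∈ H, ∀ q ∈ H, p ≠ q → ∀ r ∈ Icc 0 s, 1 - Real.exp (-(M p r + M q r)) ≤ X p q r)
    (hK : ∀ a ∈ H, ∀ r ∈ Icc 0 s, δ r a + ∑ b ∈ H.erase a, h r a b * (Rb a b r * M b r)
      + (1 / 2) * ∑ p ∈ H.erase a, ∑ q ∈ H.erase a, h r p q *
        (Rb p q r * (Real.exp (D a p r + D a q r) - 1) * X p q r) ≤ -K' a r)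
    (hM : ∀ a ∈ H, ∀ r ∈ Icc 0 s, ∑ b ∈ H.erase a, h r a b * (Rb a b r * (Real.exp (K b r) - 1))
      + (1 / 2) * ∑ p ∈ H.erase a, ∑ q ∈ H.erase a, h r p q *
        (Rb p q r * (Real.exp (D a p r + D a q r) - 1) * X p q r) ≤ -M' a r) :
    ∀ G ⊆ H, ∀ a ∈ H, a ∉ G → ∀ r ∈ Icc 0 s,
      -M a r ≤ (l1 G r - l1 (insert a G) r) - (l G r - l (insert a G) r) ∧
      (l1 G r - l1 (insert a G) r) - (l G r - l (insert a G) r) ≤ K a r := by
  intro G
  induction hn : G.card using Nat.strong_induction_on generalizing G with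
  | _ n ih =>
  intro hG a haH haG
  have hTH : insert a G ⊆ H := Finset.insert_subset haH hG
  have hGe : G ⊆ H.erase a := fun x hx => Finset.mem_erase.2 ⟨fun e => haG (e ▸ hx), hG hx⟩
  -- the derivative
  set L : ℝ → ℝ := fun r => (l1 G r - l1 (insert a G) r) - (l G r - l (insert a G) r) with hL
  set L' : ℝ → ℝ := fun r =>
    ((-(elg (h r) (fun S => l1 S r) G - ∑ b ∈ G, (k r b + δ r b)))
      - (-(elg (h r) (fun S => l1 S r) (insert a G) - ∑ b ∈ insert a G, (k r b + δ r b))))
    - ((-(elg (h r) (fun S => l S r) G - ∑ b ∈ G, k r b))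
      - (-(elg (h r) (fun S => l S r) (insert a G) - ∑ b ∈ insert a G, k r b))) with hL'
  have hLd : ∀ r ∈ Icc 0 s, HasDerivAt L (L' r) r := fun r hr =>
    ((hl1.deriv G r hr).sub (hl1.deriv (insert a G) r hr)).sub
      ((hl.deriv G r hr).sub (hl.deriv (insert a G) r hr))
  have hform : ∀ r, L' r = -(δ r a
      + ∑ b ∈ G, h r a b * (Real.exp (l (G.erase b) r - l (insert a G) r)
        - Real.exp (l1 (G.erase b) r - l1 (insert a G) r))
      + (1 / 2) * ∑ p ∈ G, ∑ q ∈ G, h r p q *
        (Real.exp (l1 ((G.erase p).erase q) r - l1 G r)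
          + Real.exp (l (insert a ((G.erase p).erase q)) r - l (insert a G) r)
          - Real.exp (l1 (insert a ((G.erase p).erase q)) r - l1 (insert a G) r)
          - Real.exp (l ((G.erase p).erase q) r - l G r))) := by
    intro r
    have e1 := elg_insert (h r) (hs r) (haa r) (fun S => l1 S r) haG
    have e2 := elg_insert (h r) (hs r) (haa r) (fun S => l S r) haG
    have e3 := comb4 (h r) (fun S => l1 S r) (fun S => l (insert a S) r)
      (fun S => l1 (insert a S) r) (fun S => l S r) G
    have e4 : ∑ b ∈ G, h r a b * (Real.exp (l (G.erase b) r - l (insert a G) r)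
        - Real.exp (l1 (G.erase b) r - l1 (insert a G) r))
        = ∑ b ∈ G, h r a b * (Real.exp (l (G.erase b) r - l (insert a G) r) - 1)
          - ∑ b ∈ G, h r a b * (Real.exp (l1 (G.erase b) r - l1 (insert a G) r) - 1) := by
      rw [← Finset.sum_sub_distrib]
      exact Finset.sum_congr rfl fun b _ => by ring
    simp only [hL']
    rw [e1, e2, Finset.sum_insert haG, Finset.sum_insert haG, ← e3, e4]
    ring
  -- generic term bounds
  have hj : ∀ p ∈ G, ∀ q ∈ G, p ≠ q → ∀ r ∈ Icc 0 s,
      |(l ((G.erase p).erase q) r - l G r)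
        - (l (insert a ((G.erase p).erase q)) r - l (insert a G) r)| ≤ D a p r + D a q r := by
    intro p hp q hq hpq r hr
    have hp' : p ∈ G.erase q := Finset.mem_erase.2 ⟨hpq, hp⟩
    have hq' : q ∈ G.erase p := Finset.mem_erase.2 ⟨fun e => hpq e.symm, hq⟩
    have hap : a ≠ p := fun e => haG (e ▸ hp)
    have haq : a ≠ q := fun e => haG (e ▸ hq)
    have i1 := hD (G.erase p) ((Finset.erase_subset _ _).trans hG) a haH p (hG hp)
      (fun hh => haG (Finset.mem_of_mem_erase hh)) (Finset.notMem_erase _ _) hap r hr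
    have i2 := hD ((G.erase p).erase q)
      ((Finset.erase_subset _ _).trans ((Finset.erase_subset _ _).trans hG)) a haH q (hG hq)
      (fun hh => haG (Finset.mem_of_mem_erase (Finset.mem_of_mem_erase hh)))
      (Finset.notMem_erase _ _) haq r hr
    rw [Finset.insert_erase hp] at i1
    rw [Finset.insert_erase hq'] at i2
    have : (l ((G.erase p).erase q) r - l G r)
        - (l (insert a ((G.erase p).erase q)) r - l (insert a G) r)
        = (l (G.erase p) r + l (insert a G) r - l (insert a (G.erase p)) r - l G r)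
          + (l ((G.erase p).erase q) r + l (insert a (G.erase p)) r
            - l (insert a ((G.erase p).erase q)) r - l (G.erase p) r) := by ring
    rw [this]
    exact (abs_add_le _ _).trans (add_le_add i1 i2)
  have he : ∀ p ∈ G, ∀ q ∈ G, p ≠ q → ∀ r ∈ Icc 0 s,
      |Real.exp ((l1 ((G.erase p).erase q) r - l1 G r) - (l ((G.erase p).erase q) r - l G r)) - 1|
        ≤ X p q r := by
    intro p hp q hq hpq r hr
    have hq' : q ∈ G.erase p := Finset.mem_erase.2 ⟨fun e => hpq e.symm, hq⟩
    have hc1 : (G.erase p).card < n := by rw [← hn]; exact Finset.card_erase_lt_of_mem hp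
    have hc2 : ((G.erase p).erase q).card < n :=
      (Finset.card_le_card (Finset.erase_subset _ _)).trans_lt hc1
    have i1 := ih _ hc1 (G.erase p) rfl ((Finset.erase_subset _ _).trans hG) p (hG hp)
      (Finset.notMem_erase _ _) r hr
    have i2 := ih _ hc2 ((G.erase p).erase q) rfl
      ((Finset.erase_subset _ _).trans ((Finset.erase_subset _ _).trans hG)) q (hG hq)
      (Finset.notMem_erase _ _) r hr
    rw [Finset.insert_erase hp] at i1
    rw [Finset.insert_erase hq'] at i2
    set y := (l1 ((G.erase p).erase q) r - l1 G r) - (l ((G.erase p).erase q) r - l G r) with hy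
    have y1 : y ≤ K p r + K q r := by rw [hy]; linarith [i1.2, i2.2]
    have y2 : -(M p r + M q r) ≤ y := by rw [hy]; linarith [i1.1, i2.1]
    have z1 := Real.exp_le_exp.2 y1
    have z2 := Real.exp_le_exp.2 y2
    have w1 := hX1 p (hG hp) q (hG hq) hpq r hr
    have w2 := hX2 p (hG hp) q (hG hq) hpq r hr
    rw [abs_le]
    constructor <;> linarith
  have hu0 : ∀ r ∈ Icc 0 s, ∀ p ∈ H.erase a, ∀ q ∈ H.erase a, p ≠ q →
      0 ≤ Rb p q r * (Real.exp (D a p r + D a q r) - 1) * X p q r := by
    intro r hr p hp q hq hpq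
    have hpH := Finset.mem_of_mem_erase hp
    have hqH := Finset.mem_of_mem_erase hq
    have r0 : 0 ≤ Rb p q r := by
      refine (Real.exp_pos _).le.trans (hRb {p, q} ?_ p (by simp) q (by simp) hpq r hr)
      intro x hx
      rcases Finset.mem_insert.1 hx with rfl | hx
      · exact hpH
      · rw [Finset.mem_singleton.1 hx]; exact hqH
    have x0 : 0 ≤ X p q r := by
      refine le_trans ?_ (hX1 p hpH q hqH hpq r hr)
      have := Real.one_le_exp (add_nonneg (hK0 p hpH r hr) (hK0 q hqH r hr))
      linarith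
    have d0 : 0 ≤ Real.exp (D a p r + D a q r) - 1 := by
      have := Real.one_le_exp (add_nonneg (hD0 a haH p hpH r hr) (hD0 a haH q hqH r hr))
      linarith
    positivity
  have hRb0 : ∀ r ∈ Icc 0 s, ∀ b ∈ H.erase a, 0 ≤ Rb a b r := by
    intro r hr b hb
    have hbH := Finset.mem_of_mem_erase hb
    have hab : a ≠ b := fun e => Finset.notMem_erase a H (e ▸ hb)
    refine (Real.exp_pos _).le.trans (hRb {a, b} ?_ a (by simp) b (by simp) hab r hr)
    intro x hx
    rcases Finset.mem_insert.1 hx with rfl | hx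
    · exact haH
    · rw [Finset.mem_singleton.1 hx]; exact hbH
  -- bound of the base ratio for the pair `a b`
  have hEb : ∀ b ∈ G, ∀ r ∈ Icc 0 s, Real.exp (l (G.erase b) r - l (insert a G) r) ≤ Rb a b r := by
    intro b hb r hr
    have hab : a ≠ b := fun e => haG (e ▸ hb)
    have := hRb (insert a G) hTH a (Finset.mem_insert_self _ _) b (Finset.mem_insert_of_mem hb)
      hab r hr
    rwa [Finset.erase_insert haG] at this
  have hηb : ∀ b ∈ G, ∀ r ∈ Icc 0 s,
      -M b r ≤ (l1 (G.erase b) r - l1 G r) - (l (G.erase b) r - l G r) ∧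
      (l1 (G.erase b) r - l1 G r) - (l (G.erase b) r - l G r) ≤ K b r := by
    intro b hb r hr
    have hc1 : (G.erase b).card < n := by rw [← hn]; exact Finset.card_erase_lt_of_mem hb
    have i1 := ih _ hc1 (G.erase b) rfl ((Finset.erase_subset _ _).trans hG) b (hG hb)
      (Finset.notMem_erase _ _) r hr
    rwa [Finset.insert_erase hb] at i1
  have hLg : ∀ p ∈ G, ∀ q : V, ∀ r ∈ Icc 0 s,
      -M a r ≤ (l1 ((G.erase p).erase q) r - l1 (insert a ((G.erase p).erase q)) r)
        - (l ((G.erase p).erase q) r - l (insert a ((G.erase p).erase q)) r) ∧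
      (l1 ((G.erase p).erase q) r - l1 (insert a ((G.erase p).erase q)) r)
        - (l ((G.erase p).erase q) r - l (insert a ((G.erase p).erase q)) r) ≤ K a r := by
    intro p hp q r hr
    have hc2 : ((G.erase p).erase q).card < n := by
      rw [← hn]
      exact (Finset.card_le_card (Finset.erase_subset _ _)).trans_lt
        (Finset.card_erase_lt_of_mem hp)
    exact ih _ hc2 ((G.erase p).erase q) rfl
      ((Finset.erase_subset _ _).trans ((Finset.erase_subset _ _).trans hG)) a haH
      (fun hh => haG (Finset.mem_of_mem_erase (Finset.mem_of_mem_erase hh))) r hr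
  have hupper : ∀ r ∈ Icc 0 s, L r ≤ K a r := by
    refine cmp_le hLd (hKd a haH) ?_ ?_
    · simp only [hL, hl1.end_, hl.end_]
      simpa using hK0 a haH s ⟨hs0, le_rfl⟩
    · intro r hr hlt
      rw [hform r, le_neg, ← sub_nonneg]
      have b1 := lsum_le (g := fun b => h r a b) (fun b => h0 r a b) hGe
        (t := fun b => Real.exp (l (G.erase b) r - l (insert a G) r)
          - Real.exp (l1 (G.erase b) r - l1 (insert a G) r))
        (u := fun b => Rb a b r * M b r)
        (fun b hb => by
          beta_reduce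
          have i1 := (hηb b hb r hr).1
          set B := l (G.erase b) r - l (insert a G) r with hB
          have hB1 : l1 (G.erase b) r - l1 (insert a G) r
              = B + (L r + ((l1 (G.erase b) r - l1 G r) - (l (G.erase b) r - l G r))) := by
            simp only [hB, hL]; ring
          have hKa := hK0 a haH r hr
          have hy : -M b r ≤ L r + ((l1 (G.erase b) r - l1 G r) - (l (G.erase b) r - l G r)) := by
            linarith
          rw [hB1, Real.exp_add]
          have z1 := Real.exp_le_exp.2 hy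
          have z2 := one_sub_exp_neg_le (y := M b r)
          have hM1 := hM0 b (hG hb) r hr
          have hE := hEb b hb r hr
          have hEp := Real.exp_pos B
          calc Real.exp B - Real.exp B * Real.exp (L r +
                ((l1 (G.erase b) r - l1 G r) - (l (G.erase b) r - l G r)))
              = Real.exp B * (1 - Real.exp (L r +
                ((l1 (G.erase b) r - l1 G r) - (l (G.erase b) r - l G r)))) := by ring
            _ ≤ Real.exp B * M b r := mul_le_mul_of_nonneg_left (by linarith) hEp.le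
            _ ≤ Rb a b r * M b r := mul_le_mul_of_nonneg_right hE hM1)
        (fun b hb => mul_nonneg (hRb0 r hr b hb) (hM0 b (Finset.mem_of_mem_erase hb) r hr))
      have b2 := psum_le (h := h r) (h0 r) (haa r) hGe
        (t := fun p q => Real.exp (l1 ((G.erase p).erase q) r - l1 G r)
          + Real.exp (l (insert a ((G.erase p).erase q)) r - l (insert a G) r)
          - Real.exp (l1 (insert a ((G.erase p).erase q)) r - l1 (insert a G) r)
          - Real.exp (l ((G.erase p).erase q) r - l G r))
        (u := fun p q => Rb p q r * (Real.exp (D a p r + D a q r) - 1) * X p q r)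
        (fun p hp q hq hpq => by
          beta_reduce
          have hA : Real.exp (l ((G.erase p).erase q) r - l G r) ≤ Rb p q r :=
            hRb G hG p hp q hq hpq r hr
          have hjj := hj p hp q hq hpq r hr
          have hee := he p hp q hq hpq r hr
          have ht := (hLg p hp q r hr).2
          set A := l ((G.erase p).erase q) r - l G r with hAdef
          set j := A - (l (insert a ((G.erase p).erase q)) r - l (insert a G) r) with hjdef
          set e := (l1 ((G.erase p).erase q) r - l1 G r) - A with hedef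
          set t := L r - ((l1 ((G.erase p).erase q) r - l1 (insert a ((G.erase p).erase q)) r)
            - (l ((G.erase p).erase q) r - l (insert a ((G.erase p).erase q)) r)) with htdef
          have ht0 : 0 ≤ t := by rw [htdef]; linarith
          have q1 : l1 ((G.erase p).erase q) r - l1 G r = A + e := by rw [hedef]; ring
          have q2 : l (insert a ((G.erase p).erase q)) r - l (insert a G) r = A + -j := by
            rw [hjdef]; ring
          have q3 : l1 (insert a ((G.erase p).erase q)) r - l1 (insert a G) r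
              = A + e + -j + t := by
            rw [hedef, hjdef, htdef, hAdef]; simp only [hL]; ring
          rw [q1, q2, q3]
          have z1 : Real.exp (A + e + -j) ≤ Real.exp (A + e + -j + t) :=
            Real.exp_le_exp.2 (by linarith)
          have z2 : Real.exp (A + e) + Real.exp (A + -j) - Real.exp (A + e + -j) - Real.exp A
              = -(Real.exp A * (Real.exp (-j) - 1) * (Real.exp e - 1)) := by
            rw [Real.exp_add (A + e), Real.exp_add, Real.exp_add]; ring
          have z3 := abs_le.1 (mul3_le (Real.exp_pos A).le hA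
            (abs_exp_sub_one_le (y := -j) (J := D a p r + D a q r) (by rwa [abs_neg])) hee)
          linarith [z3.1])
        (hu0 r hr)
      have b3 := hK a haH r hr
      linarith
  have hlower : ∀ r ∈ Icc 0 s, -M a r ≤ L r := by
    refine cmp_ge hLd (K' := fun r => -M' a r) (fun r hr => (hMd a haH r hr).neg) ?_ ?_
    · simp only [hL, hl1.end_, hl.end_]
      have := hM0 a haH s ⟨hs0, le_rfl⟩
      simpa using this
    · intro r hr hlt
      rw [hform r]
      have b1 := lsum_ge (g := fun b => h r a b) (fun b => h0 r a b) hGe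
        (t := fun b => Real.exp (l (G.erase b) r - l (insert a G) r)
          - Real.exp (l1 (G.erase b) r - l1 (insert a G) r))
        (u := fun b => Rb a b r * (Real.exp (K b r) - 1))
        (fun b hb => by
          beta_reduce
          have i1 := (hηb b hb r hr).2
          set B := l (G.erase b) r - l (insert a G) r with hB
          have hB1 : l1 (G.erase b) r - l1 (insert a G) r
              = B + (L r + ((l1 (G.erase b) r - l1 G r) - (l (G.erase b) r - l G r))) := by
            simp only [hB, hL]; ring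
          have hMa := hM0 a haH r hr
          have hy : L r + ((l1 (G.erase b) r - l1 G r) - (l (G.erase b) r - l G r)) ≤ K b r := by
            linarith
          rw [hB1, Real.exp_add]
          have z1 := Real.exp_le_exp.2 hy
          have hK1 := Real.one_le_exp (hK0 b (hG hb) r hr)
          have hE := hEb b hb r hr
          have hEp := Real.exp_pos B
          have c1 : Real.exp B * (Real.exp (L r +
                ((l1 (G.erase b) r - l1 G r) - (l (G.erase b) r - l G r))) - 1)
              ≤ Rb a b r * (Real.exp (K b r) - 1) :=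
            (mul_le_mul_of_nonneg_left (by linarith) hEp.le).trans
              (mul_le_mul_of_nonneg_right hE (by linarith))
          linarith)
        (fun b hb => mul_nonneg (hRb0 r hr b hb)
          (by have := Real.one_le_exp (hK0 b (Finset.mem_of_mem_erase hb) r hr); linarith))
      have b2 := psum_ge (h := h r) (h0 r) (haa r) hGe
        (t := fun p q => Real.exp (l1 ((G.erase p).erase q) r - l1 G r)
          + Real.exp (l (insert a ((G.erase p).erase q)) r - l (insert a G) r)
          - Real.exp (l1 (insert a ((G.erase p).erase q)) r - l1 (insert a G) r)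
          - Real.exp (l ((G.erase p).erase q) r - l G r))
        (u := fun p q => Rb p q r * (Real.exp (D a p r + D a q r) - 1) * X p q r)
        (fun p hp q hq hpq => by
          beta_reduce
          have hA : Real.exp (l ((G.erase p).erase q) r - l G r) ≤ Rb p q r :=
            hRb G hG p hp q hq hpq r hr
          have hjj := hj p hp q hq hpq r hr
          have hee := he p hp q hq hpq r hr
          have ht := (hLg p hp q r hr).1
          set A := l ((G.erase p).erase q) r - l G r with hAdef
          set j := A - (l (insert a ((G.erase p).erase q)) r - l (insert a G) r) with hjdef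
          set e := (l1 ((G.erase p).erase q) r - l1 G r) - A with hedef
          set t := L r - ((l1 ((G.erase p).erase q) r - l1 (insert a ((G.erase p).erase q)) r)
            - (l ((G.erase p).erase q) r - l (insert a ((G.erase p).erase q)) r)) with htdef
          have ht0 : t ≤ 0 := by rw [htdef]; linarith
          have q1 : l1 ((G.erase p).erase q) r - l1 G r = A + e := by rw [hedef]; ring
          have q2 : l (insert a ((G.erase p).erase q)) r - l (insert a G) r = A + -j := by
            rw [hjdef]; ring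
          have q3 : l1 (insert a ((G.erase p).erase q)) r - l1 (insert a G) r
              = A + e + -j + t := by
            rw [hedef, hjdef, htdef, hAdef]; simp only [hL]; ring
          rw [q1, q2, q3]
          have z1 : Real.exp (A + e + -j + t) ≤ Real.exp (A + e + -j) :=
            Real.exp_le_exp.2 (by linarith)
          have z2 : Real.exp (A + e) + Real.exp (A + -j) - Real.exp (A + e + -j) - Real.exp A
              = -(Real.exp A * (Real.exp (-j) - 1) * (Real.exp e - 1)) := by
            rw [Real.exp_add (A + e), Real.exp_add, Real.exp_add]; ring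
          have z3 := abs_le.1 (mul3_le (Real.exp_pos A).le hA
            (abs_exp_sub_one_le (y := -j) (J := D a p r + D a q r) (by rwa [abs_neg])) hee)
          linarith [z3.2])
        (hu0 r hr)
      have b3 := hM a haH r hr
      have b4 := δ0 r a
      linarith
  intro r hr
  exact ⟨hlower r hr, hupper r hr⟩

end eta

end Pool.Agent.RCRSGen
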