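import Pool.Agent.RCRSGen.Cmp

/-! Interaction of two influences (MP_73ccd0_lc, exact 1/2, general graphs). -/

namespace Pool.Agent.RCRSGen

open Set Finset Pool.Agent.RCRSHalf

set_option linter.unusedSectionVars false

variable {V : Type*} [Fintype V] [DecidableEq V]

section J

variable {h : ℝ → V → V → ℝ} {k : ℝ → V → ℝ} {s : ℝ} {l : Finset V → ℝ → ℝ}

/-- two sided bound for the interaction of the influences of `a` and `c` -/
theorem J_bound (hs : ∀ t a b, h t a b = h t b a) (haa : ∀ t a, h t a a = 0)
    (h0 : ∀ t a b, 0 ≤ h t a b) (hs0 : 0 ≤ s) (hl : IsLB h k s l)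
    {H : Finset V} {Rb Rm D D' : V → V → ℝ → ℝ}
    (hRb : ∀ T ⊆ H, ∀ p ∈ T, ∀ q ∈ T, p ≠ q → ∀ r ∈ Icc 0 s,
      Real.exp (l ((T.erase p).erase q) r - l T r) ≤ Rb p q r)
    (hRm : ∀ T ⊆ H, ∀ p ∈ T, ∀ q ∈ T, p ≠ q → ∀ r ∈ Icc 0 s,
      |Real.exp (l ((T.erase p).erase q) r - l T r) - 1| ≤ Rm p q r)
    (hDs : ∀ a c r, D a c r = D c a r)
    (hDd : ∀ a ∈ H, ∀ c ∈ H, ∀ r ∈ Icc 0 s, HasDerivAt (D a c) (D' a c r) r)
    (hD0 : ∀ a ∈ H, ∀ c ∈ H, ∀ r ∈ Icc 0 s, 0 ≤ D a c r)
    (hD : ∀ a ∈ H, ∀ c ∈ H, a ≠ c → ∀ r ∈ Icc 0 s, h r a c * Rm a c r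
      + ∑ b ∈ (H.erase a).erase c, h r a b * (Rb a b r * (Real.exp (D c b r) - 1))
      + ∑ b ∈ (H.erase a).erase c, h r c b * (Rb c b r * (Real.exp (D a b r) - 1))
      + (1 / 2) * ∑ p ∈ (H.erase a).erase c, ∑ q ∈ (H.erase a).erase c, h r p q *
        (Rb p q r * (Real.exp (D a p r + D a q r) - 1) * (Real.exp (D c p r + D c q r) - 1))
        ≤ -D' a c r) :
    ∀ G ⊆ H, ∀ a ∈ H, ∀ c ∈ H, a ∉ G → c ∉ G → a ≠ c → ∀ r ∈ Icc 0 s,
      |l G r + l (insert a (insert c G)) r - l (insert a G) r - l (insert c G) r| ≤ D a c r := by
  intro G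
  induction hn : G.card using Nat.strong_induction_on generalizing G with
  | _ n ih =>
  intro hG a haH c hcH haG hcG hac
  have haC : a ∉ insert c G := by
    rw [Finset.mem_insert]; rintro (e | e)
    · exact hac e
    · exact haG e
  have hcC : c ∉ insert a G := by
    rw [Finset.mem_insert]; rintro (e | e)
    · exact hac e.symm
    · exact hcG e
  have hTH : insert a (insert c G) ⊆ H :=
    Finset.insert_subset haH (Finset.insert_subset hcH hG)
  have hGe : G ⊆ (H.erase a).erase c := fun x hx => Finset.mem_erase.2
    ⟨fun e => hcG (e ▸ hx), Finset.mem_erase.2 ⟨fun e => haG (e ▸ hx), hG hx⟩⟩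
  have hee : ∀ x ∈ (H.erase a).erase c, x ∈ H ∧ a ≠ x ∧ c ≠ x := by
    intro x hx
    obtain ⟨h1, h2⟩ := Finset.mem_erase.1 hx
    obtain ⟨h3, h4⟩ := Finset.mem_erase.1 h2
    exact ⟨h4, fun e => h3 e.symm, fun e => h1 e.symm⟩
  set L : ℝ → ℝ := fun r =>
    l G r + l (insert a (insert c G)) r - l (insert a G) r - l (insert c G) r with hL
  set L' : ℝ → ℝ := fun r =>
    (-(elg (h r) (fun S => l S r) G - ∑ b ∈ G, k r b))
    + (-(elg (h r) (fun S => l S r) (insert a (insert c G)) - ∑ b ∈ insert a (insert c G), k r b))
    - (-(elg (h r) (fun S => l S r) (insert a G) - ∑ b ∈ insert a G, k r b))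
    - (-(elg (h r) (fun S => l S r) (insert c G) - ∑ b ∈ insert c G, k r b)) with hL'
  have hLd : ∀ r ∈ Icc 0 s, HasDerivAt L (L' r) r := fun r hr =>
    (((hl.deriv G r hr).add (hl.deriv (insert a (insert c G)) r hr)).sub
      (hl.deriv (insert a G) r hr)).sub (hl.deriv (insert c G) r hr)
  have hform : ∀ r, L' r = -(h r a c * (Real.exp (l G r - l (insert a (insert c G)) r) - 1)
      + ∑ b ∈ G, h r a b * (Real.exp (l (insert c (G.erase b)) r - l (insert a (insert c G)) r)
        - Real.exp (l (G.erase b) r - l (insert a G) r))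
      + ∑ b ∈ G, h r c b * (Real.exp (l (insert a (G.erase b)) r - l (insert a (insert c G)) r)
        - Real.exp (l (G.erase b) r - l (insert c G) r))
      + (1 / 2) * ∑ p ∈ G, ∑ q ∈ G, h r p q *
        (Real.exp (l ((G.erase p).erase q) r - l G r)
          + Real.exp (l (insert a (insert c ((G.erase p).erase q))) r
            - l (insert a (insert c G)) r)
          - Real.exp (l (insert a ((G.erase p).erase q)) r - l (insert a G) r)
          - Real.exp (l (insert c ((G.erase p).erase q)) r - l (insert c G) r))) := by
    intro r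
    have e1 := elg_insert (h r) (hs r) (haa r) (fun S => l S r) haC
    have e1' := elg_insert (h r) (hs r) (haa r) (fun S => l (insert a S) r) hcG
    have e2 := elg_insert (h r) (hs r) (haa r) (fun S => l S r) haG
    have e2' := elg_insert (h r) (hs r) (haa r) (fun S => l S r) hcG
    have e3 := comb4 (h r) (fun S => l S r) (fun S => l (insert a (insert c S)) r)
      (fun S => l (insert a S) r) (fun S => l (insert c S) r) G
    have e5 : ∑ b ∈ insert c G, h r a b *
        (Real.exp (l ((insert c G).erase b) r - l (insert a (insert c G)) r) - 1)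
        = h r a c * (Real.exp (l G r - l (insert a (insert c G)) r) - 1)
          + ∑ b ∈ G, h r a b *
            (Real.exp (l (insert c (G.erase b)) r - l (insert a (insert c G)) r) - 1) := by
      rw [Finset.sum_insert hcG, Finset.erase_insert hcG]
      congr 1
      refine Finset.sum_congr rfl fun b hb => ?_
      have hcb : c ≠ b := fun e => hcG (e ▸ hb)
      rw [Finset.erase_insert_of_ne hcb]
    have e4 : ∑ b ∈ G, h r a b *
          (Real.exp (l (insert c (G.erase b)) r - l (insert a (insert c G)) r)
          - Real.exp (l (G.erase b) r - l (insert a G) r))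
        = ∑ b ∈ G, h r a b *
            (Real.exp (l (insert c (G.erase b)) r - l (insert a (insert c G)) r) - 1)
          - ∑ b ∈ G, h r a b * (Real.exp (l (G.erase b) r - l (insert a G) r) - 1) := by
      rw [← Finset.sum_sub_distrib]
      exact Finset.sum_congr rfl fun b _ => by ring
    have e6 : ∑ b ∈ G, h r c b *
          (Real.exp (l (insert a (G.erase b)) r - l (insert a (insert c G)) r)
          - Real.exp (l (G.erase b) r - l (insert c G) r))
        = ∑ b ∈ G, h r c b *
            (Real.exp (l (insert a (G.erase b)) r - l (insert a (insert c G)) r) - 1)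
          - ∑ b ∈ G, h r c b * (Real.exp (l (G.erase b) r - l (insert c G) r) - 1) := by
      rw [← Finset.sum_sub_distrib]
      exact Finset.sum_congr rfl fun b _ => by ring
    simp only [hL']
    rw [e1, e1', e2, e2', e5, Finset.sum_insert haC, Finset.sum_insert haG,
      Finset.sum_insert hcG, ← e3, e4, e6]
    ring
  -- interaction on smaller sets
  have hsmall : ∀ G', G'.card < n → G' ⊆ H → ∀ x ∈ H, ∀ y ∈ H, x ∉ G' → y ∉ G' → x ≠ y →
      ∀ r ∈ Icc 0 s, |l G' r + l (insert x (insert y G')) r - l (insert x G') r
        - l (insert y G') r| ≤ D x y r := fun G' hc hG' x hx y hy h1 h2 h3 =>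
    ih _ hc G' rfl hG' x hx y hy h1 h2 h3
  have hb1 : ∀ x ∈ H, x ∉ G → ∀ b ∈ G, ∀ r ∈ Icc 0 s,
      |l (G.erase b) r + l (insert x G) r - l (insert x (G.erase b)) r - l G r| ≤ D x b r := by
    intro x hx hxG b hb r hr
    have hc1 : (G.erase b).card < n := by rw [← hn]; exact Finset.card_erase_lt_of_mem hb
    have i1 := hsmall (G.erase b) hc1 ((Finset.erase_subset _ _).trans hG) x hx b (hG hb)
      (fun hh => hxG (Finset.mem_of_mem_erase hh)) (Finset.notMem_erase _ _)
      (fun e => hxG (e ▸ hb)) r hr
    rwa [Finset.insert_erase hb] at i1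
  have hj : ∀ x ∈ H, x ∉ G → ∀ p ∈ G, ∀ q ∈ G, p ≠ q → ∀ r ∈ Icc 0 s,
      |(l (insert x ((G.erase p).erase q)) r - l (insert x G) r)
        - (l ((G.erase p).erase q) r - l G r)| ≤ D x p r + D x q r := by
    intro x hx hxG p hp q hq hpq r hr
    have hq' : q ∈ G.erase p := Finset.mem_erase.2 ⟨fun e => hpq e.symm, hq⟩
    have hc1 : (G.erase p).card < n := by rw [← hn]; exact Finset.card_erase_lt_of_mem hp
    have hc2 : ((G.erase p).erase q).card < n :=
      (Finset.card_le_card (Finset.erase_subset _ _)).trans_lt hc1
    have i1 := hb1 x hx hxG p hp r hr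
    have i2 := hsmall ((G.erase p).erase q) hc2
      ((Finset.erase_subset _ _).trans ((Finset.erase_subset _ _).trans hG)) x hx q (hG hq)
      (fun hh => hxG (Finset.mem_of_mem_erase (Finset.mem_of_mem_erase hh)))
      (Finset.notMem_erase _ _) (fun e => hxG (e ▸ hq)) r hr
    rw [Finset.insert_erase hq'] at i2
    have : (l (insert x ((G.erase p).erase q)) r - l (insert x G) r)
        - (l ((G.erase p).erase q) r - l G r)
        = -((l (G.erase p) r + l (insert x G) r - l (insert x (G.erase p)) r - l G r)
          + (l ((G.erase p).erase q) r + l (insert x (G.erase p)) r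
            - l (insert x ((G.erase p).erase q)) r - l (G.erase p) r)) := by ring
    rw [this, abs_neg]
    exact (abs_add_le _ _).trans (add_le_add i1 i2)
  have hLg : ∀ p ∈ G, ∀ q : V, ∀ r ∈ Icc 0 s,
      |l ((G.erase p).erase q) r + l (insert a (insert c ((G.erase p).erase q))) r
        - l (insert a ((G.erase p).erase q)) r - l (insert c ((G.erase p).erase q)) r|
        ≤ D a c r := by
    intro p hp q r hr
    have hc2 : ((G.erase p).erase q).card < n := by
      rw [← hn]
      exact (Finset.card_le_card (Finset.erase_subset _ _)).trans_lt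
        (Finset.card_erase_lt_of_mem hp)
    exact hsmall _ hc2 ((Finset.erase_subset _ _).trans ((Finset.erase_subset _ _).trans hG))
      a haH c hcH (fun hh => haG (Finset.mem_of_mem_erase (Finset.mem_of_mem_erase hh)))
      (fun hh => hcG (Finset.mem_of_mem_erase (Finset.mem_of_mem_erase hh))) hac r hr
  have hRb0 : ∀ r ∈ Icc 0 s, ∀ x ∈ H, ∀ y ∈ H, x ≠ y → 0 ≤ Rb x y r := by
    intro r hr x hx y hy hxy
    refine (Real.exp_pos _).le.trans (hRb {x, y} ?_ x (by simp) y (by simp) hxy r hr)
    intro z hz
    rcases Finset.mem_insert.1 hz with rfl | hz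
    · exact hx
    · rw [Finset.mem_singleton.1 hz]; exact hy
  have hexp0 : ∀ r ∈ Icc 0 s, ∀ x ∈ H, ∀ y ∈ H, 0 ≤ Real.exp (D x y r) - 1 := by
    intro r hr x hx y hy
    have := Real.one_le_exp (hD0 x hx y hy r hr)
    linarith
  have hu0 : ∀ r ∈ Icc 0 s, ∀ p ∈ (H.erase a).erase c, ∀ q ∈ (H.erase a).erase c, p ≠ q →
      0 ≤ Rb p q r * (Real.exp (D a p r + D a q r) - 1) * (Real.exp (D c p r + D c q r) - 1) := by
    intro r hr p hp q hq hpq
    have hpH := (hee p hp).1
    have hqH := (hee q hq).1
    have r0 := hRb0 r hr p hpH q hqH hpq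
    have d0 : 0 ≤ Real.exp (D a p r + D a q r) - 1 := by
      have := Real.one_le_exp (add_nonneg (hD0 a haH p hpH r hr) (hD0 a haH q hqH r hr))
      linarith
    have d1 : 0 ≤ Real.exp (D c p r + D c q r) - 1 := by
      have := Real.one_le_exp (add_nonneg (hD0 c hcH p hpH r hr) (hD0 c hcH q hqH r hr))
      linarith
    positivity
  have hRac : ∀ r ∈ Icc 0 s,
      |Real.exp (l G r - l (insert a (insert c G)) r) - 1| ≤ Rm a c r := by
    intro r hr
    have := hRm (insert a (insert c G)) hTH a (Finset.mem_insert_self _ _) c
      (Finset.mem_insert_of_mem (Finset.mem_insert_self _ _)) hac r hr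
    rwa [Finset.erase_insert haC, Finset.erase_insert hcG] at this
  have hEab : ∀ b ∈ G, ∀ r ∈ Icc 0 s,
      Real.exp (l (insert c (G.erase b)) r - l (insert a (insert c G)) r) ≤ Rb a b r := by
    intro b hb r hr
    have hab : a ≠ b := fun e => haG (e ▸ hb)
    have hcb : c ≠ b := fun e => hcG (e ▸ hb)
    have := hRb (insert a (insert c G)) hTH a (Finset.mem_insert_self _ _) b
      (Finset.mem_insert_of_mem (Finset.mem_insert_of_mem hb)) hab r hr
    rwa [Finset.erase_insert haC, Finset.erase_insert_of_ne hcb] at this
  have hEcb : ∀ b ∈ G, ∀ r ∈ Icc 0 s,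
      Real.exp (l (insert a (G.erase b)) r - l (insert a (insert c G)) r) ≤ Rb c b r := by
    intro b hb r hr
    have hab : a ≠ b := fun e => haG (e ▸ hb)
    have hcb : c ≠ b := fun e => hcG (e ▸ hb)
    have := hRb (insert a (insert c G)) hTH c
      (Finset.mem_insert_of_mem (Finset.mem_insert_self _ _)) b
      (Finset.mem_insert_of_mem (Finset.mem_insert_of_mem hb)) hcb r hr
    rwa [Finset.insert_comm, Finset.erase_insert hcC, Finset.erase_insert_of_ne hab,
      Finset.insert_comm] at this
  have hupper : ∀ r ∈ Icc 0 s, L r ≤ D a c r := by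
    refine cmp_le hLd (hDd a haH c hcH) ?_ ?_
    · simp only [hL, hl.end_]
      simpa using hD0 a haH c hcH s ⟨hs0, le_rfl⟩
    · intro r hr hlt
      rw [hform r, le_neg]
      have hD1 := hD0 a haH c hcH r hr
      have hL0 : 0 ≤ L r := by linarith
      have b0 : h r a c * (Real.exp (l G r - l (insert a (insert c G)) r) - 1)
          ≤ h r a c * Rm a c r :=
        mul_le_mul_of_nonneg_left ((le_abs_self _).trans (hRac r hr)) (h0 _ _ _)
      have b1 := lsum_le (g := fun b => h r a b) (fun b => h0 r a b) hGe
        (t := fun b => Real.exp (l (insert c (G.erase b)) r - l (insert a (insert c G)) r)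
          - Real.exp (l (G.erase b) r - l (insert a G) r))
        (u := fun b => Rb a b r * (Real.exp (D c b r) - 1))
        (fun b hb => by
          beta_reduce
          have i1 := hb1 c hcH hcG b hb r hr
          set B := l (insert c (G.erase b)) r - l (insert a (insert c G)) r with hB
          set y := l (G.erase b) r + l (insert c G) r - l (insert c (G.erase b)) r - l G r with hy
          have q1 : l (G.erase b) r - l (insert a G) r = B + (L r + y) := by
            simp only [hB, hy, hL]; ring
          rw [q1, Real.exp_add]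
          have z1 : Real.exp y ≤ Real.exp (L r + y) := Real.exp_le_exp.2 (by linarith)
          have z2 := abs_le.1 (abs_exp_sub_one_le i1)
          have hE := hEab b hb r hr
          have hEp := Real.exp_pos B
          have hx0 := hexp0 r hr c hcH b (hG hb)
          calc Real.exp B - Real.exp B * Real.exp (L r + y)
              = Real.exp B * (1 - Real.exp (L r + y)) := by ring
            _ ≤ Real.exp B * (Real.exp (D c b r) - 1) :=
                mul_le_mul_of_nonneg_left (by linarith [z2.1]) hEp.le
            _ ≤ Rb a b r * (Real.exp (D c b r) - 1) := mul_le_mul_of_nonneg_right hE hx0)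
        (fun b hb => mul_nonneg (hRb0 r hr a haH b (hee b hb).1 (hee b hb).2.1)
          (hexp0 r hr c hcH b (hee b hb).1))
      have b1' := lsum_le (g := fun b => h r c b) (fun b => h0 r c b) hGe
        (t := fun b => Real.exp (l (insert a (G.erase b)) r - l (insert a (insert c G)) r)
          - Real.exp (l (G.erase b) r - l (insert c G) r))
        (u := fun b => Rb c b r * (Real.exp (D a b r) - 1))
        (fun b hb => by
          beta_reduce
          have i1 := hb1 a haH haG b hb r hr
          set B := l (insert a (G.erase b)) r - l (insert a (insert c G)) r with hB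
          set y := l (G.erase b) r + l (insert a G) r - l (insert a (G.erase b)) r - l G r with hy
          have q1 : l (G.erase b) r - l (insert c G) r = B + (L r + y) := by
            simp only [hB, hy, hL]; ring
          rw [q1, Real.exp_add]
          have z1 : Real.exp y ≤ Real.exp (L r + y) := Real.exp_le_exp.2 (by linarith)
          have z2 := abs_le.1 (abs_exp_sub_one_le i1)
          have hE := hEcb b hb r hr
          have hEp := Real.exp_pos B
          have hx0 := hexp0 r hr a haH b (hG hb)
          calc Real.exp B - Real.exp B * Real.exp (L r + y)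
              = Real.exp B * (1 - Real.exp (L r + y)) := by ring
            _ ≤ Real.exp B * (Real.exp (D a b r) - 1) :=
                mul_le_mul_of_nonneg_left (by linarith [z2.1]) hEp.le
            _ ≤ Rb c b r * (Real.exp (D a b r) - 1) := mul_le_mul_of_nonneg_right hE hx0)
        (fun b hb => mul_nonneg (hRb0 r hr c hcH b (hee b hb).1 (hee b hb).2.2)
          (hexp0 r hr a haH b (hee b hb).1))
      have b2 := psum_le (h := h r) (h0 r) (haa r) hGe
        (t := fun p q => Real.exp (l ((G.erase p).erase q) r - l G r)
          + Real.exp (l (insert a (insert c ((G.erase p).erase q))) r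
            - l (insert a (insert c G)) r)
          - Real.exp (l (insert a ((G.erase p).erase q)) r - l (insert a G) r)
          - Real.exp (l (insert c ((G.erase p).erase q)) r - l (insert c G) r))
        (u := fun p q => Rb p q r * (Real.exp (D a p r + D a q r) - 1)
          * (Real.exp (D c p r + D c q r) - 1))
        (fun p hp q hq hpq => by
          beta_reduce
          have hA : Real.exp (l ((G.erase p).erase q) r - l G r) ≤ Rb p q r :=
            hRb G hG p hp q hq hpq r hr
          have hja := hj a haH haG p hp q hq hpq r hr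
          have hjc := hj c hcH hcG p hp q hq hpq r hr
          have ht := (abs_le.1 (hLg p hp q r hr)).2
          set A := l ((G.erase p).erase q) r - l G r with hAdef
          set x := (l (insert a ((G.erase p).erase q)) r - l (insert a G) r) - A with hxdef
          set y := (l (insert c ((G.erase p).erase q)) r - l (insert c G) r) - A with hydef
          set t := (l ((G.erase p).erase q) r + l (insert a (insert c ((G.erase p).erase q))) r
            - l (insert a ((G.erase p).erase q)) r - l (insert c ((G.erase p).erase q)) r) - L r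
            with htdef
          have ht0 : t ≤ 0 := by rw [htdef]; linarith
          have q1 : l (insert a ((G.erase p).erase q)) r - l (insert a G) r = A + x := by
            rw [hxdef]; ring
          have q2 : l (insert c ((G.erase p).erase q)) r - l (insert c G) r = A + y := by
            rw [hydef]; ring
          have q3 : l (insert a (insert c ((G.erase p).erase q))) r
              - l (insert a (insert c G)) r = A + x + y + t := by
            rw [hxdef, hydef, htdef, hAdef]; simp only [hL]; ring
          rw [q1, q2, q3]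
          have z1 : Real.exp (A + x + y + t) ≤ Real.exp (A + x + y) :=
            Real.exp_le_exp.2 (by linarith)
          have z2 : Real.exp A + Real.exp (A + x + y) - Real.exp (A + x) - Real.exp (A + y)
              = Real.exp A * (Real.exp x - 1) * (Real.exp y - 1) := by
            rw [Real.exp_add (A + x), Real.exp_add, Real.exp_add]; ring
          have z3 := abs_le.1 (mul3_le (Real.exp_pos A).le hA
            (abs_exp_sub_one_le hja) (abs_exp_sub_one_le hjc))
          linarith [z3.2])
        (hu0 r hr)
      have b3 := hD a haH c hcH hac r hr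
      linarith
  have hlower : ∀ r ∈ Icc 0 s, -D a c r ≤ L r := by
    refine cmp_ge hLd (K' := fun r => -D' a c r) (fun r hr => (hDd a haH c hcH r hr).neg) ?_ ?_
    · simp only [hL, hl.end_]
      have := hD0 a haH c hcH s ⟨hs0, le_rfl⟩
      simpa using this
    · intro r hr hlt
      rw [hform r]
      have hD1 := hD0 a haH c hcH r hr
      have hL0 : L r ≤ 0 := by linarith
      have b0 : -(h r a c * Rm a c r)
          ≤ h r a c * (Real.exp (l G r - l (insert a (insert c G)) r) - 1) := by
        rw [← mul_neg]
        exact mul_le_mul_of_nonneg_left (abs_le.1 (hRac r hr)).1 (h0 _ _ _)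
      have b1 := lsum_ge (g := fun b => h r a b) (fun b => h0 r a b) hGe
        (t := fun b => Real.exp (l (insert c (G.erase b)) r - l (insert a (insert c G)) r)
          - Real.exp (l (G.erase b) r - l (insert a G) r))
        (u := fun b => Rb a b r * (Real.exp (D c b r) - 1))
        (fun b hb => by
          beta_reduce
          have i1 := hb1 c hcH hcG b hb r hr
          set B := l (insert c (G.erase b)) r - l (insert a (insert c G)) r with hB
          set y := l (G.erase b) r + l (insert c G) r - l (insert c (G.erase b)) r - l G r with hy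
          have q1 : l (G.erase b) r - l (insert a G) r = B + (L r + y) := by
            simp only [hB, hy, hL]; ring
          rw [q1, Real.exp_add]
          have z1 : Real.exp (L r + y) ≤ Real.exp y := Real.exp_le_exp.2 (by linarith)
          have z2 := abs_le.1 (abs_exp_sub_one_le i1)
          have hE := hEab b hb r hr
          have hEp := Real.exp_pos B
          have hx0 := hexp0 r hr c hcH b (hG hb)
          have c1 : Real.exp B * (Real.exp (L r + y) - 1) ≤ Rb a b r * (Real.exp (D c b r) - 1) :=
            (mul_le_mul_of_nonneg_left (by linarith [z2.2]) hEp.le).trans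
              (mul_le_mul_of_nonneg_right hE hx0)
          linarith)
        (fun b hb => mul_nonneg (hRb0 r hr a haH b (hee b hb).1 (hee b hb).2.1)
          (hexp0 r hr c hcH b (hee b hb).1))
      have b1' := lsum_ge (g := fun b => h r c b) (fun b => h0 r c b) hGe
        (t := fun b => Real.exp (l (insert a (G.erase b)) r - l (insert a (insert c G)) r)
          - Real.exp (l (G.erase b) r - l (insert c G) r))
        (u := fun b => Rb c b r * (Real.exp (D a b r) - 1))
        (fun b hb => by
          beta_reduce
          have i1 := hb1 a haH haG b hb r hr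
          set B := l (insert a (G.erase b)) r - l (insert a (insert c G)) r with hB
          set y := l (G.erase b) r + l (insert a G) r - l (insert a (G.erase b)) r - l G r with hy
          have q1 : l (G.erase b) r - l (insert c G) r = B + (L r + y) := by
            simp only [hB, hy, hL]; ring
          rw [q1, Real.exp_add]
          have z1 : Real.exp (L r + y) ≤ Real.exp y := Real.exp_le_exp.2 (by linarith)
          have z2 := abs_le.1 (abs_exp_sub_one_le i1)
          have hE := hEcb b hb r hr
          have hEp := Real.exp_pos B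
          have hx0 := hexp0 r hr a haH b (hG hb)
          have c1 : Real.exp B * (Real.exp (L r + y) - 1) ≤ Rb c b r * (Real.exp (D a b r) - 1) :=
            (mul_le_mul_of_nonneg_left (by linarith [z2.2]) hEp.le).trans
              (mul_le_mul_of_nonneg_right hE hx0)
          linarith)
        (fun b hb => mul_nonneg (hRb0 r hr c hcH b (hee b hb).1 (hee b hb).2.2)
          (hexp0 r hr a haH b (hee b hb).1))
      have b2 := psum_ge (h := h r) (h0 r) (haa r) hGe
        (t := fun p q => Real.exp (l ((G.erase p).erase q) r - l G r)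
          + Real.exp (l (insert a (insert c ((G.erase p).erase q))) r
            - l (insert a (insert c G)) r)
          - Real.exp (l (insert a ((G.erase p).erase q)) r - l (insert a G) r)
          - Real.exp (l (insert c ((G.erase p).erase q)) r - l (insert c G) r))
        (u := fun p q => Rb p q r * (Real.exp (D a p r + D a q r) - 1)
          * (Real.exp (D c p r + D c q r) - 1))
        (fun p hp q hq hpq => by
          beta_reduce
          have hA : Real.exp (l ((G.erase p).erase q) r - l G r) ≤ Rb p q r :=
            hRb G hG p hp q hq hpq r hr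
          have hja := hj a haH haG p hp q hq hpq r hr
          have hjc := hj c hcH hcG p hp q hq hpq r hr
          have ht := (abs_le.1 (hLg p hp q r hr)).1
          set A := l ((G.erase p).erase q) r - l G r with hAdef
          set x := (l (insert a ((G.erase p).erase q)) r - l (insert a G) r) - A with hxdef
          set y := (l (insert c ((G.erase p).erase q)) r - l (insert c G) r) - A with hydef
          set t := (l ((G.erase p).erase q) r + l (insert a (insert c ((G.erase p).erase q))) r
            - l (insert a ((G.erase p).erase q)) r - l (insert c ((G.erase p).erase q)) r) - L r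
            with htdef
          have ht0 : 0 ≤ t := by rw [htdef]; linarith
          have q1 : l (insert a ((G.erase p).erase q)) r - l (insert a G) r = A + x := by
            rw [hxdef]; ring
          have q2 : l (insert c ((G.erase p).erase q)) r - l (insert c G) r = A + y := by
            rw [hydef]; ring
          have q3 : l (insert a (insert c ((G.erase p).erase q))) r
              - l (insert a (insert c G)) r = A + x + y + t := by
            rw [hxdef, hydef, htdef, hAdef]; simp only [hL]; ring
          rw [q1, q2, q3]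
          have z1 : Real.exp (A + x + y) ≤ Real.exp (A + x + y + t) :=
            Real.exp_le_exp.2 (by linarith)
          have z2 : Real.exp A + Real.exp (A + x + y) - Real.exp (A + x) - Real.exp (A + y)
              = Real.exp A * (Real.exp x - 1) * (Real.exp y - 1) := by
            rw [Real.exp_add (A + x), Real.exp_add, Real.exp_add]; ring
          have z3 := abs_le.1 (mul3_le (Real.exp_pos A).le hA
            (abs_exp_sub_one_le hja) (abs_exp_sub_one_le hjc))
          linarith [z3.1])
        (hu0 r hr)
      have b3 := hD a haH c hcH hac r hr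
      linarith
  intro r hr
  exact abs_le.2 ⟨hlower r hr, hupper r hr⟩

end J

section alpha

variable {h : ℝ → V → V → ℝ} {k δ δ' : ℝ → V → ℝ} {s : ℝ} {l lv lz lvz : Finset V → ℝ → ℝ}

/-- upper bound for the interaction of two additional killings -/
theorem alpha_bound (haa : ∀ t a, h t a a = 0) (h0 : ∀ t a b, 0 ≤ h t a b) (hs0 : 0 ≤ s)
    (hl : IsLB h k s l) (hlv : IsLB h (fun t a => k t a + δ t a) s lv)
    (hlz : IsLB h (fun t a => k t a + δ' t a) s lz)
    (hlvz : IsLB h (fun t a => k t a + δ t a + δ' t a) s lvz)
    {H : Finset V} {Rb X Kv Mv Kz Mz : V → V → ℝ → ℝ} {A A' : ℝ → ℝ}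
    (hRb : ∀ T ⊆ H, ∀ p ∈ T, ∀ q ∈ T, p ≠ q → ∀ r ∈ Icc 0 s,
      Real.exp (l ((T.erase p).erase q) r - l T r) ≤ Rb p q r)
    (hv : ∀ T ⊆ H, ∀ p ∈ T, ∀ q ∈ T, p ≠ q → ∀ r ∈ Icc 0 s,
      -Mv p q r ≤ Real.exp ((lv ((T.erase p).erase q) r - lv T r)
        - (l ((T.erase p).erase q) r - l T r)) - 1 ∧
      Real.exp ((lv ((T.erase p).erase q) r - lv T r)
        - (l ((T.erase p).erase q) r - l T r)) - 1 ≤ Kv p q r)
    (hz : ∀ T ⊆ H, ∀ p ∈ T, ∀ q ∈ T, p ≠ q → ∀ r ∈ Icc 0 s,
      -Mz p q r ≤ Real.exp ((lz ((T.erase p).erase q) r - lz T r)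
        - (l ((T.erase p).erase q) r - l T r)) - 1 ∧
      Real.exp ((lz ((T.erase p).erase q) r - lz T r)
        - (l ((T.erase p).erase q) r - l T r)) - 1 ≤ Kz p q r)
    (hX0 : ∀ p ∈ H, ∀ q ∈ H, p ≠ q → ∀ r ∈ Icc 0 s, 0 ≤ X p q r)
    (hX1 : ∀ p ∈ H, ∀ q ∈ H, p ≠ q → ∀ r ∈ Icc 0 s, Kv p q r * Kz p q r ≤ X p q r)
    (hX2 : ∀ p ∈ H, ∀ q ∈ H, p ≠ q → ∀ r ∈ Icc 0 s, Mv p q r * Mz p q r ≤ X p q r)
    (hAd : ∀ r ∈ Icc 0 s, HasDerivAt A (A' r) r) (hA0 : 0 ≤ A s)
    (hA : ∀ r ∈ Icc 0 s, (1 / 2) * ∑ p ∈ H, ∑ q ∈ H, h r p q * (Rb p q r * X p q r) ≤ -A' r) :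
    ∀ G ⊆ H, ∀ r ∈ Icc 0 s, lvz G r + l G r - lv G r - lz G r ≤ A r := by
  intro G
  induction hn : G.card using Nat.strong_induction_on generalizing G with
  | _ n ih =>
  intro hG
  set L : ℝ → ℝ := fun r => lvz G r + l G r - lv G r - lz G r with hL
  set L' : ℝ → ℝ := fun r =>
    (-(elg (h r) (fun S => lvz S r) G - ∑ b ∈ G, (k r b + δ r b + δ' r b)))
    + (-(elg (h r) (fun S => l S r) G - ∑ b ∈ G, k r b))
    - (-(elg (h r) (fun S => lv S r) G - ∑ b ∈ G, (k r b + δ r b)))
    - (-(elg (h r) (fun S => lz S r) G - ∑ b ∈ G, (k r b + δ' r b))) with hL'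
  have hLd : ∀ r ∈ Icc 0 s, HasDerivAt L (L' r) r := fun r hr =>
    (((hlvz.deriv G r hr).add (hl.deriv G r hr)).sub (hlv.deriv G r hr)).sub (hlz.deriv G r hr)
  have hform : ∀ r, L' r = -((1 / 2) * ∑ p ∈ G, ∑ q ∈ G, h r p q *
        (Real.exp (lvz ((G.erase p).erase q) r - lvz G r)
          + Real.exp (l ((G.erase p).erase q) r - l G r)
          - Real.exp (lv ((G.erase p).erase q) r - lv G r)
          - Real.exp (lz ((G.erase p).erase q) r - lz G r))) := by
    intro r
    have e3 := comb4 (h r) (fun S => lvz S r) (fun S => l S r)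
      (fun S => lv S r) (fun S => lz S r) G
    simp only [hL']
    rw [← e3]
    simp only [Finset.sum_add_distrib]
    ring
  refine cmp_le hLd hAd ?_ ?_
  · simp only [hL, hl.end_, hlv.end_, hlz.end_, hlvz.end_]
    simpa using hA0
  · intro r hr hlt
    rw [hform r, le_neg]
    have b2 := psum_le (h := h r) (h0 r) (haa r) hG
      (t := fun p q => Real.exp (lvz ((G.erase p).erase q) r - lvz G r)
          + Real.exp (l ((G.erase p).erase q) r - l G r)
          - Real.exp (lv ((G.erase p).erase q) r - lv G r)
          - Real.exp (lz ((G.erase p).erase q) r - lz G r))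
      (u := fun p q => Rb p q r * X p q r)
      (fun p hp q hq hpq => by
        beta_reduce
        have hAe : Real.exp (l ((G.erase p).erase q) r - l G r) ≤ Rb p q r :=
          hRb G hG p hp q hq hpq r hr
        have hc2 : ((G.erase p).erase q).card < n := by
          rw [← hn]
          exact (Finset.card_le_card (Finset.erase_subset _ _)).trans_lt
            (Finset.card_erase_lt_of_mem hp)
        have ht := ih _ hc2 ((G.erase p).erase q) rfl
          ((Finset.erase_subset _ _).trans ((Finset.erase_subset _ _).trans hG)) r hr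
        have iv := hv G hG p hp q hq hpq r hr
        have iz := hz G hG p hp q hq hpq r hr
        set B := l ((G.erase p).erase q) r - l G r with hB
        set x := (lv ((G.erase p).erase q) r - lv G r) - B with hx
        set y := (lz ((G.erase p).erase q) r - lz G r) - B with hy
        set t := (lvz ((G.erase p).erase q) r + l ((G.erase p).erase q) r
          - lv ((G.erase p).erase q) r - lz ((G.erase p).erase q) r) - L r with htd
        have ht0 : t ≤ 0 := by rw [htd]; linarith
        have q1 : lv ((G.erase p).erase q) r - lv G r = B + x := by rw [hx]; ring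
        have q2 : lz ((G.erase p).erase q) r - lz G r = B + y := by rw [hy]; ring
        have q3 : lvz ((G.erase p).erase q) r - lvz G r = B + x + y + t := by
          rw [hx, hy, htd, hB]; simp only [hL]; ring
        rw [q1, q2, q3]
        have z1 : Real.exp (B + x + y + t) ≤ Real.exp (B + x + y) :=
          Real.exp_le_exp.2 (by linarith)
        have z2 : Real.exp (B + x + y) + Real.exp B - Real.exp (B + x) - Real.exp (B + y)
            = Real.exp B * ((Real.exp x - 1) * (Real.exp y - 1)) := by
          rw [Real.exp_add (B + x), Real.exp_add, Real.exp_add]; ring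
        have x0 := hX0 p (hG hp) q (hG hq) hpq r hr
        have x1 := hX1 p (hG hp) q (hG hq) hpq r hr
        have x2 := hX2 p (hG hp) q (hG hq) hpq r hr
        have z3 : (Real.exp x - 1) * (Real.exp y - 1) ≤ X p q r := by
          rcases le_total 0 (Real.exp x - 1) with hx1 | hx1 <;>
            rcases le_total 0 (Real.exp y - 1) with hy1 | hy1
          · exact (mul_le_mul iv.2 iz.2 hy1 (hx1.trans iv.2)).trans x1
          · exact (mul_nonpos_of_nonneg_of_nonpos hx1 hy1).trans x0
          · exact (mul_nonpos_of_nonpos_of_nonneg hx1 hy1).trans x0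
          · have := mul_le_mul (a := -(Real.exp x - 1)) (b := Mv p q r)
              (c := -(Real.exp y - 1)) (d := Mz p q r) (by linarith [iv.1]) (by linarith [iz.1])
              (by linarith) (by linarith [iv.1])
            nlinarith
        have z4 : Real.exp B * ((Real.exp x - 1) * (Real.exp y - 1)) ≤ Rb p q r * X p q r :=
          (mul_le_mul_of_nonneg_left z3 (Real.exp_pos B).le).trans
            (mul_le_mul_of_nonneg_right hAe x0)
        linarith)
      (fun p hp q hq hpq => by
        refine mul_nonneg ?_ (hX0 p hp q hq hpq r hr)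
        refine (Real.exp_pos _).le.trans (hRb {p, q} ?_ p (by simp) q (by simp) hpq r hr)
        intro x hx
        rcases Finset.mem_insert.1 hx with rfl | hx
        · exact hp
        · rw [Finset.mem_singleton.1 hx]; exact hq)
    have b3 := hA r hr
    linarith

end alpha

end Pool.Agent.RCRSGen
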