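import Pool.Agent.RCRSGen.Asm

/-! Comparison theorems with separate upper and lower bounds for the interactions
(MP_73ccd0_lc, exact 1/2, general graphs). -/

namespace Pool.Agent.RCRSGen

open Set Finset Pool.Agent.RCRSHalf

set_option linter.unusedSectionVars false

variable {V : Type*} [Fintype V] [DecidableEq V]

section J2

variable {h : ℝ → V → V → ℝ} {k : ℝ → V → ℝ} {s : ℝ} {l : Finset V → ℝ → ℝ}

/-- two sided bound for the interaction of the influences of `a` and `c` -/
theorem J_bound2 (hs : ∀ t a b, h t a b = h t b a) (haa : ∀ t a, h t a a = 0)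
    (h0 : ∀ t a b, 0 ≤ h t a b) (hs0 : 0 ≤ s) (hl : IsLB h k s l)
    {H : Finset V} {Rb Rm Rl D D' E E' : V → V → ℝ → ℝ} {Q : V → V → V → ℝ → ℝ}
    (hRb : ∀ T ⊆ H, ∀ p ∈ T, ∀ q ∈ T, p ≠ q → ∀ r ∈ Icc 0 s,
      Real.exp (l ((T.erase p).erase q) r - l T r) ≤ Rb p q r)
    (hRm : ∀ T ⊆ H, ∀ p ∈ T, ∀ q ∈ T, p ≠ q → ∀ r ∈ Icc 0 s,
      Real.exp (l ((T.erase p).erase q) r - l T r) - 1 ≤ Rm p q r)
    (hRl : ∀ T ⊆ H, ∀ p ∈ T, ∀ q ∈ T, p ≠ q → ∀ r ∈ Icc 0 s,
      1 - Real.exp (l ((T.erase p).erase q) r - l T r) ≤ Rl p q r)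
    (hDd : ∀ a ∈ H, ∀ c ∈ H, ∀ r ∈ Icc 0 s, HasDerivAt (D a c) (D' a c r) r)
    (hEd : ∀ a ∈ H, ∀ c ∈ H, ∀ r ∈ Icc 0 s, HasDerivAt (E a c) (E' a c r) r)
    (hD0 : ∀ a ∈ H, ∀ c ∈ H, ∀ r ∈ Icc 0 s, 0 ≤ D a c r)
    (hE0 : ∀ a ∈ H, ∀ c ∈ H, ∀ r ∈ Icc 0 s, 0 ≤ E a c r)
    (hQ1 : ∀ a ∈ H, ∀ p ∈ H, ∀ q ∈ H, a ≠ p → a ≠ q → p ≠ q → ∀ r ∈ Icc 0 s,
      1 - Real.exp (-(D a p r + D a q r)) ≤ Q a p q r)
    (hQ2 : ∀ a ∈ H, ∀ p ∈ H, ∀ q ∈ H, a ≠ p → a ≠ q → p ≠ q → ∀ r ∈ Icc 0 s,
      Real.exp (E a p r + E a q r) - 1 ≤ Q a p q r)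
    (hD : ∀ a ∈ H, ∀ c ∈ H, a ≠ c → ∀ r ∈ Icc 0 s, h r a c * Rm a c r
      + ∑ b ∈ (H.erase a).erase c, h r a b * (Rb a b r * E c b r)
      + ∑ b ∈ (H.erase a).erase c, h r c b * (Rb c b r * E a b r)
      + (1 / 2) * ∑ p ∈ (H.erase a).erase c, ∑ q ∈ (H.erase a).erase c, h r p q *
        (Rb p q r * Q a p q r * Q c p q r) ≤ -D' a c r)
    (hE : ∀ a ∈ H, ∀ c ∈ H, a ≠ c → ∀ r ∈ Icc 0 s, h r a c * Rl a c r
      + ∑ b ∈ (H.erase a).erase c, h r a b * (Rb a b r * (Real.exp (D c b r) - 1))
      + ∑ b ∈ (H.erase a).erase c, h r c b * (Rb c b r * (Real.exp (D a b r) - 1))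
      + (1 / 2) * ∑ p ∈ (H.erase a).erase c, ∑ q ∈ (H.erase a).erase c, h r p q *
        (Rb p q r * Q a p q r * Q c p q r) ≤ -E' a c r) :
    ∀ G ⊆ H, ∀ a ∈ H, ∀ c ∈ H, a ∉ G → c ∉ G → a ≠ c → ∀ r ∈ Icc 0 s,
      -E a c r ≤ l G r + l (insert a (insert c G)) r - l (insert a G) r - l (insert c G) r ∧
      l G r + l (insert a (insert c G)) r - l (insert a G) r - l (insert c G) r ≤ D a c r := by
  intro G
  induction hn : G.card using Nat.strong_induction_on generalizing G with
  | _ n ih =>
  intro hG a haH c hcH haG hcG hac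
  have haC : a ∉ insert c G := by
    rw [Finset.mem_insert]; rintro (e | e)
    · exact hac e
    · exact haG e
  have hcC : c ∉ insert a G := by
    rw [Finset.mem_insert]; rintro (e | e)
    · exact hac e.symm
    · exact hcG e
  have hTH : insert a (insert c G) ⊆ H :=
    Finset.insert_subset haH (Finset.insert_subset hcH hG)
  have hGe : G ⊆ (H.erase a).erase c := fun x hx => Finset.mem_erase.2
    ⟨fun e => hcG (e ▸ hx), Finset.mem_erase.2 ⟨fun e => haG (e ▸ hx), hG hx⟩⟩
  have hee : ∀ x ∈ (H.erase a).erase c, x ∈ H ∧ a ≠ x ∧ c ≠ x := by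
    intro x hx
    obtain ⟨h1, h2⟩ := Finset.mem_erase.1 hx
    obtain ⟨h3, h4⟩ := Finset.mem_erase.1 h2
    exact ⟨h4, fun e => h3 e.symm, fun e => h1 e.symm⟩
  set L : ℝ → ℝ := fun r =>
    l G r + l (insert a (insert c G)) r - l (insert a G) r - l (insert c G) r with hL
  set L' : ℝ → ℝ := fun r =>
    (-(elg (h r) (fun S => l S r) G - ∑ b ∈ G, k r b))
    + (-(elg (h r) (fun S => l S r) (insert a (insert c G)) - ∑ b ∈ insert a (insert c G), k r b))
    - (-(elg (h r) (fun S => l S r) (insert a G) - ∑ b ∈ insert a G, k r b))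
    - (-(elg (h r) (fun S => l S r) (insert c G) - ∑ b ∈ insert c G, k r b)) with hL'
  have hLd : ∀ r ∈ Icc 0 s, HasDerivAt L (L' r) r := fun r hr =>
    (((hl.deriv G r hr).add (hl.deriv (insert a (insert c G)) r hr)).sub
      (hl.deriv (insert a G) r hr)).sub (hl.deriv (insert c G) r hr)
  have hform : ∀ r, L' r = -(h r a c * (Real.exp (l G r - l (insert a (insert c G)) r) - 1)
      + ∑ b ∈ G, h r a b * (Real.exp (l (insert c (G.erase b)) r - l (insert a (insert c G)) r)
        - Real.exp (l (G.erase b) r - l (insert a G) r))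
      + ∑ b ∈ G, h r c b * (Real.exp (l (insert a (G.erase b)) r - l (insert a (insert c G)) r)
        - Real.exp (l (G.erase b) r - l (insert c G) r))
      + (1 / 2) * ∑ p ∈ G, ∑ q ∈ G, h r p q *
        (Real.exp (l ((G.erase p).erase q) r - l G r)
          + Real.exp (l (insert a (insert c ((G.erase p).erase q))) r
            - l (insert a (insert c G)) r)
          - Real.exp (l (insert a ((G.erase p).erase q)) r - l (insert a G) r)
          - Real.exp (l (insert c ((G.erase p).erase q)) r - l (insert c G) r))) := by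
    intro r
    have e1 := elg_insert (h r) (hs r) (haa r) (fun S => l S r) haC
    have e1' := elg_insert (h r) (hs r) (haa r) (fun S => l (insert a S) r) hcG
    have e2 := elg_insert (h r) (hs r) (haa r) (fun S => l S r) haG
    have e2' := elg_insert (h r) (hs r) (haa r) (fun S => l S r) hcG
    have e3 := comb4 (h r) (fun S => l S r) (fun S => l (insert a (insert c S)) r)
      (fun S => l (insert a S) r) (fun S => l (insert c S) r) G
    have e5 : ∑ b ∈ insert c G, h r a b *
        (Real.exp (l ((insert c G).erase b) r - l (insert a (insert c G)) r) - 1)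
        = h r a c * (Real.exp (l G r - l (insert a (insert c G)) r) - 1)
          + ∑ b ∈ G, h r a b *
            (Real.exp (l (insert c (G.erase b)) r - l (insert a (insert c G)) r) - 1) := by
      rw [Finset.sum_insert hcG, Finset.erase_insert hcG]
      congr 1
      refine Finset.sum_congr rfl fun b hb => ?_
      have hcb : c ≠ b := fun e => hcG (e ▸ hb)
      rw [Finset.erase_insert_of_ne hcb]
    have e4 : ∑ b ∈ G, h r a b *
          (Real.exp (l (insert c (G.erase b)) r - l (insert a (insert c G)) r)
          - Real.exp (l (G.erase b) r - l (insert a G) r))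
        = ∑ b ∈ G, h r a b *
            (Real.exp (l (insert c (G.erase b)) r - l (insert a (insert c G)) r) - 1)
          - ∑ b ∈ G, h r a b * (Real.exp (l (G.erase b) r - l (insert a G) r) - 1) := by
      rw [← Finset.sum_sub_distrib]
      exact Finset.sum_congr rfl fun b _ => by ring
    have e6 : ∑ b ∈ G, h r c b *
          (Real.exp (l (insert a (G.erase b)) r - l (insert a (insert c G)) r)
          - Real.exp (l (G.erase b) r - l (insert c G) r))
        = ∑ b ∈ G, h r c b *
            (Real.exp (l (insert a (G.erase b)) r - l (insert a (insert c G)) r) - 1)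
          - ∑ b ∈ G, h r c b * (Real.exp (l (G.erase b) r - l (insert c G) r) - 1) := by
      rw [← Finset.sum_sub_distrib]
      exact Finset.sum_congr rfl fun b _ => by ring
    simp only [hL']
    rw [e1, e1', e2, e2', e5, Finset.sum_insert haC, Finset.sum_insert haG,
      Finset.sum_insert hcG, ← e3, e4, e6]
    ring
  -- interaction on smaller sets
  have hsmall : ∀ G', G'.card < n → G' ⊆ H → ∀ x ∈ H, ∀ y ∈ H, x ∉ G' → y ∉ G' → x ≠ y →
      ∀ r ∈ Icc 0 s, -E x y r ≤ l G' r + l (insert x (insert y G')) r - l (insert x G') r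
        - l (insert y G') r ∧ l G' r + l (insert x (insert y G')) r - l (insert x G') r
        - l (insert y G') r ≤ D x y r := fun G' hc hG' x hx y hy h1 h2 h3 =>
    ih _ hc G' rfl hG' x hx y hy h1 h2 h3
  have hb1 : ∀ x ∈ H, x ∉ G → ∀ b ∈ G, ∀ r ∈ Icc 0 s,
      -E x b r ≤ l (G.erase b) r + l (insert x G) r - l (insert x (G.erase b)) r - l G r ∧
      l (G.erase b) r + l (insert x G) r - l (insert x (G.erase b)) r - l G r ≤ D x b r := by
    intro x hx hxG b hb r hr
    have hc1 : (G.erase b).card < n := by rw [← hn]; exact Finset.card_erase_lt_of_mem hb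
    have i1 := hsmall (G.erase b) hc1 ((Finset.erase_subset _ _).trans hG) x hx b (hG hb)
      (fun hh => hxG (Finset.mem_of_mem_erase hh)) (Finset.notMem_erase _ _)
      (fun e => hxG (e ▸ hb)) r hr
    rwa [Finset.insert_erase hb] at i1
  have hj : ∀ x ∈ H, x ∉ G → ∀ p ∈ G, ∀ q ∈ G, p ≠ q → ∀ r ∈ Icc 0 s,
      |Real.exp ((l (insert x ((G.erase p).erase q)) r - l (insert x G) r)
        - (l ((G.erase p).erase q) r - l G r)) - 1| ≤ Q x p q r := by
    intro x hx hxG p hp q hq hpq r hr
    have hq' : q ∈ G.erase p := Finset.mem_erase.2 ⟨fun e => hpq e.symm, hq⟩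
    have hc1 : (G.erase p).card < n := by rw [← hn]; exact Finset.card_erase_lt_of_mem hp
    have hc2 : ((G.erase p).erase q).card < n :=
      (Finset.card_le_card (Finset.erase_subset _ _)).trans_lt hc1
    have i1 := hb1 x hx hxG p hp r hr
    have i2 := hsmall ((G.erase p).erase q) hc2
      ((Finset.erase_subset _ _).trans ((Finset.erase_subset _ _).trans hG)) x hx q (hG hq)
      (fun hh => hxG (Finset.mem_of_mem_erase (Finset.mem_of_mem_erase hh)))
      (Finset.notMem_erase _ _) (fun e => hxG (e ▸ hq)) r hr
    rw [Finset.insert_erase hq'] at i2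
    have : (l (insert x ((G.erase p).erase q)) r - l (insert x G) r)
        - (l ((G.erase p).erase q) r - l G r)
        = -((l (G.erase p) r + l (insert x G) r - l (insert x (G.erase p)) r - l G r)
          + (l ((G.erase p).erase q) r + l (insert x (G.erase p)) r
            - l (insert x ((G.erase p).erase q)) r - l (G.erase p) r)) := by ring
    rw [this]
    have hxp : x ≠ p := fun e => hxG (e ▸ hp)
    have hxq : x ≠ q := fun e => hxG (e ▸ hq)
    have w1 := hQ1 x hx p (hG hp) q (hG hq) hxp hxq hpq r hr
    have w2 := hQ2 x hx p (hG hp) q (hG hq) hxp hxq hpq r hr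
    set Y := (l (G.erase p) r + l (insert x G) r - l (insert x (G.erase p)) r - l G r)
          + (l ((G.erase p).erase q) r + l (insert x (G.erase p)) r
            - l (insert x ((G.erase p).erase q)) r - l (G.erase p) r)
    have y1 : -(D x p r + D x q r) ≤ -Y := by linarith [i1.2, i2.2]
    have y2 : -Y ≤ E x p r + E x q r := by linarith [i1.1, i2.1]
    have z1 := Real.exp_le_exp.2 y1
    have z2 := Real.exp_le_exp.2 y2
    rw [abs_le]
    constructor <;> linarith
  have hLg : ∀ p ∈ G, ∀ q : V, ∀ r ∈ Icc 0 s,
      -E a c r ≤ l ((G.erase p).erase q) r + l (insert a (insert c ((G.erase p).erase q))) r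
        - l (insert a ((G.erase p).erase q)) r - l (insert c ((G.erase p).erase q)) r ∧
      l ((G.erase p).erase q) r + l (insert a (insert c ((G.erase p).erase q))) r
        - l (insert a ((G.erase p).erase q)) r - l (insert c ((G.erase p).erase q)) r
        ≤ D a c r := by
    intro p hp q r hr
    have hc2 : ((G.erase p).erase q).card < n := by
      rw [← hn]
      exact (Finset.card_le_card (Finset.erase_subset _ _)).trans_lt
        (Finset.card_erase_lt_of_mem hp)
    exact hsmall _ hc2 ((Finset.erase_subset _ _).trans ((Finset.erase_subset _ _).trans hG))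
      a haH c hcH (fun hh => haG (Finset.mem_of_mem_erase (Finset.mem_of_mem_erase hh)))
      (fun hh => hcG (Finset.mem_of_mem_erase (Finset.mem_of_mem_erase hh))) hac r hr
  have hRb0 : ∀ r ∈ Icc 0 s, ∀ x ∈ H, ∀ y ∈ H, x ≠ y → 0 ≤ Rb x y r := by
    intro r hr x hx y hy hxy
    refine (Real.exp_pos _).le.trans (hRb {x, y} ?_ x (by simp) y (by simp) hxy r hr)
    intro z hz
    rcases Finset.mem_insert.1 hz with rfl | hz
    · exact hx
    · rw [Finset.mem_singleton.1 hz]; exact hy
  have hexp0 : ∀ r ∈ Icc 0 s, ∀ x ∈ H, ∀ y ∈ H, 0 ≤ Real.exp (D x y r) - 1 := by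
    intro r hr x hx y hy
    have := Real.one_le_exp (hD0 x hx y hy r hr)
    linarith
  have hu0 : ∀ r ∈ Icc 0 s, ∀ p ∈ (H.erase a).erase c, ∀ q ∈ (H.erase a).erase c, p ≠ q →
      0 ≤ Rb p q r * Q a p q r * Q c p q r := by
    intro r hr p hp q hq hpq
    have hpH := (hee p hp).1
    have hqH := (hee q hq).1
    have r0 := hRb0 r hr p hpH q hqH hpq
    have d0 : 0 ≤ Q a p q r := by
      refine le_trans ?_ (hQ2 a haH p hpH q hqH (hee p hp).2.1 (hee q hq).2.1 hpq r hr)
      have := Real.one_le_exp (add_nonneg (hE0 a haH p hpH r hr) (hE0 a haH q hqH r hr))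
      linarith
    have d1 : 0 ≤ Q c p q r := by
      refine le_trans ?_ (hQ2 c hcH p hpH q hqH (hee p hp).2.2 (hee q hq).2.2 hpq r hr)
      have := Real.one_le_exp (add_nonneg (hE0 c hcH p hpH r hr) (hE0 c hcH q hqH r hr))
      linarith
    positivity
  have hRac : ∀ r ∈ Icc 0 s,
      Real.exp (l G r - l (insert a (insert c G)) r) - 1 ≤ Rm a c r := by
    intro r hr
    have := hRm (insert a (insert c G)) hTH a (Finset.mem_insert_self _ _) c
      (Finset.mem_insert_of_mem (Finset.mem_insert_self _ _)) hac r hr
    rwa [Finset.erase_insert haC, Finset.erase_insert hcG] at this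
  have hRal : ∀ r ∈ Icc 0 s,
      1 - Real.exp (l G r - l (insert a (insert c G)) r) ≤ Rl a c r := by
    intro r hr
    have := hRl (insert a (insert c G)) hTH a (Finset.mem_insert_self _ _) c
      (Finset.mem_insert_of_mem (Finset.mem_insert_self _ _)) hac r hr
    rwa [Finset.erase_insert haC, Finset.erase_insert hcG] at this
  have hEab : ∀ b ∈ G, ∀ r ∈ Icc 0 s,
      Real.exp (l (insert c (G.erase b)) r - l (insert a (insert c G)) r) ≤ Rb a b r := by
    intro b hb r hr
    have hab : a ≠ b := fun e => haG (e ▸ hb)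
    have hcb : c ≠ b := fun e => hcG (e ▸ hb)
    have := hRb (insert a (insert c G)) hTH a (Finset.mem_insert_self _ _) b
      (Finset.mem_insert_of_mem (Finset.mem_insert_of_mem hb)) hab r hr
    rwa [Finset.erase_insert haC, Finset.erase_insert_of_ne hcb] at this
  have hEcb : ∀ b ∈ G, ∀ r ∈ Icc 0 s,
      Real.exp (l (insert a (G.erase b)) r - l (insert a (insert c G)) r) ≤ Rb c b r := by
    intro b hb r hr
    have hab : a ≠ b := fun e => haG (e ▸ hb)
    have hcb : c ≠ b := fun e => hcG (e ▸ hb)
    have := hRb (insert a (insert c G)) hTH c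
      (Finset.mem_insert_of_mem (Finset.mem_insert_self _ _)) b
      (Finset.mem_insert_of_mem (Finset.mem_insert_of_mem hb)) hcb r hr
    rwa [Finset.insert_comm, Finset.erase_insert hcC, Finset.erase_insert_of_ne hab,
      Finset.insert_comm] at this
  have hupper : ∀ r ∈ Icc 0 s, L r ≤ D a c r := by
    refine cmp_le hLd (hDd a haH c hcH) ?_ ?_
    · simp only [hL, hl.end_]
      simpa using hD0 a haH c hcH s ⟨hs0, le_rfl⟩
    · intro r hr hlt
      rw [hform r, le_neg]
      have hD1 := hD0 a haH c hcH r hr
      have hL0 : 0 ≤ L r := by linarith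
      have b0 : h r a c * (Real.exp (l G r - l (insert a (insert c G)) r) - 1)
          ≤ h r a c * Rm a c r :=
        mul_le_mul_of_nonneg_left (hRac r hr) (h0 _ _ _)
      have b1 := lsum_le (g := fun b => h r a b) (fun b => h0 r a b) hGe
        (t := fun b => Real.exp (l (insert c (G.erase b)) r - l (insert a (insert c G)) r)
          - Real.exp (l (G.erase b) r - l (insert a G) r))
        (u := fun b => Rb a b r * E c b r)
        (fun b hb => by
          beta_reduce
          have i1 := hb1 c hcH hcG b hb r hr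
          set B := l (insert c (G.erase b)) r - l (insert a (insert c G)) r with hB
          set y := l (G.erase b) r + l (insert c G) r - l (insert c (G.erase b)) r - l G r with hy
          have q1 : l (G.erase b) r - l (insert a G) r = B + (L r + y) := by
            simp only [hB, hy, hL]; ring
          rw [q1, Real.exp_add]
          have z1 : Real.exp y ≤ Real.exp (L r + y) := Real.exp_le_exp.2 (by linarith)
          have z3 := Real.exp_le_exp.2 i1.1
          have z2 := one_sub_exp_neg_le (y := E c b r)
          have hE' := hEab b hb r hr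
          have hEp := Real.exp_pos B
          have hx0 := hE0 c hcH b (hG hb) r hr
          calc Real.exp B - Real.exp B * Real.exp (L r + y)
              = Real.exp B * (1 - Real.exp (L r + y)) := by ring
            _ ≤ Real.exp B * E c b r :=
                mul_le_mul_of_nonneg_left (by linarith) hEp.le
            _ ≤ Rb a b r * E c b r := mul_le_mul_of_nonneg_right hE' hx0)
        (fun b hb => mul_nonneg (hRb0 r hr a haH b (hee b hb).1 (hee b hb).2.1)
          (hE0 c hcH b (hee b hb).1 r hr))
      have b1' := lsum_le (g := fun b => h r c b) (fun b => h0 r c b) hGe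
        (t := fun b => Real.exp (l (insert a (G.erase b)) r - l (insert a (insert c G)) r)
          - Real.exp (l (G.erase b) r - l (insert c G) r))
        (u := fun b => Rb c b r * E a b r)
        (fun b hb => by
          beta_reduce
          have i1 := hb1 a haH haG b hb r hr
          set B := l (insert a (G.erase b)) r - l (insert a (insert c G)) r with hB
          set y := l (G.erase b) r + l (insert a G) r - l (insert a (G.erase b)) r - l G r with hy
          have q1 : l (G.erase b) r - l (insert c G) r = B + (L r + y) := by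
            simp only [hB, hy, hL]; ring
          rw [q1, Real.exp_add]
          have z1 : Real.exp y ≤ Real.exp (L r + y) := Real.exp_le_exp.2 (by linarith)
          have z3 := Real.exp_le_exp.2 i1.1
          have z2 := one_sub_exp_neg_le (y := E a b r)
          have hE' := hEcb b hb r hr
          have hEp := Real.exp_pos B
          have hx0 := hE0 a haH b (hG hb) r hr
          calc Real.exp B - Real.exp B * Real.exp (L r + y)
              = Real.exp B * (1 - Real.exp (L r + y)) := by ring
            _ ≤ Real.exp B * E a b r :=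
                mul_le_mul_of_nonneg_left (by linarith) hEp.le
            _ ≤ Rb c b r * E a b r := mul_le_mul_of_nonneg_right hE' hx0)
        (fun b hb => mul_nonneg (hRb0 r hr c hcH b (hee b hb).1 (hee b hb).2.2)
          (hE0 a haH b (hee b hb).1 r hr))
      have b2 := psum_le (h := h r) (h0 r) (haa r) hGe
        (t := fun p q => Real.exp (l ((G.erase p).erase q) r - l G r)
          + Real.exp (l (insert a (insert c ((G.erase p).erase q))) r
            - l (insert a (insert c G)) r)
          - Real.exp (l (insert a ((G.erase p).erase q)) r - l (insert a G) r)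
          - Real.exp (l (insert c ((G.erase p).erase q)) r - l (insert c G) r))
        (u := fun p q => Rb p q r * Q a p q r * Q c p q r)
        (fun p hp q hq hpq => by
          beta_reduce
          have hA : Real.exp (l ((G.erase p).erase q) r - l G r) ≤ Rb p q r :=
            hRb G hG p hp q hq hpq r hr
          have hja := hj a haH haG p hp q hq hpq r hr
          have hjc := hj c hcH hcG p hp q hq hpq r hr
          have ht := (hLg p hp q r hr).2
          set A := l ((G.erase p).erase q) r - l G r with hAdef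
          set x := (l (insert a ((G.erase p).erase q)) r - l (insert a G) r) - A with hxdef
          set y := (l (insert c ((G.erase p).erase q)) r - l (insert c G) r) - A with hydef
          set t := (l ((G.erase p).erase q) r + l (insert a (insert c ((G.erase p).erase q))) r
            - l (insert a ((G.erase p).erase q)) r - l (insert c ((G.erase p).erase q)) r) - L r
            with htdef
          have ht0 : t ≤ 0 := by rw [htdef]; linarith
          have q1 : l (insert a ((G.erase p).erase q)) r - l (insert a G) r = A + x := by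
            rw [hxdef]; ring
          have q2 : l (insert c ((G.erase p).erase q)) r - l (insert c G) r = A + y := by
            rw [hydef]; ring
          have q3 : l (insert a (insert c ((G.erase p).erase q))) r
              - l (insert a (insert c G)) r = A + x + y + t := by
            rw [hxdef, hydef, htdef, hAdef]; simp only [hL]; ring
          rw [q1, q2, q3]
          have z1 : Real.exp (A + x + y + t) ≤ Real.exp (A + x + y) :=
            Real.exp_le_exp.2 (by linarith)
          have z2 : Real.exp A + Real.exp (A + x + y) - Real.exp (A + x) - Real.exp (A + y)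
              = Real.exp A * (Real.exp x - 1) * (Real.exp y - 1) := by
            rw [Real.exp_add (A + x), Real.exp_add, Real.exp_add]; ring
          have z3 := abs_le.1 (mul3_le (Real.exp_pos A).le hA hja hjc)
          linarith [z3.2])
        (hu0 r hr)
      have b3 := hD a haH c hcH hac r hr
      linarith
  have hlower : ∀ r ∈ Icc 0 s, -E a c r ≤ L r := by
    refine cmp_ge hLd (K' := fun r => -E' a c r) (fun r hr => (hEd a haH c hcH r hr).neg) ?_ ?_
    · simp only [hL, hl.end_]
      have := hE0 a haH c hcH s ⟨hs0, le_rfl⟩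
      simpa using this
    · intro r hr hlt
      rw [hform r]
      have hD1 := hE0 a haH c hcH r hr
      have hL0 : L r ≤ 0 := by linarith
      have b0 : -(h r a c * Rl a c r)
          ≤ h r a c * (Real.exp (l G r - l (insert a (insert c G)) r) - 1) := by
        rw [← mul_neg]
        exact mul_le_mul_of_nonneg_left (by linarith [hRal r hr]) (h0 _ _ _)
      have b1 := lsum_ge (g := fun b => h r a b) (fun b => h0 r a b) hGe
        (t := fun b => Real.exp (l (insert c (G.erase b)) r - l (insert a (insert c G)) r)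
          - Real.exp (l (G.erase b) r - l (insert a G) r))
        (u := fun b => Rb a b r * (Real.exp (D c b r) - 1))
        (fun b hb => by
          beta_reduce
          have i1 := hb1 c hcH hcG b hb r hr
          set B := l (insert c (G.erase b)) r - l (insert a (insert c G)) r with hB
          set y := l (G.erase b) r + l (insert c G) r - l (insert c (G.erase b)) r - l G r with hy
          have q1 : l (G.erase b) r - l (insert a G) r = B + (L r + y) := by
            simp only [hB, hy, hL]; ring
          rw [q1, Real.exp_add]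
          have z1 : Real.exp (L r + y) ≤ Real.exp y := Real.exp_le_exp.2 (by linarith)
          have z2 := Real.exp_le_exp.2 i1.2
          have hE := hEab b hb r hr
          have hEp := Real.exp_pos B
          have hx0 := hexp0 r hr c hcH b (hG hb)
          have c1 : Real.exp B * (Real.exp (L r + y) - 1) ≤ Rb a b r * (Real.exp (D c b r) - 1) :=
            (mul_le_mul_of_nonneg_left (by linarith) hEp.le).trans
              (mul_le_mul_of_nonneg_right hE hx0)
          linarith)
        (fun b hb => mul_nonneg (hRb0 r hr a haH b (hee b hb).1 (hee b hb).2.1)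
          (hexp0 r hr c hcH b (hee b hb).1))
      have b1' := lsum_ge (g := fun b => h r c b) (fun b => h0 r c b) hGe
        (t := fun b => Real.exp (l (insert a (G.erase b)) r - l (insert a (insert c G)) r)
          - Real.exp (l (G.erase b) r - l (insert c G) r))
        (u := fun b => Rb c b r * (Real.exp (D a b r) - 1))
        (fun b hb => by
          beta_reduce
          have i1 := hb1 a haH haG b hb r hr
          set B := l (insert a (G.erase b)) r - l (insert a (insert c G)) r with hB
          set y := l (G.erase b) r + l (insert a G) r - l (insert a (G.erase b)) r - l G r with hy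
          have q1 : l (G.erase b) r - l (insert c G) r = B + (L r + y) := by
            simp only [hB, hy, hL]; ring
          rw [q1, Real.exp_add]
          have z1 : Real.exp (L r + y) ≤ Real.exp y := Real.exp_le_exp.2 (by linarith)
          have z2 := Real.exp_le_exp.2 i1.2
          have hE := hEcb b hb r hr
          have hEp := Real.exp_pos B
          have hx0 := hexp0 r hr a haH b (hG hb)
          have c1 : Real.exp B * (Real.exp (L r + y) - 1) ≤ Rb c b r * (Real.exp (D a b r) - 1) :=
            (mul_le_mul_of_nonneg_left (by linarith) hEp.le).trans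
              (mul_le_mul_of_nonneg_right hE hx0)
          linarith)
        (fun b hb => mul_nonneg (hRb0 r hr c hcH b (hee b hb).1 (hee b hb).2.2)
          (hexp0 r hr a haH b (hee b hb).1))
      have b2 := psum_ge (h := h r) (h0 r) (haa r) hGe
        (t := fun p q => Real.exp (l ((G.erase p).erase q) r - l G r)
          + Real.exp (l (insert a (insert c ((G.erase p).erase q))) r
            - l (insert a (insert c G)) r)
          - Real.exp (l (insert a ((G.erase p).erase q)) r - l (insert a G) r)
          - Real.exp (l (insert c ((G.erase p).erase q)) r - l (insert c G) r))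
        (u := fun p q => Rb p q r * Q a p q r * Q c p q r)
        (fun p hp q hq hpq => by
          beta_reduce
          have hA : Real.exp (l ((G.erase p).erase q) r - l G r) ≤ Rb p q r :=
            hRb G hG p hp q hq hpq r hr
          have hja := hj a haH haG p hp q hq hpq r hr
          have hjc := hj c hcH hcG p hp q hq hpq r hr
          have ht := (hLg p hp q r hr).1
          set A := l ((G.erase p).erase q) r - l G r with hAdef
          set x := (l (insert a ((G.erase p).erase q)) r - l (insert a G) r) - A with hxdef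
          set y := (l (insert c ((G.erase p).erase q)) r - l (insert c G) r) - A with hydef
          set t := (l ((G.erase p).erase q) r + l (insert a (insert c ((G.erase p).erase q))) r
            - l (insert a ((G.erase p).erase q)) r - l (insert c ((G.erase p).erase q)) r) - L r
            with htdef
          have ht0 : 0 ≤ t := by rw [htdef]; linarith
          have q1 : l (insert a ((G.erase p).erase q)) r - l (insert a G) r = A + x := by
            rw [hxdef]; ring
          have q2 : l (insert c ((G.erase p).erase q)) r - l (insert c G) r = A + y := by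
            rw [hydef]; ring
          have q3 : l (insert a (insert c ((G.erase p).erase q))) r
              - l (insert a (insert c G)) r = A + x + y + t := by
            rw [hxdef, hydef, htdef, hAdef]; simp only [hL]; ring
          rw [q1, q2, q3]
          have z1 : Real.exp (A + x + y) ≤ Real.exp (A + x + y + t) :=
            Real.exp_le_exp.2 (by linarith)
          have z2 : Real.exp A + Real.exp (A + x + y) - Real.exp (A + x) - Real.exp (A + y)
              = Real.exp A * (Real.exp x - 1) * (Real.exp y - 1) := by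
            rw [Real.exp_add (A + x), Real.exp_add, Real.exp_add]; ring
          have z3 := abs_le.1 (mul3_le (Real.exp_pos A).le hA hja hjc)
          linarith [z3.1])
        (hu0 r hr)
      have b3 := hE a haH c hcH hac r hr
      linarith
  intro r hr
  exact ⟨hlower r hr, hupper r hr⟩

end J2

/-- bound for the change of the pair ratios from the interaction bounds -/
theorem Q_of_J {l : Finset V → ℝ → ℝ} {s : ℝ} {H : Finset V} {D E : V → V → ℝ → ℝ}
    {Q : V → V → V → ℝ → ℝ}
    (hQ1 : ∀ a ∈ H, ∀ p ∈ H, ∀ q ∈ H, a ≠ p → a ≠ q → p ≠ q → ∀ r ∈ Icc 0 s,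
      1 - Real.exp (-(D a p r + D a q r)) ≤ Q a p q r)
    (hQ2 : ∀ a ∈ H, ∀ p ∈ H, ∀ q ∈ H, a ≠ p → a ≠ q → p ≠ q → ∀ r ∈ Icc 0 s,
      Real.exp (E a p r + E a q r) - 1 ≤ Q a p q r)
    (hJ : ∀ G ⊆ H, ∀ a ∈ H, ∀ c ∈ H, a ∉ G → c ∉ G → a ≠ c → ∀ r ∈ Icc 0 s,
      -E a c r ≤ l G r + l (insert a (insert c G)) r - l (insert a G) r - l (insert c G) r ∧
      l G r + l (insert a (insert c G)) r - l (insert a G) r - l (insert c G) r ≤ D a c r) :
    ∀ G ⊆ H, ∀ a ∈ H, a ∉ G → ∀ p ∈ G, ∀ q ∈ G, p ≠ q → ∀ r ∈ Icc 0 s,
      |Real.exp ((l (insert a ((G.erase p).erase q)) r - l (insert a G) r)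
        - (l ((G.erase p).erase q) r - l G r)) - 1| ≤ Q a p q r := by
  intro G hG x hx hxG p hp q hq hpq r hr
  have hq' : q ∈ G.erase p := Finset.mem_erase.2 ⟨fun e => hpq e.symm, hq⟩
  have hxp : x ≠ p := fun e => hxG (e ▸ hp)
  have hxq : x ≠ q := fun e => hxG (e ▸ hq)
  have i1 := hJ (G.erase p) ((Finset.erase_subset _ _).trans hG) x hx p (hG hp)
    (fun hh => hxG (Finset.mem_of_mem_erase hh)) (Finset.notMem_erase _ _) hxp r hr
  have i2 := hJ ((G.erase p).erase q)
    ((Finset.erase_subset _ _).trans ((Finset.erase_subset _ _).trans hG)) x hx q (hG hq)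
    (fun hh => hxG (Finset.mem_of_mem_erase (Finset.mem_of_mem_erase hh)))
    (Finset.notMem_erase _ _) hxq r hr
  rw [Finset.insert_erase hp] at i1
  rw [Finset.insert_erase hq'] at i2
  have : (l (insert x ((G.erase p).erase q)) r - l (insert x G) r)
      - (l ((G.erase p).erase q) r - l G r)
      = -((l (G.erase p) r + l (insert x G) r - l (insert x (G.erase p)) r - l G r)
        + (l ((G.erase p).erase q) r + l (insert x (G.erase p)) r
          - l (insert x ((G.erase p).erase q)) r - l (G.erase p) r)) := by ring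
  rw [this]
  have w1 := hQ1 x hx p (hG hp) q (hG hq) hxp hxq hpq r hr
  have w2 := hQ2 x hx p (hG hp) q (hG hq) hxp hxq hpq r hr
  set Y := (l (G.erase p) r + l (insert x G) r - l (insert x (G.erase p)) r - l G r)
        + (l ((G.erase p).erase q) r + l (insert x (G.erase p)) r
          - l (insert x ((G.erase p).erase q)) r - l (G.erase p) r)
  have y1 : -(D x p r + D x q r) ≤ -Y := by linarith [i1.2, i2.2]
  have y2 : -Y ≤ E x p r + E x q r := by linarith [i1.1, i2.1]
  have z1 := Real.exp_le_exp.2 y1
  have z2 := Real.exp_le_exp.2 y2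
  rw [abs_le]
  constructor <;> linarith

section eta2

variable {h : ℝ → V → V → ℝ} {k δ : ℝ → V → ℝ} {s : ℝ} {l l1 : Finset V → ℝ → ℝ}

/-- two sided bounds for the additional influence of `a` when the killing is increased by `δ` -/
theorem eta_bound2 (hs : ∀ t a b, h t a b = h t b a) (haa : ∀ t a, h t a a = 0)
    (h0 : ∀ t a b, 0 ≤ h t a b) (δ0 : ∀ t a, 0 ≤ δ t a) (hs0 : 0 ≤ s)
    (hl : IsLB h k s l) (hl1 : IsLB h (fun t a => k t a + δ t a) s l1)
    {H : Finset V} {Rb X : V → V → ℝ → ℝ} {Q : V → V → V → ℝ → ℝ} {K K' M M' : V → ℝ → ℝ}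
    (hRb : ∀ T ⊆ H, ∀ p ∈ T, ∀ q ∈ T, p ≠ q → ∀ r ∈ Icc 0 s,
      Real.exp (l ((T.erase p).erase q) r - l T r) ≤ Rb p q r)
    (hQ : ∀ G ⊆ H, ∀ a ∈ H, a ∉ G → ∀ p ∈ G, ∀ q ∈ G, p ≠ q → ∀ r ∈ Icc 0 s,
      |Real.exp ((l (insert a ((G.erase p).erase q)) r - l (insert a G) r)
        - (l ((G.erase p).erase q) r - l G r)) - 1| ≤ Q a p q r)
    (hKd : ∀ a ∈ H, ∀ r ∈ Icc 0 s, HasDerivAt (K a) (K' a r) r)
    (hMd : ∀ a ∈ H, ∀ r ∈ Icc 0 s, HasDerivAt (M a) (M' a r) r)
    (hK0 : ∀ a ∈ H, ∀ r ∈ Icc 0 s, 0 ≤ K a r) (hM0 : ∀ a ∈ H, ∀ r ∈ Icc 0 s, 0 ≤ M a r)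
    (hX1 : ∀ p ∈ H, ∀ q ∈ H, p ≠ q → ∀ r ∈ Icc 0 s, Real.exp (K p r + K q r) - 1 ≤ X p q r)
    (hX2 : ∀ p ∈ H, ∀ q ∈ H, p ≠ q → ∀ r ∈ Icc 0 s, 1 - Real.exp (-(M p r + M q r)) ≤ X p q r)
    (hK : ∀ a ∈ H, ∀ r ∈ Icc 0 s, δ r a + ∑ b ∈ H.erase a, h r a b * (Rb a b r * M b r)
      + (1 / 2) * ∑ p ∈ H.erase a, ∑ q ∈ H.erase a, h r p q *
        (Rb p q r * Q a p q r * X p q r) ≤ -K' a r)
    (hM : ∀ a ∈ H, ∀ r ∈ Icc 0 s, ∑ b ∈ H.erase a, h r a b * (Rb a b r * (Real.exp (K b r) - 1))
      + (1 / 2) * ∑ p ∈ H.erase a, ∑ q ∈ H.erase a, h r p q *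
        (Rb p q r * Q a p q r * X p q r) ≤ -M' a r) :
    ∀ G ⊆ H, ∀ a ∈ H, a ∉ G → ∀ r ∈ Icc 0 s,
      -M a r ≤ (l1 G r - l1 (insert a G) r) - (l G r - l (insert a G) r) ∧
      (l1 G r - l1 (insert a G) r) - (l G r - l (insert a G) r) ≤ K a r := by
  intro G
  induction hn : G.card using Nat.strong_induction_on generalizing G with
  | _ n ih =>
  intro hG a haH haG
  have hTH : insert a G ⊆ H := Finset.insert_subset haH hG
  have hGe : G ⊆ H.erase a := fun x hx => Finset.mem_erase.2 ⟨fun e => haG (e ▸ hx), hG hx⟩
  -- the derivative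
  set L : ℝ → ℝ := fun r => (l1 G r - l1 (insert a G) r) - (l G r - l (insert a G) r) with hL
  set L' : ℝ → ℝ := fun r =>
    ((-(elg (h r) (fun S => l1 S r) G - ∑ b ∈ G, (k r b + δ r b)))
      - (-(elg (h r) (fun S => l1 S r) (insert a G) - ∑ b ∈ insert a G, (k r b + δ r b))))
    - ((-(elg (h r) (fun S => l S r) G - ∑ b ∈ G, k r b))
      - (-(elg (h r) (fun S => l S r) (insert a G) - ∑ b ∈ insert a G, k r b))) with hL'
  have hLd : ∀ r ∈ Icc 0 s, HasDerivAt L (L' r) r := fun r hr =>
    ((hl1.deriv G r hr).sub (hl1.deriv (insert a G) r hr)).sub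
      ((hl.deriv G r hr).sub (hl.deriv (insert a G) r hr))
  have hform : ∀ r, L' r = -(δ r a
      + ∑ b ∈ G, h r a b * (Real.exp (l (G.erase b) r - l (insert a G) r)
        - Real.exp (l1 (G.erase b) r - l1 (insert a G) r))
      + (1 / 2) * ∑ p ∈ G, ∑ q ∈ G, h r p q *
        (Real.exp (l1 ((G.erase p).erase q) r - l1 G r)
          + Real.exp (l (insert a ((G.erase p).erase q)) r - l (insert a G) r)
          - Real.exp (l1 (insert a ((G.erase p).erase q)) r - l1 (insert a G) r)
          - Real.exp (l ((G.erase p).erase q) r - l G r))) := by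
    intro r
    have e1 := elg_insert (h r) (hs r) (haa r) (fun S => l1 S r) haG
    have e2 := elg_insert (h r) (hs r) (haa r) (fun S => l S r) haG
    have e3 := comb4 (h r) (fun S => l1 S r) (fun S => l (insert a S) r)
      (fun S => l1 (insert a S) r) (fun S => l S r) G
    have e4 : ∑ b ∈ G, h r a b * (Real.exp (l (G.erase b) r - l (insert a G) r)
        - Real.exp (l1 (G.erase b) r - l1 (insert a G) r))
        = ∑ b ∈ G, h r a b * (Real.exp (l (G.erase b) r - l (insert a G) r) - 1)
          - ∑ b ∈ G, h r a b * (Real.exp (l1 (G.erase b) r - l1 (insert a G) r) - 1) := by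
      rw [← Finset.sum_sub_distrib]
      exact Finset.sum_congr rfl fun b _ => by ring
    simp only [hL']
    rw [e1, e2, Finset.sum_insert haG, Finset.sum_insert haG, ← e3, e4]
    ring
  -- generic term bounds
  have he : ∀ p ∈ G, ∀ q ∈ G, p ≠ q → ∀ r ∈ Icc 0 s,
      |Real.exp ((l1 ((G.erase p).erase q) r - l1 G r) - (l ((G.erase p).erase q) r - l G r)) - 1|
        ≤ X p q r := by
    intro p hp q hq hpq r hr
    have hq' : q ∈ G.erase p := Finset.mem_erase.2 ⟨fun e => hpq e.symm, hq⟩
    have hc1 : (G.erase p).card < n := by rw [← hn]; exact Finset.card_erase_lt_of_mem hp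
    have hc2 : ((G.erase p).erase q).card < n :=
      (Finset.card_le_card (Finset.erase_subset _ _)).trans_lt hc1
    have i1 := ih _ hc1 (G.erase p) rfl ((Finset.erase_subset _ _).trans hG) p (hG hp)
      (Finset.notMem_erase _ _) r hr
    have i2 := ih _ hc2 ((G.erase p).erase q) rfl
      ((Finset.erase_subset _ _).trans ((Finset.erase_subset _ _).trans hG)) q (hG hq)
      (Finset.notMem_erase _ _) r hr
    rw [Finset.insert_erase hp] at i1
    rw [Finset.insert_erase hq'] at i2
    set y := (l1 ((G.erase p).erase q) r - l1 G r) - (l ((G.erase p).erase q) r - l G r) with hy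
    have y1 : y ≤ K p r + K q r := by rw [hy]; linarith [i1.2, i2.2]
    have y2 : -(M p r + M q r) ≤ y := by rw [hy]; linarith [i1.1, i2.1]
    have z1 := Real.exp_le_exp.2 y1
    have z2 := Real.exp_le_exp.2 y2
    have w1 := hX1 p (hG hp) q (hG hq) hpq r hr
    have w2 := hX2 p (hG hp) q (hG hq) hpq r hr
    rw [abs_le]
    constructor <;> linarith
  have hu0 : ∀ r ∈ Icc 0 s, ∀ p ∈ H.erase a, ∀ q ∈ H.erase a, p ≠ q →
      0 ≤ Rb p q r * Q a p q r * X p q r := by
    intro r hr p hp q hq hpq
    have hpH := Finset.mem_of_mem_erase hp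
    have hqH := Finset.mem_of_mem_erase hq
    have hpqH : ({p, q} : Finset V) ⊆ H := by
      intro x hx
      rcases Finset.mem_insert.1 hx with rfl | hx
      · exact hpH
      · rw [Finset.mem_singleton.1 hx]; exact hqH
    have r0 : 0 ≤ Rb p q r :=
      (Real.exp_pos _).le.trans (hRb {p, q} hpqH p (by simp) q (by simp) hpq r hr)
    have x0 : 0 ≤ X p q r := by
      refine le_trans ?_ (hX1 p hpH q hqH hpq r hr)
      have := Real.one_le_exp (add_nonneg (hK0 p hpH r hr) (hK0 q hqH r hr))
      linarith
    have hap : a ≠ p := fun e => Finset.notMem_erase a H (e ▸ hp)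
    have haq : a ≠ q := fun e => Finset.notMem_erase a H (e ▸ hq)
    have d0 : 0 ≤ Q a p q r :=
      (abs_nonneg _).trans (hQ {p, q} hpqH a haH (by simp [hap, haq]) p (by simp) q (by simp)
        hpq r hr)
    positivity
  have hRb0 : ∀ r ∈ Icc 0 s, ∀ b ∈ H.erase a, 0 ≤ Rb a b r := by
    intro r hr b hb
    have hbH := Finset.mem_of_mem_erase hb
    have hab : a ≠ b := fun e => Finset.notMem_erase a H (e ▸ hb)
    refine (Real.exp_pos _).le.trans (hRb {a, b} ?_ a (by simp) b (by simp) hab r hr)
    intro x hx
    rcases Finset.mem_insert.1 hx with rfl | hx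
    · exact haH
    · rw [Finset.mem_singleton.1 hx]; exact hbH
  -- bound of the base ratio for the pair `a b`
  have hEb : ∀ b ∈ G, ∀ r ∈ Icc 0 s, Real.exp (l (G.erase b) r - l (insert a G) r) ≤ Rb a b r := by
    intro b hb r hr
    have hab : a ≠ b := fun e => haG (e ▸ hb)
    have := hRb (insert a G) hTH a (Finset.mem_insert_self _ _) b (Finset.mem_insert_of_mem hb)
      hab r hr
    rwa [Finset.erase_insert haG] at this
  have hηb : ∀ b ∈ G, ∀ r ∈ Icc 0 s,
      -M b r ≤ (l1 (G.erase b) r - l1 G r) - (l (G.erase b) r - l G r) ∧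
      (l1 (G.erase b) r - l1 G r) - (l (G.erase b) r - l G r) ≤ K b r := by
    intro b hb r hr
    have hc1 : (G.erase b).card < n := by rw [← hn]; exact Finset.card_erase_lt_of_mem hb
    have i1 := ih _ hc1 (G.erase b) rfl ((Finset.erase_subset _ _).trans hG) b (hG hb)
      (Finset.notMem_erase _ _) r hr
    rwa [Finset.insert_erase hb] at i1
  have hLg : ∀ p ∈ G, ∀ q : V, ∀ r ∈ Icc 0 s,
      -M a r ≤ (l1 ((G.erase p).erase q) r - l1 (insert a ((G.erase p).erase q)) r)
        - (l ((G.erase p).erase q) r - l (insert a ((G.erase p).erase q)) r) ∧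
      (l1 ((G.erase p).erase q) r - l1 (insert a ((G.erase p).erase q)) r)
        - (l ((G.erase p).erase q) r - l (insert a ((G.erase p).erase q)) r) ≤ K a r := by
    intro p hp q r hr
    have hc2 : ((G.erase p).erase q).card < n := by
      rw [← hn]
      exact (Finset.card_le_card (Finset.erase_subset _ _)).trans_lt
        (Finset.card_erase_lt_of_mem hp)
    exact ih _ hc2 ((G.erase p).erase q) rfl
      ((Finset.erase_subset _ _).trans ((Finset.erase_subset _ _).trans hG)) a haH
      (fun hh => haG (Finset.mem_of_mem_erase (Finset.mem_of_mem_erase hh))) r hr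
  have hupper : ∀ r ∈ Icc 0 s, L r ≤ K a r := by
    refine cmp_le hLd (hKd a haH) ?_ ?_
    · simp only [hL, hl1.end_, hl.end_]
      simpa using hK0 a haH s ⟨hs0, le_rfl⟩
    · intro r hr hlt
      rw [hform r, le_neg, ← sub_nonneg]
      have b1 := lsum_le (g := fun b => h r a b) (fun b => h0 r a b) hGe
        (t := fun b => Real.exp (l (G.erase b) r - l (insert a G) r)
          - Real.exp (l1 (G.erase b) r - l1 (insert a G) r))
        (u := fun b => Rb a b r * M b r)
        (fun b hb => by
          beta_reduce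
          have i1 := (hηb b hb r hr).1
          set B := l (G.erase b) r - l (insert a G) r with hB
          have hB1 : l1 (G.erase b) r - l1 (insert a G) r
              = B + (L r + ((l1 (G.erase b) r - l1 G r) - (l (G.erase b) r - l G r))) := by
            simp only [hB, hL]; ring
          have hKa := hK0 a haH r hr
          have hy : -M b r ≤ L r + ((l1 (G.erase b) r - l1 G r) - (l (G.erase b) r - l G r)) := by
            linarith
          rw [hB1, Real.exp_add]
          have z1 := Real.exp_le_exp.2 hy
          have z2 := one_sub_exp_neg_le (y := M b r)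
          have hM1 := hM0 b (hG hb) r hr
          have hE := hEb b hb r hr
          have hEp := Real.exp_pos B
          calc Real.exp B - Real.exp B * Real.exp (L r +
                ((l1 (G.erase b) r - l1 G r) - (l (G.erase b) r - l G r)))
              = Real.exp B * (1 - Real.exp (L r +
                ((l1 (G.erase b) r - l1 G r) - (l (G.erase b) r - l G r)))) := by ring
            _ ≤ Real.exp B * M b r := mul_le_mul_of_nonneg_left (by linarith) hEp.le
            _ ≤ Rb a b r * M b r := mul_le_mul_of_nonneg_right hE hM1)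
        (fun b hb => mul_nonneg (hRb0 r hr b hb) (hM0 b (Finset.mem_of_mem_erase hb) r hr))
      have b2 := psum_le (h := h r) (h0 r) (haa r) hGe
        (t := fun p q => Real.exp (l1 ((G.erase p).erase q) r - l1 G r)
          + Real.exp (l (insert a ((G.erase p).erase q)) r - l (insert a G) r)
          - Real.exp (l1 (insert a ((G.erase p).erase q)) r - l1 (insert a G) r)
          - Real.exp (l ((G.erase p).erase q) r - l G r))
        (u := fun p q => Rb p q r * Q a p q r * X p q r)
        (fun p hp q hq hpq => by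
          beta_reduce
          have hA : Real.exp (l ((G.erase p).erase q) r - l G r) ≤ Rb p q r :=
            hRb G hG p hp q hq hpq r hr
          have hjj := hQ G hG a haH haG p hp q hq hpq r hr
          have hee := he p hp q hq hpq r hr
          have ht := (hLg p hp q r hr).2
          set A := l ((G.erase p).erase q) r - l G r with hAdef
          set i := (l (insert a ((G.erase p).erase q)) r - l (insert a G) r) - A with hidef
          set j := -i with hjdef
          set e := (l1 ((G.erase p).erase q) r - l1 G r) - A with hedef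
          set t := L r - ((l1 ((G.erase p).erase q) r - l1 (insert a ((G.erase p).erase q)) r)
            - (l ((G.erase p).erase q) r - l (insert a ((G.erase p).erase q)) r)) with htdef
          have ht0 : 0 ≤ t := by rw [htdef]; linarith
          have q1 : l1 ((G.erase p).erase q) r - l1 G r = A + e := by rw [hedef]; ring
          have q2 : l (insert a ((G.erase p).erase q)) r - l (insert a G) r = A + -j := by
            rw [hjdef, hidef]; ring
          have q3 : l1 (insert a ((G.erase p).erase q)) r - l1 (insert a G) r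
              = A + e + -j + t := by
            rw [hedef, hjdef, hidef, htdef, hAdef]; simp only [hL]; ring
          rw [q1, q2, q3]
          have z1 : Real.exp (A + e + -j) ≤ Real.exp (A + e + -j + t) :=
            Real.exp_le_exp.2 (by linarith)
          have z2 : Real.exp (A + e) + Real.exp (A + -j) - Real.exp (A + e + -j) - Real.exp A
              = -(Real.exp A * (Real.exp (-j) - 1) * (Real.exp e - 1)) := by
            rw [Real.exp_add (A + e), Real.exp_add, Real.exp_add]; ring
          have hj1 : |Real.exp (-j) - 1| ≤ Q a p q r := by rw [hjdef, neg_neg]; exact hjj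
          have z3 := abs_le.1 (mul3_le (Real.exp_pos A).le hA hj1 hee)
          linarith [z3.1])
        (hu0 r hr)
      have b3 := hK a haH r hr
      linarith
  have hlower : ∀ r ∈ Icc 0 s, -M a r ≤ L r := by
    refine cmp_ge hLd (K' := fun r => -M' a r) (fun r hr => (hMd a haH r hr).neg) ?_ ?_
    · simp only [hL, hl1.end_, hl.end_]
      have := hM0 a haH s ⟨hs0, le_rfl⟩
      simpa using this
    · intro r hr hlt
      rw [hform r]
      have b1 := lsum_ge (g := fun b => h r a b) (fun b => h0 r a b) hGe
        (t := fun b => Real.exp (l (G.erase b) r - l (insert a G) r)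
          - Real.exp (l1 (G.erase b) r - l1 (insert a G) r))
        (u := fun b => Rb a b r * (Real.exp (K b r) - 1))
        (fun b hb => by
          beta_reduce
          have i1 := (hηb b hb r hr).2
          set B := l (G.erase b) r - l (insert a G) r with hB
          have hB1 : l1 (G.erase b) r - l1 (insert a G) r
              = B + (L r + ((l1 (G.erase b) r - l1 G r) - (l (G.erase b) r - l G r))) := by
            simp only [hB, hL]; ring
          have hMa := hM0 a haH r hr
          have hy : L r + ((l1 (G.erase b) r - l1 G r) - (l (G.erase b) r - l G r)) ≤ K b r := by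
            linarith
          rw [hB1, Real.exp_add]
          have z1 := Real.exp_le_exp.2 hy
          have hK1 := Real.one_le_exp (hK0 b (hG hb) r hr)
          have hE := hEb b hb r hr
          have hEp := Real.exp_pos B
          have c1 : Real.exp B * (Real.exp (L r +
                ((l1 (G.erase b) r - l1 G r) - (l (G.erase b) r - l G r))) - 1)
              ≤ Rb a b r * (Real.exp (K b r) - 1) :=
            (mul_le_mul_of_nonneg_left (by linarith) hEp.le).trans
              (mul_le_mul_of_nonneg_right hE (by linarith))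
          linarith)
        (fun b hb => mul_nonneg (hRb0 r hr b hb)
          (by have := Real.one_le_exp (hK0 b (Finset.mem_of_mem_erase hb) r hr); linarith))
      have b2 := psum_ge (h := h r) (h0 r) (haa r) hGe
        (t := fun p q => Real.exp (l1 ((G.erase p).erase q) r - l1 G r)
          + Real.exp (l (insert a ((G.erase p).erase q)) r - l (insert a G) r)
          - Real.exp (l1 (insert a ((G.erase p).erase q)) r - l1 (insert a G) r)
          - Real.exp (l ((G.erase p).erase q) r - l G r))
        (u := fun p q => Rb p q r * Q a p q r * X p q r)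
        (fun p hp q hq hpq => by
          beta_reduce
          have hA : Real.exp (l ((G.erase p).erase q) r - l G r) ≤ Rb p q r :=
            hRb G hG p hp q hq hpq r hr
          have hjj := hQ G hG a haH haG p hp q hq hpq r hr
          have hee := he p hp q hq hpq r hr
          have ht := (hLg p hp q r hr).1
          set A := l ((G.erase p).erase q) r - l G r with hAdef
          set i := (l (insert a ((G.erase p).erase q)) r - l (insert a G) r) - A with hidef
          set j := -i with hjdef
          set e := (l1 ((G.erase p).erase q) r - l1 G r) - A with hedef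
          set t := L r - ((l1 ((G.erase p).erase q) r - l1 (insert a ((G.erase p).erase q)) r)
            - (l ((G.erase p).erase q) r - l (insert a ((G.erase p).erase q)) r)) with htdef
          have ht0 : t ≤ 0 := by rw [htdef]; linarith
          have q1 : l1 ((G.erase p).erase q) r - l1 G r = A + e := by rw [hedef]; ring
          have q2 : l (insert a ((G.erase p).erase q)) r - l (insert a G) r = A + -j := by
            rw [hjdef, hidef]; ring
          have q3 : l1 (insert a ((G.erase p).erase q)) r - l1 (insert a G) r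
              = A + e + -j + t := by
            rw [hedef, hjdef, hidef, htdef, hAdef]; simp only [hL]; ring
          rw [q1, q2, q3]
          have z1 : Real.exp (A + e + -j + t) ≤ Real.exp (A + e + -j) :=
            Real.exp_le_exp.2 (by linarith)
          have z2 : Real.exp (A + e) + Real.exp (A + -j) - Real.exp (A + e + -j) - Real.exp A
              = -(Real.exp A * (Real.exp (-j) - 1) * (Real.exp e - 1)) := by
            rw [Real.exp_add (A + e), Real.exp_add, Real.exp_add]; ring
          have hj1 : |Real.exp (-j) - 1| ≤ Q a p q r := by rw [hjdef, neg_neg]; exact hjj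
          have z3 := abs_le.1 (mul3_le (Real.exp_pos A).le hA hj1 hee)
          linarith [z3.2])
        (hu0 r hr)
      have b3 := hM a haH r hr
      have b4 := δ0 r a
      linarith
  intro r hr
  exact ⟨hlower r hr, hupper r hr⟩

end eta2

section circ

variable {h : ℝ → V → V → ℝ} {k k' δ : ℝ → V → ℝ} {s : ℝ} {l l' l1 : Finset V → ℝ → ℝ}

/-- the additional influence of `v` when the target is not killed by `v` -/
theorem eta_circ2 (hs : ∀ t a b, h t a b = h t b a) (haa : ∀ t a, h t a a = 0)
    (h0 : ∀ t a b, 0 ≤ h t a b) (δ0 : ∀ t a, 0 ≤ δ t a) (hs0 : 0 ≤ s)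
    (hl : IsLB h k s l) {v : V}
    (hl1 : IsLB h (fun t a => k t a + (if a = v then 0 else δ t a)) s l1)
    {H : Finset V} (hv : v ∈ H) {Rb X : V → V → ℝ → ℝ} {Q : V → V → V → ℝ → ℝ}
    {K K' M M' : V → ℝ → ℝ} {K0 K0' : ℝ → ℝ}
    (hRb : ∀ T ⊆ H, ∀ p ∈ T, ∀ q ∈ T, p ≠ q → ∀ r ∈ Icc 0 s,
      Real.exp (l ((T.erase p).erase q) r - l T r) ≤ Rb p q r)
    (hQ : ∀ G ⊆ H, ∀ a ∈ H, a ∉ G → ∀ p ∈ G, ∀ q ∈ G, p ≠ q → ∀ r ∈ Icc 0 s,
      |Real.exp ((l (insert a ((G.erase p).erase q)) r - l (insert a G) r)
        - (l ((G.erase p).erase q) r - l G r)) - 1| ≤ Q a p q r)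
    (hKd : ∀ a ∈ H, ∀ r ∈ Icc 0 s, HasDerivAt (K a) (K' a r) r)
    (hMd : ∀ a ∈ H, ∀ r ∈ Icc 0 s, HasDerivAt (M a) (M' a r) r)
    (hK0 : ∀ a ∈ H, ∀ r ∈ Icc 0 s, 0 ≤ K a r) (hM0 : ∀ a ∈ H, ∀ r ∈ Icc 0 s, 0 ≤ M a r)
    (hX1 : ∀ p ∈ H, ∀ q ∈ H, p ≠ q → ∀ r ∈ Icc 0 s, Real.exp (K p r + K q r) - 1 ≤ X p q r)
    (hX2 : ∀ p ∈ H, ∀ q ∈ H, p ≠ q → ∀ r ∈ Icc 0 s, 1 - Real.exp (-(M p r + M q r)) ≤ X p q r)
    (hK : ∀ a ∈ H, ∀ r ∈ Icc 0 s, δ r a + ∑ b ∈ H.erase a, h r a b * (Rb a b r * M b r)
      + (1 / 2) * ∑ p ∈ H.erase a, ∑ q ∈ H.erase a, h r p q *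
        (Rb p q r * Q a p q r * X p q r) ≤ -K' a r)
    (hM : ∀ a ∈ H, ∀ r ∈ Icc 0 s, ∑ b ∈ H.erase a, h r a b * (Rb a b r * (Real.exp (K b r) - 1))
      + (1 / 2) * ∑ p ∈ H.erase a, ∑ q ∈ H.erase a, h r p q *
        (Rb p q r * Q a p q r * X p q r) ≤ -M' a r)
    (hK0d : ∀ r ∈ Icc 0 s, HasDerivAt K0 (K0' r) r) (hK00 : ∀ r ∈ Icc 0 s, 0 ≤ K0 r)
    (hK0K : ∀ r ∈ Icc 0 s, K0 r ≤ K v r)
    (hKv : ∀ r ∈ Icc 0 s, ∑ b ∈ H.erase v, h r v b * (Rb v b r * M b r)
      + (1 / 2) * ∑ p ∈ H.erase v, ∑ q ∈ H.erase v, h r p q *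
        (Rb p q r * Q v p q r * X p q r) ≤ -K0' r) :
    (∀ G ⊆ H, v ∉ G → ∀ r ∈ Icc 0 s,
      -M v r ≤ (l1 G r - l1 (insert v G) r) - (l G r - l (insert v G) r) ∧
      (l1 G r - l1 (insert v G) r) - (l G r - l (insert v G) r) ≤ K0 r) ∧
    (∀ G ⊆ H, ∀ a ∈ H, a ∉ G → ∀ r ∈ Icc 0 s,
      -M a r ≤ (l1 G r - l1 (insert a G) r) - (l G r - l (insert a G) r) ∧
      (l1 G r - l1 (insert a G) r) - (l G r - l (insert a G) r) ≤ K a r) := by
  have hle : ∀ a ∈ H, ∀ r ∈ Icc 0 s, (if a = v then K0 r else K a r) ≤ K a r := by
    intro a _ r hr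
    split_ifs with e
    · rw [e]; exact hK0K r hr
    · exact le_rfl
  have hRb0 : ∀ r ∈ Icc 0 s, ∀ x ∈ H, ∀ y ∈ H, x ≠ y → 0 ≤ Rb x y r := by
    intro r hr x hx y hy hxy
    refine (Real.exp_pos _).le.trans (hRb {x, y} ?_ x (by simp) y (by simp) hxy r hr)
    intro z hz
    rcases Finset.mem_insert.1 hz with rfl | hz
    · exact hx
    · rw [Finset.mem_singleton.1 hz]; exact hy
  have main := eta_bound2 (δ := fun t a => if a = v then 0 else δ t a)
    (K := fun a r => if a = v then K0 r else K a r)
    (K' := fun a r => if a = v then K0' r else K' a r) (M := M) (M' := M') (X := X) (Q := Q)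
    (Rb := Rb) (H := H) hs haa h0 (fun t a => by split_ifs <;> [exact le_rfl; exact δ0 t a])
    hs0 hl hl1 hRb hQ
    (fun a ha r hr => by
      by_cases e : a = v
      · simp only [e, if_true]; exact hK0d r hr
      · simp only [if_neg e]; exact hKd a ha r hr)
    hMd
    (fun a ha r hr => by
      split_ifs
      · exact hK00 r hr
      · exact hK0 a ha r hr)
    hM0
    (fun p hp q hq hpq r hr => by
      refine le_trans ?_ (hX1 p hp q hq hpq r hr)
      have := Real.exp_le_exp.2 (add_le_add (hle p hp r hr) (hle q hq r hr))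
      linarith)
    hX2
    (fun a ha r hr => by
      by_cases e : a = v
      · subst e
        simp only [if_true, zero_add]
        exact hKv r hr
      · simp only [if_neg e]; exact hK a ha r hr)
    (fun a ha r hr => by
      refine le_trans (add_le_add (Finset.sum_le_sum fun b hb => ?_) le_rfl) (hM a ha r hr)
      have hbH := Finset.mem_of_mem_erase hb
      have hab : a ≠ b := fun e => Finset.notMem_erase a H (e ▸ hb)
      refine mul_le_mul_of_nonneg_left (mul_le_mul_of_nonneg_left ?_
        (hRb0 r hr a ha b hbH hab)) (h0 _ _ _)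
      have := Real.exp_le_exp.2 (hle b hbH r hr)
      linarith)
  refine ⟨fun G hG hvG r hr => ?_, fun G hG a ha haG r hr => ?_⟩
  · have := main G hG v hv hvG r hr
    simpa using this
  · have i := main G hG a ha haG r hr
    exact ⟨i.1, i.2.trans (hle a ha r hr)⟩

end circ

end Pool.Agent.RCRSGen
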