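import Pool.Agent.RCRSHalf.Walk

/-! Resolvents of substochastic matrices and general weights (MP_73ccd0_lc, exact 1/2, general
graphs). -/

namespace Pool.Agent.RCRSGen

open Finset Matrix Pool.Agent.RCRSHalf Filter Topology

set_option linter.unusedSectionVars false

variable {V : Type*} [Fintype V] [DecidableEq V]

/-- partial sums of the resolvent -/
noncomputable def Rn (θ : ℝ) (B : Matrix V V ℝ) : ℕ → Matrix V V ℝ
  | 0 => 1
  | n + 1 => 1 + θ • (B * Rn θ B n)

/-- the resolvent `∑ θ^j B^j` -/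
noncomputable def res (θ : ℝ) (B : Matrix V V ℝ) : Matrix V V ℝ := fun a b => ⨆ n, Rn θ B n a b

section

variable {θ : ℝ} {B C : Matrix V V ℝ}

theorem Rn_nonneg (hθ : 0 ≤ θ) (hB : MN B) (n : ℕ) : MN (Rn θ B n) := by
  induction n with
  | zero => exact MN.one
  | succ n ih => exact MN.one.add ((hB.mul ih).smul hθ)

theorem Rn_succ_le (hθ : 0 ≤ θ) (hB : MN B) (n : ℕ) : ML (Rn θ B n) (Rn θ B (n + 1)) := by
  induction n with
  | zero =>
    intro a b
    have : 0 ≤ (θ • (B * Rn θ B 0)) a b := ((hB.mul (Rn_nonneg hθ hB 0)).smul hθ) a b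
    simp only [Rn, Matrix.add_apply] at *
    linarith
  | succ n ih =>
    exact (ML.refl _).add (((ML.refl B).mul ih (Rn_nonneg hθ hB n) hB).smul hθ)

theorem Rn_monotone (hθ : 0 ≤ θ) (hB : MN B) (a b : V) : Monotone fun n => Rn θ B n a b :=
  monotone_nat_of_le_succ fun n => Rn_succ_le hθ hB n a b

theorem Rn_exc (hθ : 0 ≤ θ) (hθ1 : θ < 1) (hB : MN B) {z : V → ℝ} (hz : ∀ a, 0 ≤ z a)
    (hBz : ∀ a, (B *ᵥ z) a ≤ z a) (n : ℕ) (a : V) : (Rn θ B n *ᵥ z) a ≤ 1 / (1 - θ) * z a := by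
  have hpos : 0 < 1 - θ := by linarith
  induction n generalizing a with
  | zero =>
    simp only [Rn, Matrix.one_mulVec]
    have : 1 ≤ 1 / (1 - θ) := by rw [le_div_iff₀ hpos]; linarith
    nlinarith [hz a]
  | succ n ih =>
    simp only [Rn, Matrix.add_mulVec, Matrix.one_mulVec, Matrix.smul_mulVec, Pi.add_apply,
      Pi.smul_apply, smul_eq_mul]
    have e1 : ((B * Rn θ B n) *ᵥ z) a ≤ 1 / (1 - θ) * z a := by
      rw [← Matrix.mulVec_mulVec]
      refine (mulVec_mono hB ih a).trans ?_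
      have : (fun b => 1 / (1 - θ) * z b) = (1 / (1 - θ)) • z := rfl
      rw [this, Matrix.mulVec_smul, Pi.smul_apply, smul_eq_mul]
      exact mul_le_mul_of_nonneg_left (hBz a) (by positivity)
    have e2 : z a + θ * (1 / (1 - θ) * z a) = 1 / (1 - θ) * z a := by
      field_simp; ring
    nlinarith [mul_le_mul_of_nonneg_left e1 hθ]

variable (hθ : 0 ≤ θ) (hθ1 : θ < 1) (hB : MN B) (hB1 : ∀ a, (B *ᵥ fun _ => 1) a ≤ 1)

include hθ hθ1 hB hB1

theorem Rn_bdd (a b : V) : BddAbove (Set.range fun n => Rn θ B n a b) := by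
  refine ⟨1 / (1 - θ), ?_⟩
  rintro _ ⟨n, rfl⟩
  have h1 := Rn_exc hθ hθ1 hB (z := fun _ => 1) (fun _ => zero_le_one) hB1 n a
  have h2 : Rn θ B n a b ≤ (Rn θ B n *ᵥ fun _ => 1) a := by
    simp only [Matrix.mulVec, dotProduct, mul_one]
    exact Finset.single_le_sum (f := fun c => Rn θ B n a c) (fun c _ => Rn_nonneg hθ hB n a c)
      (Finset.mem_univ b)
  simpa using h2.trans h1

theorem Rn_tendsto (a b : V) : Tendsto (fun n => Rn θ B n a b) atTop (𝓝 (res θ B a b)) :=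
  tendsto_atTop_ciSup (Rn_monotone hθ hB a b) (Rn_bdd hθ hθ1 hB hB1 a b)

theorem Rn_le_res (n : ℕ) : ML (Rn θ B n) (res θ B) := fun a b =>
  le_ciSup (Rn_bdd hθ hθ1 hB hB1 a b) n

theorem res_nonneg : MN (res θ B) := fun a b =>
  (Rn_nonneg hθ hB 0 a b).trans (Rn_le_res hθ hθ1 hB hB1 0 a b)

theorem one_le_res : ML (1 : Matrix V V ℝ) (res θ B) := Rn_le_res hθ hθ1 hB hB1 0

theorem res_eq : res θ B = 1 + θ • (B * res θ B) := by
  ext a b
  have h1 := (Rn_tendsto hθ hθ1 hB hB1 a b).comp (tendsto_add_atTop_nat 1)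
  have h2 : Tendsto (fun n => (1 + θ • (B * Rn θ B n)) a b) atTop
      (𝓝 ((1 + θ • (B * res θ B)) a b)) := by
    simp only [Matrix.add_apply, Matrix.smul_apply, smul_eq_mul, Matrix.mul_apply]
    refine tendsto_const_nhds.add (Tendsto.const_mul θ (tendsto_finsetSum _ fun c _ => ?_))
    exact (Rn_tendsto hθ hθ1 hB hB1 c b).const_mul (B a c)
  exact tendsto_nhds_unique h1 h2

/-- action on excessive vectors -/
theorem res_exc {z : V → ℝ} (hz : ∀ a, 0 ≤ z a) (hBz : ∀ a, (B *ᵥ z) a ≤ z a) (a : V) :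
    (res θ B *ᵥ z) a ≤ 1 / (1 - θ) * z a := by
  refine le_of_tendsto' (f := fun n => (Rn θ B n *ᵥ z) a) (x := atTop) ?_
    fun n => Rn_exc hθ hθ1 hB hz hBz n a
  simp only [Matrix.mulVec, dotProduct]
  exact tendsto_finsetSum _ fun c _ => (Rn_tendsto hθ hθ1 hB hB1 a c).mul_const (z c)

theorem res_comm (hC : B * C = C * B) : C * res θ B = res θ B * C := by
  have hn : ∀ n, C * Rn θ B n = Rn θ B n * C := by
    intro n
    induction n with
    | zero => simp [Rn]
    | succ n ih =>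
      simp only [Rn, mul_add, add_mul, mul_one, one_mul, Matrix.mul_smul, Matrix.smul_mul]
      congr 2
      rw [← Matrix.mul_assoc, ← hC, Matrix.mul_assoc, ih, Matrix.mul_assoc]
  ext a b
  have h1 : Tendsto (fun n => (C * Rn θ B n) a b) atTop (𝓝 ((C * res θ B) a b)) := by
    simp only [Matrix.mul_apply]
    exact tendsto_finsetSum _ fun c _ => (Rn_tendsto hθ hθ1 hB hB1 c b).const_mul (C a c)
  have h2 : Tendsto (fun n => (Rn θ B n * C) a b) atTop (𝓝 ((res θ B * C) a b)) := by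
    simp only [Matrix.mul_apply]
    exact tendsto_finsetSum _ fun c _ => (Rn_tendsto hθ hθ1 hB hB1 a c).mul_const (C c b)
  simp_rw [hn] at h1
  exact tendsto_nhds_unique h1 h2

theorem res_self_comm : B * res θ B = res θ B * B := res_comm hθ hθ1 hB hB1 rfl

theorem res_symm (hs : Bᵀ = B) : (res θ B)ᵀ = res θ B := by
  have hn : ∀ n, (Rn θ B n)ᵀ = Rn θ B n ∧ B * Rn θ B n = Rn θ B n * B := by
    intro n
    induction n with
    | zero => simp [Rn]
    | succ n ih =>
      constructor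
      · simp only [Rn, Matrix.transpose_add, Matrix.transpose_one, Matrix.transpose_smul,
          Matrix.transpose_mul, ih.1, hs, ih.2]
      · simp only [Rn, mul_add, add_mul, mul_one, one_mul, Matrix.mul_smul, Matrix.smul_mul]
        rw [Matrix.mul_assoc, ih.2]
  ext a b
  rw [Matrix.transpose_apply]
  have h1 := Rn_tendsto hθ hθ1 hB hB1 b a
  have h2 := Rn_tendsto hθ hθ1 hB hB1 a b
  refine tendsto_nhds_unique h1 (h2.congr fun n => ?_)
  have := congrFun (congrFun (hn n).1 b) a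
  rw [Matrix.transpose_apply] at this
  exact this

end

theorem res_mono {θ : ℝ} {B C : Matrix V V ℝ} (hθ : 0 ≤ θ) (hθ1 : θ < 1) (hB : MN B)
    (hC : MN C) (hC1 : ∀ a, (C *ᵥ fun _ => 1) a ≤ 1) (h : ML B C) : ML (res θ B) (res θ C) := by
  have hB1 : ∀ a, (B *ᵥ fun _ => 1) a ≤ 1 := fun a =>
    (mulVec_mono_mat h (fun _ => zero_le_one) a).trans (hC1 a)
  have hn : ∀ n, ML (Rn θ B n) (Rn θ C n) := by
    intro n
    induction n with
    | zero => exact ML.refl _
    | succ n ih => exact (ML.refl _).add ((h.mul ih (Rn_nonneg hθ hB n) hC).smul hθ)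
  intro a b
  exact le_of_tendsto_of_tendsto' (Rn_tendsto hθ hθ1 hB hB1 a b) (Rn_tendsto hθ hθ1 hC hC1 a b)
    fun n => hn n a b

/-- symmetric substochastic weights -/
structure IsGW (x : V → V → ℝ) : Prop where
  symm : ∀ a b, x a b = x b a
  nonneg : ∀ a b, 0 ≤ x a b
  diag : ∀ a, x a a = 0
  row : ∀ a, ∑ b, x a b ≤ 1

/-- restriction of the weights to a set -/
noncomputable def rmx (x : V → V → ℝ) (H : Finset V) : Matrix V V ℝ :=
  fun a b => if a ∈ H ∧ b ∈ H then x a b else 0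

section gw

variable {x : V → V → ℝ}

theorem IsGW.le_one (hx : IsGW x) (a b : V) : x a b ≤ 1 :=
  (Finset.single_le_sum (f := fun b => x a b) (fun c _ => hx.nonneg a c) (Finset.mem_univ b)).trans
    (hx.row a)

theorem IsGW.mem01 (hx : IsGW x) (a b : V) : x a b ∈ Set.Icc (0 : ℝ) 1 :=
  ⟨hx.nonneg a b, hx.le_one a b⟩

theorem IsGW.pair_le (hx : IsGW x) (a b c : V) (hac : a ≠ c) : x b a + x b c ≤ 1 := by
  refine le_trans ?_ (hx.row b)
  rw [← Finset.sum_pair hac (f := fun z => x b z)]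
  exact Finset.sum_le_sum_of_subset_of_nonneg (Finset.subset_univ _) fun z _ _ => hx.nonneg _ _

theorem rmx_nonneg (hx : IsGW x) (H : Finset V) : MN (rmx x H) := fun a b => by
  unfold rmx; split_ifs; exacts [hx.nonneg a b, le_rfl]

theorem rmx_symm (hx : IsGW x) (H : Finset V) : (rmx x H)ᵀ = rmx x H := by
  ext a b
  simp only [Matrix.transpose_apply, rmx]
  rw [hx.symm b a]
  simp only [and_comm]

theorem rmx_mono (hx : IsGW x) {H K : Finset V} (h : H ⊆ K) : ML (rmx x H) (rmx x K) :=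
  fun a b => by
    unfold rmx
    by_cases h1 : a ∈ H ∧ b ∈ H
    · rw [if_pos h1, if_pos ⟨h h1.1, h h1.2⟩]
    · rw [if_neg h1]; split_ifs; exacts [hx.nonneg a b, le_rfl]

theorem rmx_le (hx : IsGW x) (H : Finset V) (a b : V) : rmx x H a b ≤ x a b := by
  unfold rmx; split_ifs; exacts [le_rfl, hx.nonneg a b]

theorem rmx_mulVec (H : Finset V) (y : V → ℝ) {a : V} (ha : a ∈ H) :
    (rmx x H *ᵥ y) a = ∑ b ∈ H, x a b * y b := by
  simp only [Matrix.mulVec, dotProduct, rmx]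
  rw [← Finset.sum_subset (Finset.subset_univ H)]
  · exact Finset.sum_congr rfl fun b hb => by rw [if_pos ⟨ha, hb⟩]
  · intro b _ hb
    rw [if_neg (fun h => hb h.2), zero_mul]

theorem rmx_mulVec_out (H : Finset V) (y : V → ℝ) {a : V} (ha : a ∉ H) :
    (rmx x H *ᵥ y) a = 0 := by
  simp only [Matrix.mulVec, dotProduct, rmx]
  exact Finset.sum_eq_zero fun b _ => by rw [if_neg (fun h => ha h.1), zero_mul]

/-- row sums -/
theorem rmx_one_le (hx : IsGW x) (H : Finset V) (a : V) : (rmx x H *ᵥ fun _ => 1) a ≤ 1 := by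
  simp only [Matrix.mulVec, dotProduct, mul_one]
  exact (Finset.sum_le_sum fun b _ => rmx_le hx H a b).trans (hx.row a)

theorem rmx_one_nonneg (hx : IsGW x) (H : Finset V) (a : V) :
    0 ≤ (rmx x H *ᵥ fun _ => 1) a :=
  mulVec_nonneg (rmx_nonneg hx H) (fun _ => zero_le_one) a

theorem sum_outside_le (hx : IsGW x) (a : V) (H : Finset V) :
    ∑ b ∈ H, x a b ≤ 1 - ∑ b ∈ Hᶜ, x a b := by
  have h1 := Finset.sum_add_sum_compl H (fun b => x a b)
  have h3 := hx.row a
  linarith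

theorem rmx_one_le_sub (hx : IsGW x) {H K : Finset V} (hK : Disjoint H K) (a : V) :
    (rmx x H *ᵥ fun _ => 1) a ≤ 1 - ∑ u ∈ K, x u a := by
  have h0 : ∑ u ∈ K, x u a ≤ 1 := by
    refine le_trans ?_ (hx.row a)
    refine (Finset.sum_le_sum_of_subset_of_nonneg (Finset.subset_univ K)
      fun u _ _ => hx.nonneg u a).trans (le_of_eq ?_)
    exact Finset.sum_congr rfl fun u _ => hx.symm u a
  by_cases ha : a ∈ H
  · rw [rmx_mulVec _ _ ha]
    simp only [mul_one]
    have h1 : ∑ b ∈ H, x a b + ∑ u ∈ K, x a u ≤ 1 := by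
      rw [← Finset.sum_union hK]
      exact (Finset.sum_le_sum_of_subset_of_nonneg (Finset.subset_univ _)
        fun u _ _ => hx.nonneg a u).trans (hx.row a)
    have h2 : ∑ u ∈ K, x u a = ∑ u ∈ K, x a u := Finset.sum_congr rfl fun u _ => hx.symm u a
    linarith
  · rw [rmx_mulVec_out _ _ ha]
    linarith

theorem rmx_exc (hx : IsGW x) (H : Finset V) (a : V) :
    (rmx x H *ᵥ (rmx x H *ᵥ fun _ => 1)) a ≤ (rmx x H *ᵥ fun _ => 1) a :=
  mulVec_mono (rmx_nonneg hx H) (rmx_one_le hx H) a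

end gw

end Pool.Agent.RCRSGen
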