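import Pool.Agent.RCRSGen.Asm
import Pool.Agent.RCRSGen.Res
import Pool.Agent.RCRSHalf.Bounds

/-! Explicit influence bounds for general weights (MP_73ccd0_lc, exact 1/2, general graphs). -/

namespace Pool.Agent.RCRSGen

open Set Finset Matrix Pool.Agent.RCRSHalf

set_option linter.unusedSectionVars false

variable {V : Type*} [Fintype V] [DecidableEq V]

/-- Data common to all applications. -/
structure GHaz (x : V → V → ℝ) (h : ℝ → V → V → ℝ) (M μ : ℝ → ℝ) (s m1 : ℝ) : Prop where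
  hx : IsGW x
  symm : ∀ t a b, h t a b = h t b a
  diag : ∀ t a, h t a a = 0
  nonneg : ∀ t a b, 0 ≤ h t a b
  le : ∀ t ∈ Icc 0 s, ∀ a b, h t a b ≤ μ t * x a b
  Md : ∀ t ∈ Icc 0 s, HasDerivAt M (μ t) t
  μ0 : ∀ t ∈ Icc 0 s, 0 ≤ μ t
  M1 : ∀ t ∈ Icc 0 s, M s - M t ∈ Icc 0 m1
  s0 : 0 ≤ s

section

variable {c κ θ σ m1 s : ℝ} {F : V → ℝ} {x : V → V → ℝ} {h : ℝ → V → V → ℝ} {k : ℝ → V → ℝ}
  {M μ : ℝ → ℝ} {KK : V → ℝ → ℝ} {l : Finset V → ℝ → ℝ}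

theorem GHaz.sum_le (hz : GHaz x h M μ s m1) {H G : Finset V} (hGH : G ⊆ H) {a : V} (ha : a ∈ H)
    {y : V → ℝ} (hy : ∀ b, 0 ≤ y b) {r : ℝ} (hr : r ∈ Icc 0 s) :
    ∑ b ∈ G, h r a b * y b ≤ μ r * (rmx x H *ᵥ y) a := by
  rw [rmx_mulVec _ _ ha, Finset.mul_sum]
  refine le_trans ?_ (Finset.sum_le_sum_of_subset_of_nonneg hGH fun b _ _ =>
    mul_nonneg (hz.μ0 r hr) (mul_nonneg (hz.hx.nonneg _ _) (hy b)))
  refine Finset.sum_le_sum fun b _ => ?_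
  have := mul_le_mul_of_nonneg_right (hz.le r hr a b) (hy b)
  linarith

theorem GHaz.dm (hz : GHaz x h M μ s m1) : ∀ r ∈ Icc 0 s,
    HasDerivAt (fun r => M s - M r) (-μ r) r := fun r hr => by
  simpa using (hz.Md r hr).const_sub (M s)

/-- the resolvent vector -/
noncomputable def Phi (θ : ℝ) (A : Matrix V V ℝ) (F : V → ℝ) : V → ℝ := res θ (A * A) *ᵥ F

/-- lower influence bound -/
noncomputable def NF (c κ θ : ℝ) (A : Matrix V V ℝ) (F : V → ℝ) (m : ℝ) (a : V) : ℝ :=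
  b2 c m * (A *ᵥ F) a + b4 c κ m * (A *ᵥ (A *ᵥ (A *ᵥ Phi θ A F))) a

/-- exponent of the upper influence bound -/
noncomputable def YF (c κ θ : ℝ) (A : Matrix V V ℝ) (F : V → ℝ) (m : ℝ) (a : V) : ℝ :=
  g3 c m * (A *ᵥ (A *ᵥ F)) a + g5 c κ m * (A *ᵥ (A *ᵥ (A *ᵥ (A *ᵥ Phi θ A F)))) a

section vec

variable {A : Matrix V V ℝ} {m : ℝ}

theorem sq_one_le (hA : MN A) (hrow : ∀ a, (A *ᵥ fun _ => 1) a ≤ 1) (a : V) :
    ((A * A) *ᵥ fun _ => 1) a ≤ 1 := by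
  rw [← Matrix.mulVec_mulVec]
  exact (mulVec_mono hA hrow a).trans (hrow a)

theorem Phi_nonneg (hθ : 0 ≤ θ) (hθ1 : θ < 1) (hA : MN A) (hrow : ∀ a, (A *ᵥ fun _ => 1) a ≤ 1)
    (hF : ∀ a, 0 ≤ F a) (a : V) : 0 ≤ Phi θ A F a :=
  mulVec_nonneg (res_nonneg hθ hθ1 (hA.mul hA) (sq_one_le hA hrow)) hF a

theorem Phi_eq (hθ : 0 ≤ θ) (hθ1 : θ < 1) (hA : MN A) (hrow : ∀ a, (A *ᵥ fun _ => 1) a ≤ 1) :
    Phi θ A F = F + θ • (A *ᵥ (A *ᵥ Phi θ A F)) := by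
  unfold Phi
  conv_lhs => rw [res_eq hθ hθ1 (hA.mul hA) (sq_one_le hA hrow)]
  rw [Matrix.add_mulVec, Matrix.one_mulVec, Matrix.smul_mulVec, ← Matrix.mulVec_mulVec,
    ← Matrix.mulVec_mulVec]

theorem const_le (hA : MN A) (hrow : ∀ a, (A *ᵥ fun _ => 1) a ≤ 1) {y : V → ℝ} {s : ℝ}
    (hs : 0 ≤ s) (hy : ∀ a, y a ≤ s) (a : V) : (A *ᵥ y) a ≤ s := by
  refine (mulVec_mono hA hy a).trans ?_
  have hc : (fun _ : V => s) = s • (fun _ => (1 : ℝ)) := by funext a; simp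
  rw [hc, Matrix.mulVec_smul, Pi.smul_apply, smul_eq_mul]
  nlinarith [hrow a]

theorem APhi_le (hθ : 0 ≤ θ) (hθ1 : θ < 1) (hA : MN A) (hrow : ∀ a, (A *ᵥ fun _ => 1) a ≤ 1)
    (hσ0 : 0 ≤ σ) (hσ : ∀ a, (A *ᵥ F) a ≤ σ) (a : V) :
    (A *ᵥ Phi θ A F) a ≤ σ / (1 - θ) := by
  unfold Phi
  have hAA := hA.mul hA
  have h1 := sq_one_le hA hrow
  rw [Matrix.mulVec_mulVec, res_comm hθ hθ1 hAA h1 (C := A) (Matrix.mul_assoc A A A),
    ← Matrix.mulVec_mulVec]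
  refine (mulVec_mono (res_nonneg hθ hθ1 hAA h1) hσ a).trans ?_
  have := res_exc hθ hθ1 hAA h1 (z := fun _ => σ) (fun _ => hσ0)
    (fun a => const_le hAA h1 hσ0 (fun _ => le_rfl) a) a
  refine this.trans (le_of_eq ?_)
  ring

variable (hG : Good c κ θ σ m1) (hA : MN A) (hrow : ∀ a, (A *ᵥ fun _ => 1) a ≤ 1)
  (hF : ∀ a, 0 ≤ F a) (hσ : ∀ a, (A *ᵥ F) a ≤ σ) (hm : m ∈ Icc 0 m1)

include hG hA hrow hF hm in
theorem NF_nonneg (a : V) : 0 ≤ NF c κ θ A F m a := by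
  unfold NF
  exact add_nonneg (mul_nonneg (b2_nonneg hG.c0 hm.1) (mulVec_nonneg hA hF a))
    (mul_nonneg (b4_nonneg hG.c0 hG.κ0 hm.1) (mulVec_nonneg hA (mulVec_nonneg hA
      (mulVec_nonneg hA (Phi_nonneg hG.θ0 hG.θ1 hA hrow hF))) a))

include hG hA hrow hF hm in
theorem YF_nonneg (a : V) : 0 ≤ YF c κ θ A F m a := by
  unfold YF
  exact add_nonneg (mul_nonneg (g3_nonneg hG.c0 hm.1) (mulVec_nonneg hA (mulVec_nonneg hA hF) a))
    (mul_nonneg (g5_nonneg hG.c0 hG.κ0 hm.1) (mulVec_nonneg hA (mulVec_nonneg hA (mulVec_nonneg hA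
      (mulVec_nonneg hA (Phi_nonneg hG.θ0 hG.θ1 hA hrow hF)))) a))

include hG hA hrow hσ hm in
theorem NF_le (a : V) : NF c κ θ A F m a ≤ σ * b2 c m + σ / (1 - θ) * b4 c κ m := by
  have hs : 0 ≤ σ / (1 - θ) := div_nonneg hG.σ0 (by linarith [hG.θ1])
  have h1 := hσ a
  have h2 : (A *ᵥ (A *ᵥ (A *ᵥ Phi θ A F))) a ≤ σ / (1 - θ) :=
    const_le hA hrow hs (const_le hA hrow hs
      (APhi_le hG.θ0 hG.θ1 hA hrow hG.σ0 hσ)) a
  unfold NF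
  have := mul_le_mul_of_nonneg_left h1 (b2_nonneg hG.c0 hm.1)
  have := mul_le_mul_of_nonneg_left h2 (b4_nonneg hG.c0 hG.κ0 hm.1)
  linarith

include hG hA hrow hσ hm in
theorem YF_le (a : V) : YF c κ θ A F m a ≤ σ * g3 c m + σ / (1 - θ) * g5 c κ m := by
  have hs : 0 ≤ σ / (1 - θ) := div_nonneg hG.σ0 (by linarith [hG.θ1])
  have h1 := const_le hA hrow hG.σ0 hσ a
  have h2 : (A *ᵥ (A *ᵥ (A *ᵥ (A *ᵥ Phi θ A F)))) a ≤ σ / (1 - θ) :=
    const_le hA hrow hs (const_le hA hrow hs (const_le hA hrow hs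
      (APhi_le hG.θ0 hG.θ1 hA hrow hG.σ0 hσ))) a
  unfold YF
  have := mul_le_mul_of_nonneg_left h1 (g3_nonneg hG.c0 hm.1)
  have := mul_le_mul_of_nonneg_left h2 (g5_nonneg hG.c0 hG.κ0 hm.1)
  linarith

include hG hA hrow hF hσ hm in
theorem YF_le_Phi (a : V) :
    YF c κ θ A F m a ≤ g3 c m * (A *ᵥ (A *ᵥ Phi θ A F)) a := by
  have h4 : 0 ≤ (A *ᵥ (A *ᵥ (A *ᵥ (A *ᵥ Phi θ A F)))) a :=
    mulVec_nonneg hA (mulVec_nonneg hA (mulVec_nonneg hA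
      (mulVec_nonneg hA (Phi_nonneg hG.θ0 hG.θ1 hA hrow hF)))) a
  have e : (A *ᵥ (A *ᵥ Phi θ A F)) a
      = (A *ᵥ (A *ᵥ F)) a + θ * (A *ᵥ (A *ᵥ (A *ᵥ (A *ᵥ Phi θ A F)))) a := by
    conv_lhs => rw [Phi_eq hG.θ0 hG.θ1 hA hrow]
    rw [Matrix.mulVec_add, Matrix.mulVec_add, Matrix.mulVec_smul, Matrix.mulVec_smul]
    simp [Pi.add_apply, Pi.smul_apply, smul_eq_mul]
  rw [e]
  unfold YF
  have := mul_le_mul_of_nonneg_right (hG.g5le m hm) h4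
  nlinarith

include hG hA hrow hF hσ hm in
/-- upper bound of the one-step influence -/
theorem PF_bound (a : V) {K : ℝ} (hK : Real.exp K ≤ 1 + m * F a) :
    Real.exp (K + YF c κ θ A F m a) - 1
      ≤ al c m * F a + κ * g3 c m * (A *ᵥ (A *ᵥ Phi θ A F)) a := by
  have hY0 := YF_nonneg hG hA hrow hF hm a
  have hYl := YF_le hG hA hrow hσ hm a
  obtain ⟨e1, e2⟩ := hG.ey m hm _ hY0 hYl
  have e3 := YF_le_Phi hG hA hrow hF hσ hm a
  rw [Real.exp_add]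
  have hmF : 0 ≤ m * F a := mul_nonneg hm.1 (hF a)
  have h1 : Real.exp K * Real.exp (YF c κ θ A F m a)
      ≤ (1 + m * F a) * (1 + κ * YF c κ θ A F m a) :=
    mul_le_mul hK e1 (Real.exp_pos _).le (by linarith)
  have h2 : (m * F a) * (κ * YF c κ θ A F m a) ≤ (m * F a) * (c * m ^ 3) :=
    mul_le_mul_of_nonneg_left e2 hmF
  have h3 := mul_le_mul_of_nonneg_left e3 hG.κ0
  unfold al
  nlinarith

end vec

/-- derivative of the exponent -/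
theorem YF_deriv (hz : GHaz x h M μ s m1) (A : Matrix V V ℝ) (a : V) : ∀ r ∈ Icc 0 s,
    HasDerivAt (fun r => YF c κ θ A F (M s - M r) a)
      (-(μ r * (A *ᵥ (NF c κ θ A F (M s - M r))) a)) r := by
  intro r hr
  have hdm := hz.dm
  have d1 := (g3_deriv c (M s - M r)).comp r (hdm r hr)
  have d2 := (g5_deriv c κ (M s - M r)).comp r (hdm r hr)
  have := (d1.mul_const ((A *ᵥ (A *ᵥ F)) a)).add
    (d2.mul_const ((A *ᵥ (A *ᵥ (A *ᵥ (A *ᵥ Phi θ A F)))) a))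
  refine this.congr_deriv ?_
  have e : NF c κ θ A F (M s - M r) = b2 c (M s - M r) • (A *ᵥ F)
      + b4 c κ (M s - M r) • (A *ᵥ (A *ᵥ (A *ᵥ Phi θ A F))) := by
    funext b; simp [NF, Pi.add_apply, Pi.smul_apply, smul_eq_mul]
  rw [e, Matrix.mulVec_add, Matrix.mulVec_smul, Matrix.mulVec_smul]
  simp only [Pi.add_apply, Pi.smul_apply, smul_eq_mul]
  ring

theorem NF_deriv (hz : GHaz x h M μ s m1) (A : Matrix V V ℝ) (a : V) : ∀ r ∈ Icc 0 s,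
    HasDerivAt (fun r => NF c κ θ A F (M s - M r) a)
      (-(μ r * (al c (M s - M r) * (A *ᵥ F) a
          + κ * g3 c (M s - M r) * (A *ᵥ (A *ᵥ (A *ᵥ Phi θ A F))) a))) r := by
  intro r hr
  have hdm := hz.dm
  have d1 := (b2_deriv c (M s - M r)).comp r (hdm r hr)
  have d2 := (b4_deriv c κ (M s - M r)).comp r (hdm r hr)
  have := (d1.mul_const ((A *ᵥ F) a)).add
    (d2.mul_const ((A *ᵥ (A *ᵥ (A *ᵥ Phi θ A F))) a))
  refine this.congr_deriv ?_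
  ring

/-- influence bounds, closed form -/
theorem ginfl (hz : GHaz x h M μ s m1) (hG : Good c κ θ σ m1) {H : Finset V}
    (hF : ∀ a, 0 ≤ F a) (hσ : ∀ a, (rmx x H *ᵥ F) a ≤ σ) (k0 : ∀ t a, 0 ≤ k t a)
    (hKd : ∀ a ∈ H, ∀ r ∈ Icc 0 s, HasDerivAt (KK a) (-k r a) r) (hKs : ∀ a ∈ H, KK a s = 0)
    (hKF : ∀ a ∈ H, ∀ r ∈ Icc 0 s, Real.exp (KK a r) ≤ 1 + (M s - M r) * F a)
    (hl : IsLB h k s l) :
    ∀ G ⊆ H, ∀ a ∈ H, a ∉ G → ∀ r ∈ Icc 0 s,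
      -NF c κ θ (rmx x H) F (M s - M r) a ≤ l G r - l (insert a G) r ∧
      l G r - l (insert a G) r ≤ KK a r + YF c κ θ (rmx x H) F (M s - M r) a := by
  set A := rmx x H with hAdef
  have hA : MN A := rmx_nonneg hz.hx H
  have hrow : ∀ a, (A *ᵥ fun _ => 1) a ≤ 1 := rmx_one_le hz.hx H
  have hmr : ∀ r ∈ Icc 0 s, M s - M r ∈ Icc 0 m1 := fun r hr => hz.M1 r hr
  have hK0 : ∀ a ∈ H, ∀ r ∈ Icc 0 s, 0 ≤ KK a r := by
    intro a ha r hr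
    refine nonneg_of_backward (U := KK a) (U' := fun r => -k r a) (a := 0) (s := s)
      (hKd a ha) (by rw [hKs a ha]) (fun r _ _ => by linarith [k0 r a]) r hr
  refine infl_log (P := fun a r => KK a r + YF c κ θ A F (M s - M r) a)
    (N := fun a r => NF c κ θ A F (M s - M r) a) hz.symm hz.diag hz.nonneg k0 hz.s0 hl
    (fun a ha r hr => (hKd a ha r hr).add (YF_deriv hz A a r hr))
    (fun a _ r hr => NF_deriv hz A a r hr)
    (fun a ha r hr => add_nonneg (hK0 a ha r hr) (YF_nonneg hG hA hrow hF (hmr r hr) a))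
    (fun a _ r hr => NF_nonneg hG hA hrow hF (hmr r hr) a)
    (fun a ha r hr => ?_) (fun a ha r hr => ?_)
  · have h1 := hz.sum_le (Finset.erase_subset a H) ha (y := NF c κ θ A F (M s - M r))
      (fun b => NF_nonneg hG hA hrow hF (hmr r hr) b) hr
    rw [← hAdef] at h1
    linarith
  · have hb : ∀ b ∈ H.erase a, Real.exp (KK b r + YF c κ θ A F (M s - M r) b) - 1
        ≤ al c (M s - M r) * F b + κ * g3 c (M s - M r) * (A *ᵥ (A *ᵥ Phi θ A F)) b :=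
      fun b hb => PF_bound hG hA hrow hF hσ (hmr r hr) b (hKF b (Finset.mem_of_mem_erase hb) r hr)
    have hy0 : ∀ b, 0 ≤ al c (M s - M r) * F b
        + κ * g3 c (M s - M r) * (A *ᵥ (A *ᵥ Phi θ A F)) b := fun b =>
      add_nonneg (mul_nonneg (al_nonneg hG.c0 (hmr r hr).1) (hF b))
        (mul_nonneg (mul_nonneg hG.κ0 (g3_nonneg hG.c0 (hmr r hr).1))
          (mulVec_nonneg hA (mulVec_nonneg hA (Phi_nonneg hG.θ0 hG.θ1 hA hrow hF)) b))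
    have h1 : ∑ b ∈ H.erase a, h r a b * (Real.exp (KK b r + YF c κ θ A F (M s - M r) b) - 1)
        ≤ ∑ b ∈ H.erase a, h r a b * (al c (M s - M r) * F b
          + κ * g3 c (M s - M r) * (A *ᵥ (A *ᵥ Phi θ A F)) b) :=
      Finset.sum_le_sum fun b hb' => mul_le_mul_of_nonneg_left (hb b hb') (hz.nonneg _ _ _)
    have h2 := hz.sum_le (Finset.erase_subset a H) ha hy0 hr
    have e : (rmx x H *ᵥ fun b => al c (M s - M r) * F b
          + κ * g3 c (M s - M r) * (A *ᵥ (A *ᵥ Phi θ A F)) b) a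
        = al c (M s - M r) * (A *ᵥ F) a
          + κ * g3 c (M s - M r) * (A *ᵥ (A *ᵥ (A *ᵥ Phi θ A F))) a := by
      have : (fun b => al c (M s - M r) * F b
          + κ * g3 c (M s - M r) * (A *ᵥ (A *ᵥ Phi θ A F)) b)
          = al c (M s - M r) • F + (κ * g3 c (M s - M r)) • (A *ᵥ (A *ᵥ Phi θ A F)) := by
        funext b; simp [Pi.add_apply, Pi.smul_apply, smul_eq_mul]
      rw [this, ← hAdef, Matrix.mulVec_add, Matrix.mulVec_smul, Matrix.mulVec_smul]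
      simp [Pi.add_apply, Pi.smul_apply, smul_eq_mul]
    rw [e] at h2
    linarith

end

end Pool.Agent.RCRSGen
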