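import Pool.Agent.RCRSHalf.Infl

/-! Logarithmic backward functions (MP_73ccd0_lc, exact 1/2, general graphs). -/

namespace Pool.Agent.RCRSGen

open Set Finset Pool.Agent.RCRSHalf

set_option linter.unusedSectionVars false

variable {V : Type*} [Fintype V] [DecidableEq V]

/-- logarithmic generator -/
noncomputable def elg (h : V → V → ℝ) (l : Finset V → ℝ) (F : Finset V) : ℝ :=
  (1 / 2) * ∑ a ∈ F, ∑ b ∈ F, h a b * (Real.exp (l ((F.erase a).erase b) - l F) - 1)

/-- `l` is the logarithm of the backward function with horizon `s`, hazards `h`, killing `k`. -/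
structure IsLB (h : ℝ → V → V → ℝ) (k : ℝ → V → ℝ) (s : ℝ) (l : Finset V → ℝ → ℝ) : Prop where
  end_ : ∀ F, l F s = 0
  deriv : ∀ F, ∀ r ∈ Icc 0 s, HasDerivAt (l F)
    (-(elg (h r) (fun G => l G r) F - ∑ a ∈ F, k r a)) r

theorem elg_insert (h : V → V → ℝ) (hs : ∀ a b, h a b = h b a) (haa : ∀ a, h a a = 0)
    (l : Finset V → ℝ) {a : V} {G : Finset V} (ha : a ∉ G) :
    elg h l (insert a G) = elg h (fun S => l (insert a S)) G
      + ∑ b ∈ G, h a b * (Real.exp (l (G.erase b) - l (insert a G)) - 1) := by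
  unfold elg
  have e1 : ∀ b ∈ G, ∀ c ∈ G, ((insert a G).erase b).erase c = insert a ((G.erase b).erase c) := by
    intro b hb c hc
    have hab : a ≠ b := fun e => ha (e ▸ hb)
    have hac : a ≠ c := fun e => ha (e ▸ hc)
    rw [Finset.erase_insert_of_ne hab, Finset.erase_insert_of_ne hac]
  have e2 : ∀ b ∈ G, ((insert a G).erase a).erase b = G.erase b := by
    intro b _
    rw [Finset.erase_insert ha]
  have e3 : ∀ b ∈ G, ((insert a G).erase b).erase a = G.erase b := by
    intro b hb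
    rw [Finset.erase_right_comm, Finset.erase_insert ha]
  rw [Finset.sum_insert ha, Finset.sum_insert ha, haa a]
  have s1 : ∑ b ∈ G, h a b * (Real.exp (l (((insert a G).erase a).erase b) - l (insert a G)) - 1)
      = ∑ b ∈ G, h a b * (Real.exp (l (G.erase b) - l (insert a G)) - 1) :=
    Finset.sum_congr rfl fun b hb => by rw [e2 b hb]
  have s2 : ∑ b ∈ G, ∑ c ∈ insert a G,
        h b c * (Real.exp (l (((insert a G).erase b).erase c) - l (insert a G)) - 1)
      = ∑ b ∈ G, h a b * (Real.exp (l (G.erase b) - l (insert a G)) - 1)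
        + ∑ b ∈ G, ∑ c ∈ G,
          h b c * (Real.exp (l (insert a ((G.erase b).erase c)) - l (insert a G)) - 1) := by
    rw [← Finset.sum_add_distrib]
    refine Finset.sum_congr rfl fun b hb => ?_
    rw [Finset.sum_insert ha, e3 b hb, hs b a]
    congr 1
    exact Finset.sum_congr rfl fun c hc => by rw [e1 b hb c hc]
  rw [s1, s2]
  ring

/-- comparison principle -/
theorem cmp_le {s : ℝ} {L L' K K' : ℝ → ℝ} (hL : ∀ r ∈ Icc 0 s, HasDerivAt L (L' r) r)
    (hK : ∀ r ∈ Icc 0 s, HasDerivAt K (K' r) r) (hend : L s ≤ K s)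
    (hstep : ∀ r ∈ Icc 0 s, K r < L r → K' r ≤ L' r) : ∀ r ∈ Icc 0 s, L r ≤ K r := by
  intro r hr
  have := nonneg_of_backward (U := fun r => K r - L r) (U' := fun r => K' r - L' r) (a := 0)
    (s := s) (fun r hr => (hK r hr).sub (hL r hr)) (by linarith)
    (fun r hr hlt => by linarith [hstep r hr (by linarith)]) r hr
  linarith

theorem cmp_ge {s : ℝ} {L L' K K' : ℝ → ℝ} (hL : ∀ r ∈ Icc 0 s, HasDerivAt L (L' r) r)
    (hK : ∀ r ∈ Icc 0 s, HasDerivAt K (K' r) r) (hend : K s ≤ L s)
    (hstep : ∀ r ∈ Icc 0 s, L r < K r → L' r ≤ K' r) : ∀ r ∈ Icc 0 s, K r ≤ L r := by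
  intro r hr
  have := nonneg_of_backward (U := fun r => L r - K r) (U' := fun r => L' r - K' r) (a := 0)
    (s := s) (fun r hr => (hL r hr).sub (hK r hr)) (by linarith)
    (fun r hr hlt => by linarith [hstep r hr (by linarith)]) r hr
  linarith

section pos

variable {h : ℝ → V → V → ℝ} {k : ℝ → V → ℝ} {s : ℝ} {R : Finset V → ℝ → ℝ}

theorem back_pos (h0 : ∀ t a b, 0 ≤ h t a b) {C : ℝ} (hb : ∀ t a b, h t a b ≤ C)
    (kb : ∀ t a, k t a ≤ C) (hR : IsBack h k s R) (F : Finset V) :
    ∀ r ∈ Icc 0 s, 0 < R F r := by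
  set c : ℝ := (1 / 2) * ∑ _a : V, ∑ _b : V, |C| + ∑ _a : V, |C| with hc
  have hc0 : 0 ≤ c := by positivity
  have hCC : C ≤ |C| := le_abs_self C
  have key := nonneg_of_backward (U := fun r => R F r - Real.exp (-(c * (s - r))))
    (U' := fun r => (-(gen (h r) (fun G => R G r) F - (∑ a ∈ F, k r a) * R F r))
      - Real.exp (-(c * (s - r))) * c) (a := 0) (s := s)
    (fun r hr => by
      have d1 : HasDerivAt (fun r : ℝ => -(c * (s - r))) c r := by
        have h1 := (((hasDerivAt_id r).const_sub s).const_mul c).neg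
        exact h1.congr_deriv (by ring)
      exact (hR.deriv F r hr).sub d1.exp)
    (by simp [hR.end_]) ?_
  · intro r hr
    have := key r hr
    have := Real.exp_pos (-(c * (s - r)))
    linarith
  · intro r hr hU
    have hR0 := hR.nonneg F r hr
    have g1 : -((1 / 2) * ∑ a ∈ F, ∑ b ∈ F, h r a b) * R F r ≤ gen (h r) (fun G => R G r) F := by
      unfold gen
      have : -((1 / 2) * ∑ a ∈ F, ∑ b ∈ F, h r a b) * R F r
          = (1 / 2) * ∑ a ∈ F, ∑ b ∈ F, h r a b * (0 - R F r) := by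
        simp_rw [← Finset.sum_mul]; ring
      rw [this]
      refine mul_le_mul_of_nonneg_left (Finset.sum_le_sum fun a _ => Finset.sum_le_sum fun b _ => ?_)
        (by norm_num)
      exact mul_le_mul_of_nonneg_left (by linarith [hR.nonneg ((F.erase a).erase b) r hr]) (h0 _ _ _)
    have g2 : (1 / 2) * ∑ a ∈ F, ∑ b ∈ F, h r a b ≤ (1 / 2) * ∑ _a : V, ∑ _b : V, |C| := by
      refine mul_le_mul_of_nonneg_left ?_ (by norm_num)
      refine (Finset.sum_le_sum fun a _ => (Finset.sum_le_sum fun b _ => (hb r a b).trans hCC)).trans ?_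
      refine (Finset.sum_le_sum fun a _ => Finset.sum_le_sum_of_subset_of_nonneg
        (Finset.subset_univ F) fun _ _ _ => abs_nonneg C).trans ?_
      exact Finset.sum_le_sum_of_subset_of_nonneg (Finset.subset_univ F)
        fun _ _ _ => Finset.sum_nonneg fun _ _ => abs_nonneg C
    have g3 : ∑ a ∈ F, k r a ≤ ∑ _a : V, |C| :=
      (Finset.sum_le_sum fun a _ => (kb r a).trans hCC).trans
        (Finset.sum_le_sum_of_subset_of_nonneg (Finset.subset_univ F) fun _ _ _ => abs_nonneg C)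
    have g4 : ((1 / 2) * ∑ a ∈ F, ∑ b ∈ F, h r a b + ∑ a ∈ F, k r a) * R F r ≤ c * R F r :=
      mul_le_mul_of_nonneg_right (by rw [hc]; linarith) hR0
    have g5 : c * R F r ≤ c * Real.exp (-(c * (s - r))) :=
      mul_le_mul_of_nonneg_left (by linarith) hc0
    nlinarith

theorem gen_div (h : V → V → ℝ) (φ : Finset V → ℝ) (hφ : ∀ G, 0 < φ G) (F : Finset V) :
    gen h φ F / φ F = elg h (fun G => Real.log (φ G)) F := by
  unfold gen elg
  rw [mul_div_assoc, Finset.sum_div]
  congr 1
  refine Finset.sum_congr rfl fun a _ => ?_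
  rw [Finset.sum_div]
  refine Finset.sum_congr rfl fun b _ => ?_
  beta_reduce
  rw [← Real.log_div (hφ _).ne' (hφ _).ne', Real.exp_log (div_pos (hφ _) (hφ _)), mul_div_assoc,
    sub_div, div_self (hφ F).ne']

theorem back_log (hR : IsBack h k s R) (hpos : ∀ F, ∀ r ∈ Icc 0 s, 0 < R F r) :
    IsLB h k s (fun F r => Real.log (R F r)) := by
  refine ⟨fun F => by rw [hR.end_, Real.log_one], fun F r hr => ?_⟩
  refine ((hR.deriv F r hr).log (hpos F r hr).ne').congr_deriv ?_
  rw [← gen_div (h r) (fun G => R G r) (fun G => hpos G r hr) F]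
  have := (hpos F r hr).ne'
  field_simp

end pos

end Pool.Agent.RCRSGen
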