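import Pool.Agent.RCRSHalf.Dual

/-! The logarithmic identity for the probability that two vertices are free (MP_73ccd0_lc,
exact 1/2, general graphs). -/

namespace Pool.Agent.RCRSGen

open Set Finset Pool.Agent.RCRSHalf

set_option linter.unusedSectionVars false

variable {V : Type*} [Fintype V] [DecidableEq V]

/-- flux identity in collected form -/
theorem deriv_pr_coll {h : ℝ → V → V → ℝ} (hs : ∀ t a b, h t a b = h t b a) {U : Finset V}
    {T : ℝ} {μ : ℝ → Finset V → ℝ} (hμ : IsLaw h U T μ) (W : Finset V) {t : ℝ}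
    (ht : t ∈ Icc 0 T) :
    HasDerivAt (fun t => pr (μ t) W)
      (-((1 / 2) * (∑ a ∈ W, ∑ b ∈ W, h t a b) * pr (μ t) W +
        ∑ z ∈ Finset.univ \ W, (∑ w ∈ W, h t w z) * pr (μ t) (insert z W))) t := by
  refine (hμ.deriv_pr W ht).congr_deriv ?_
  congr 1
  have hW : W ⊆ Finset.univ := Finset.subset_univ W
  have e1 : ∀ a ∈ W, ∑ b, (if a ∈ W ∨ b ∈ W then
      h t a b * pr (μ t) (insert a (insert b W)) else 0)
      = ∑ b ∈ Finset.univ \ W, h t a b * pr (μ t) (insert b W)
        + (∑ b ∈ W, h t a b) * pr (μ t) W := by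
    intro a ha
    rw [← Finset.sum_sdiff hW, Finset.sum_mul]
    congr 1
    · refine Finset.sum_congr rfl fun b hb => ?_
      rw [if_pos (Or.inl ha), Finset.insert_eq_of_mem (Finset.mem_insert_of_mem ha)]
    · refine Finset.sum_congr rfl fun b hb => ?_
      rw [if_pos (Or.inl ha), Finset.insert_eq_of_mem (Finset.mem_insert_of_mem ha),
        Finset.insert_eq_of_mem hb]
  have e2 : ∀ a ∈ Finset.univ \ W, ∑ b, (if a ∈ W ∨ b ∈ W then
      h t a b * pr (μ t) (insert a (insert b W)) else 0)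
      = (∑ b ∈ W, h t b a) * pr (μ t) (insert a W) := by
    intro a ha
    have haW : a ∉ W := (Finset.mem_sdiff.1 ha).2
    rw [← Finset.sum_sdiff hW, Finset.sum_mul]
    have : ∑ b ∈ Finset.univ \ W, (if a ∈ W ∨ b ∈ W then
        h t a b * pr (μ t) (insert a (insert b W)) else 0) = 0 := by
      refine Finset.sum_eq_zero fun b hb => ?_
      have hbW : b ∉ W := (Finset.mem_sdiff.1 hb).2
      rw [if_neg (by tauto)]
    rw [this, zero_add]
    refine Finset.sum_congr rfl fun b hb => ?_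
    rw [if_pos (Or.inr hb), Finset.insert_eq_of_mem hb, hs t a b]
  rw [← Finset.sum_sdiff hW, Finset.sum_congr rfl e1, Finset.sum_congr rfl e2,
    Finset.sum_add_distrib, ← Finset.sum_mul, Finset.sum_comm (s := W)]
  have e3 : ∀ z ∈ Finset.univ \ W, ∑ a ∈ W, h t a z * pr (μ t) (insert z W)
      = (∑ a ∈ W, h t a z) * pr (μ t) (insert z W) := fun z _ => by rw [Finset.sum_mul]
  rw [Finset.sum_congr rfl e3]
  ring

theorem log_pair_ge {h : ℝ → V → V → ℝ} (hs : ∀ t a b, h t a b = h t b a)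
    (haa : ∀ t a, h t a a = 0) (h0 : ∀ t a b, 0 ≤ h t a b) {T : ℝ} {μ : ℝ → Finset V → ℝ}
    (hμ : IsLaw h Finset.univ T μ) {u v : V} (huv : u ≠ v) {s : ℝ} (hsT : s ∈ Icc 0 T)
    (hpos : ∀ t ∈ Icc 0 s, 0 < pr (μ t) {u, v})
    {L : ℝ → ℝ} (hL : ∀ t ∈ Icc 0 s, HasDerivAt L (h t u v) t) (hL0 : L 0 = 0)
    {rb rb' : V → ℝ → ℝ}
    (hrb : ∀ z, z ≠ u → z ≠ v → ∀ t ∈ Icc 0 s, pr (μ t) {u, v, z} * pr (μ t) {u}
      ≤ rb z t * (pr (μ t) {u, v} * pr (μ t) {u, z}))
    (hrb' : ∀ z, z ≠ u → z ≠ v → ∀ t ∈ Icc 0 s, pr (μ t) {u, v, z} * pr (μ t) {v}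
      ≤ rb' z t * (pr (μ t) {u, v} * pr (μ t) {v, z}))
    {Y Y' : ℝ → ℝ} (hY : ∀ t ∈ Icc 0 s, HasDerivAt Y (Y' t) t) (hY0 : Y 0 = 0)
    (hYle : ∀ t ∈ Icc 0 s, Y' t ≤ h t u v * pr (μ t) {u, v} *
        (1 / pr (μ t) {u} + 1 / pr (μ t) {v})
      - ∑ z ∈ Finset.univ \ {u, v}, (h t u z * pr (μ t) {u, z} * (rb z t - 1) / pr (μ t) {u}
        + h t v z * pr (μ t) {v, z} * (rb' z t - 1) / pr (μ t) {v})) :
    Real.exp (Y s) * (pr (μ s) {u} * pr (μ s) {v}) ≤ Real.exp (L s) * pr (μ s) {u, v} := by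
  have hT : ∀ t ∈ Icc 0 s, t ∈ Icc 0 T := fun t ht => ⟨ht.1, ht.2.trans hsT.2⟩
  -- monotonicity of `pr`
  have hmono : ∀ t ∈ Icc 0 s, ∀ W W' : Finset V, W ⊆ W' → pr (μ t) W' ≤ pr (μ t) W := by
    intro t ht W W' hWW
    unfold pr
    refine Finset.sum_le_sum fun F _ => mul_le_mul_of_nonneg_left ?_ (hμ.nonneg F t (hT t ht))
    by_cases hF : W' ⊆ F
    · rw [if_pos hF, if_pos (hWW.trans hF)]
    · rw [if_neg hF]
      split_ifs <;> norm_num
  have hpu : ∀ t ∈ Icc 0 s, 0 < pr (μ t) {u} := fun t ht =>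
    (hpos t ht).trans_le (hmono t ht _ _ (by intro w hw; simp at hw; simp [hw]))
  have hpv : ∀ t ∈ Icc 0 s, 0 < pr (μ t) {v} := fun t ht =>
    (hpos t ht).trans_le (hmono t ht _ _ (by intro w hw; simp at hw; simp [hw]))
  -- derivatives
  have hvm : v ∈ Finset.univ \ {u} := by simp [huv.symm]
  have hum : u ∈ Finset.univ \ {v} := by simp [huv]
  have hsd : (Finset.univ \ {u} : Finset V) \ {v} = Finset.univ \ {u, v} := by
    ext z; simp
  have hsd' : (Finset.univ \ {v} : Finset V) \ {u} = Finset.univ \ {u, v} := by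
    ext z; simp; tauto
  have du : ∀ t ∈ Icc 0 s, HasDerivAt (fun t => pr (μ t) {u})
      (-(h t u v * pr (μ t) {u, v} + ∑ z ∈ Finset.univ \ {u, v}, h t u z * pr (μ t) {u, z})) t := by
    intro t ht
    refine (deriv_pr_coll hs hμ {u} (hT t ht)).congr_deriv ?_
    congr 1
    simp only [Finset.sum_singleton, haa, mul_zero, zero_mul, zero_add]
    rw [← Finset.sum_sdiff (Finset.singleton_subset_iff.2 hvm), hsd, Finset.sum_singleton,
      Finset.pair_comm v u, add_comm]
    congr 1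
    exact Finset.sum_congr rfl fun z _ => by rw [Finset.pair_comm z u]
  have dv : ∀ t ∈ Icc 0 s, HasDerivAt (fun t => pr (μ t) {v})
      (-(h t u v * pr (μ t) {u, v} + ∑ z ∈ Finset.univ \ {u, v}, h t v z * pr (μ t) {v, z})) t := by
    intro t ht
    refine (deriv_pr_coll hs hμ {v} (hT t ht)).congr_deriv ?_
    congr 1
    simp only [Finset.sum_singleton, haa, mul_zero, zero_mul, zero_add]
    rw [← Finset.sum_sdiff (Finset.singleton_subset_iff.2 hum), hsd', Finset.sum_singleton,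
      hs t v u, add_comm]
    congr 1
    exact Finset.sum_congr rfl fun z _ => by rw [Finset.pair_comm z v]
  have duv : ∀ t ∈ Icc 0 s, HasDerivAt (fun t => pr (μ t) {u, v})
      (-(h t u v * pr (μ t) {u, v} +
        ∑ z ∈ Finset.univ \ {u, v}, (h t u z + h t v z) * pr (μ t) {u, v, z})) t := by
    intro t ht
    refine (deriv_pr_coll hs hμ {u, v} (hT t ht)).congr_deriv ?_
    congr 1
    simp only [Finset.sum_pair huv, haa]
    rw [hs t v u]
    have : ∑ z ∈ Finset.univ \ {u, v}, (h t u z + h t v z) * pr (μ t) (insert z {u, v})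
        = ∑ z ∈ Finset.univ \ {u, v}, (h t u z + h t v z) * pr (μ t) {u, v, z} := by
      refine Finset.sum_congr rfl fun z _ => ?_
      have : (insert z {u, v} : Finset V) = {u, v, z} := by
        ext w; simp; tauto
      rw [this]
    rw [this]
    ring
  -- the main function
  have key := nonneg_of_forward
    (U := fun t => L t + Real.log (pr (μ t) {u, v}) - Real.log (pr (μ t) {u})
      - Real.log (pr (μ t) {v}) - Y t)
    (U' := fun t => h t u v + (-(h t u v * pr (μ t) {u, v} +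
        ∑ z ∈ Finset.univ \ {u, v}, (h t u z + h t v z) * pr (μ t) {u, v, z})) / pr (μ t) {u, v}
      - (-(h t u v * pr (μ t) {u, v} + ∑ z ∈ Finset.univ \ {u, v}, h t u z * pr (μ t) {u, z}))
        / pr (μ t) {u}
      - (-(h t u v * pr (μ t) {u, v} + ∑ z ∈ Finset.univ \ {u, v}, h t v z * pr (μ t) {v, z}))
        / pr (μ t) {v} - Y' t)
    (a := 0) (s := s) (fun t ht => by
      exact ((((hL t ht).add ((duv t ht).log (hpos t ht).ne')).sub
        ((du t ht).log (hpu t ht).ne')).sub ((dv t ht).log (hpv t ht).ne')).sub (hY t ht))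
    (by
      have p0 : ∀ W : Finset V, pr (μ 0) W = 1 := by
        intro W
        unfold pr
        rw [hμ.start]
        simp only [pt, ite_mul, one_mul, zero_mul, Finset.sum_ite_eq', Finset.mem_univ, if_true]
        rw [if_pos (Finset.subset_univ W)]
      simp [p0, hL0, hY0])
    (fun t ht _ => by
      have pu := hpu t ht
      have pv := hpv t ht
      have puv := hpos t ht
      have hy := hYle t ht
      -- termwise comparison
      have hterm : ∑ z ∈ Finset.univ \ {u, v}, (h t u z + h t v z) * pr (μ t) {u, v, z}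
          / pr (μ t) {u, v} ≤ ∑ z ∈ Finset.univ \ {u, v},
            (h t u z * pr (μ t) {u, z} * rb z t / pr (μ t) {u}
              + h t v z * pr (μ t) {v, z} * rb' z t / pr (μ t) {v}) := by
        refine Finset.sum_le_sum fun z hz => ?_
        have hz' : z ≠ u ∧ z ≠ v := by simpa using hz
        have b1 := hrb z hz'.1 hz'.2 t ht
        have b2 := hrb' z hz'.1 hz'.2 t ht
        have c1 : pr (μ t) {u, v, z} / pr (μ t) {u, v} ≤ pr (μ t) {u, z} * rb z t / pr (μ t) {u} := by
          rw [div_le_div_iff₀ puv pu]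
          linarith
        have c2 : pr (μ t) {u, v, z} / pr (μ t) {u, v} ≤
            pr (μ t) {v, z} * rb' z t / pr (μ t) {v} := by
          rw [div_le_div_iff₀ puv pv]
          linarith
        have d1 := mul_le_mul_of_nonneg_left c1 (h0 t u z)
        have d2 := mul_le_mul_of_nonneg_left c2 (h0 t v z)
        calc (h t u z + h t v z) * pr (μ t) {u, v, z} / pr (μ t) {u, v}
            = h t u z * (pr (μ t) {u, v, z} / pr (μ t) {u, v})
              + h t v z * (pr (μ t) {u, v, z} / pr (μ t) {u, v}) := by ring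
          _ ≤ h t u z * (pr (μ t) {u, z} * rb z t / pr (μ t) {u})
              + h t v z * (pr (μ t) {v, z} * rb' z t / pr (μ t) {v}) := add_le_add d1 d2
          _ = _ := by ring
      have e1 : ∑ z ∈ Finset.univ \ {u, v}, (h t u z * pr (μ t) {u, z} * (rb z t - 1) / pr (μ t) {u}
          + h t v z * pr (μ t) {v, z} * (rb' z t - 1) / pr (μ t) {v})
          = ∑ z ∈ Finset.univ \ {u, v}, (h t u z * pr (μ t) {u, z} * rb z t / pr (μ t) {u}
              + h t v z * pr (μ t) {v, z} * rb' z t / pr (μ t) {v})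
            - (∑ z ∈ Finset.univ \ {u, v}, h t u z * pr (μ t) {u, z}) / pr (μ t) {u}
            - (∑ z ∈ Finset.univ \ {u, v}, h t v z * pr (μ t) {v, z}) / pr (μ t) {v} := by
        rw [Finset.sum_div, Finset.sum_div, ← Finset.sum_sub_distrib, ← Finset.sum_sub_distrib]
        exact Finset.sum_congr rfl fun z _ => by ring
      rw [e1] at hy
      rw [← Finset.sum_div] at hterm
      have f1 : h t u v + (-(h t u v * pr (μ t) {u, v} +
        ∑ z ∈ Finset.univ \ {u, v}, (h t u z + h t v z) * pr (μ t) {u, v, z})) / pr (μ t) {u, v}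
        = -((∑ z ∈ Finset.univ \ {u, v}, (h t u z + h t v z) * pr (μ t) {u, v, z})
          / pr (μ t) {u, v}) := by
        field_simp
        ring
      rw [f1]
      have f2 : (-(h t u v * pr (μ t) {u, v} +
          ∑ z ∈ Finset.univ \ {u, v}, h t u z * pr (μ t) {u, z})) / pr (μ t) {u}
          = -(h t u v * pr (μ t) {u, v} * (1 / pr (μ t) {u}))
            - (∑ z ∈ Finset.univ \ {u, v}, h t u z * pr (μ t) {u, z}) / pr (μ t) {u} := by ring
      have f3 : (-(h t u v * pr (μ t) {u, v} +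
          ∑ z ∈ Finset.univ \ {u, v}, h t v z * pr (μ t) {v, z})) / pr (μ t) {v}
          = -(h t u v * pr (μ t) {u, v} * (1 / pr (μ t) {v}))
            - (∑ z ∈ Finset.univ \ {u, v}, h t v z * pr (μ t) {v, z}) / pr (μ t) {v} := by ring
      rw [f2, f3]
      linarith [hy, hterm]) s ⟨hsT.1, le_rfl⟩
  have hss : s ∈ Icc 0 s := ⟨hsT.1, le_rfl⟩
  have hu := hpu s hss
  have hv := hpv s hss
  have huv' := hpos s hss
  have h1 : Y s + Real.log (pr (μ s) {u}) + Real.log (pr (μ s) {v})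
      ≤ L s + Real.log (pr (μ s) {u, v}) := by linarith [key]
  have h2 := Real.exp_le_exp.2 h1
  rw [Real.exp_add, Real.exp_add, Real.exp_add, Real.exp_log hu, Real.exp_log hv,
    Real.exp_log huv'] at h2
  linarith [h2]

end Pool.Agent.RCRSGen
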