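import Pool.Agent.RCRSGen.Asm
import Pool.Agent.RCRSHalf.Dual

/-! The bound for the third-order correlation (MP_73ccd0_lc, exact 1/2, general graphs). -/

namespace Pool.Agent.RCRSGen

open Set Finset Pool.Agent.RCRSHalf

set_option linter.unusedSectionVars false

variable {V : Type*} [Fintype V] [DecidableEq V]
variable {h : ℝ → V → V → ℝ} {T : ℝ} {μ : ℝ → Finset V → ℝ}

theorem dual1 (hsy : ∀ t a b, h t a b = h t b a) (haa : ∀ t a, h t a a = 0)
    (hμ : IsLaw h Finset.univ T μ) (u : V) {s : ℝ} (hsT : s ∈ Icc 0 T)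
    {R : Finset V → ℝ → ℝ} (hR : IsBack h (fun t a => h t u a) s R) :
    pr (μ s) {u} = R (Finset.univ \ {u}) 0 := by
  have := duality hsy hμ (W := {u}) (Finset.subset_univ _) hsT (R := R) (by simpa using hR)
    (Hi := fun _ => 0) (fun r _ => by
      refine (hasDerivAt_const r (0 : ℝ)).congr_deriv ?_
      simp [haa])
  simpa using this

theorem dual2 (hsy : ∀ t a b, h t a b = h t b a) (haa : ∀ t a, h t a a = 0)
    (hμ : IsLaw h Finset.univ T μ) {u v : V} (huv : u ≠ v) {s : ℝ} (hsT : s ∈ Icc 0 T)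
    {R : Finset V → ℝ → ℝ} (hR : IsBack h (fun t a => h t u a + h t v a) s R)
    {L : ℝ → ℝ} (hL : ∀ r ∈ Icc 0 s, HasDerivAt L (h r u v) r) :
    pr (μ s) {u, v} = Real.exp (-(L s - L 0)) * R (Finset.univ \ {u, v}) 0 := by
  have hk : (fun t a => h t u a + h t v a) = fun t a => ∑ w ∈ ({u, v} : Finset V), h t w a := by
    funext t a
    rw [Finset.sum_pair huv]
  rw [hk] at hR
  refine duality hsy hμ (W := {u, v}) (Finset.subset_univ _) hsT hR (Hi := L) (fun r hr => ?_)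
  refine (hL r hr).congr_deriv ?_
  rw [Finset.sum_pair huv, Finset.sum_pair huv, Finset.sum_pair huv, haa, haa, hsy r v u]
  ring

theorem dual3 (hsy : ∀ t a b, h t a b = h t b a) (haa : ∀ t a, h t a a = 0)
    (hμ : IsLaw h Finset.univ T μ) {u v z : V} (huv : u ≠ v) (huz : u ≠ z) (hvz : v ≠ z)
    {s : ℝ} (hsT : s ∈ Icc 0 T)
    {R : Finset V → ℝ → ℝ} (hR : IsBack h (fun t a => h t u a + h t v a + h t z a) s R)
    {Luv Luz Lvz : ℝ → ℝ} (h1 : ∀ r ∈ Icc 0 s, HasDerivAt Luv (h r u v) r)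
    (h2 : ∀ r ∈ Icc 0 s, HasDerivAt Luz (h r u z) r)
    (h3 : ∀ r ∈ Icc 0 s, HasDerivAt Lvz (h r v z) r) :
    pr (μ s) {u, v, z} = Real.exp (-((Luv s + Luz s + Lvz s) - (Luv 0 + Luz 0 + Lvz 0)))
      * R (Finset.univ \ {u, v, z}) 0 := by
  have hu : u ∉ ({v, z} : Finset V) := by simp [huv, huz]
  have hsum : ∀ f : V → ℝ, ∑ w ∈ ({u, v, z} : Finset V), f w = f u + f v + f z := by
    intro f
    rw [Finset.sum_insert hu, Finset.sum_pair hvz]; ring
  have hk : (fun t a => h t u a + h t v a + h t z a)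
      = fun t a => ∑ w ∈ ({u, v, z} : Finset V), h t w a := by
    funext t a
    rw [hsum]
  rw [hk] at hR
  refine duality hsy hμ (W := {u, v, z}) (Finset.subset_univ _) hsT hR
    (Hi := fun r => Luv r + Luz r + Lvz r) (fun r hr => ?_)
  refine (((h1 r hr).add (h2 r hr)).add (h3 r hr)).congr_deriv ?_
  rw [hsum, hsum, hsum, hsum, haa, haa, haa, hsy r v u, hsy r z u, hsy r z v]
  ring

/-- bound for the third-order correlation from its six factors -/
theorem r_bound (hsy : ∀ t a b, h t a b = h t b a) (haa : ∀ t a, h t a a = 0)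
    (hμ : IsLaw h Finset.univ T μ) {u v z : V} (huv : u ≠ v) (huz : u ≠ z) (hvz : v ≠ z)
    {s : ℝ} (hsT : s ∈ Icc 0 T) {Ru Ruv Ruz Ruvz Cuv Cuz : Finset V → ℝ → ℝ}
    (hRu : IsBack h (fun t a => h t u a) s Ru)
    (hRuv : IsBack h (fun t a => h t u a + h t v a) s Ruv)
    (hRuz : IsBack h (fun t a => h t u a + h t z a) s Ruz)
    (hRuvz : IsBack h (fun t a => h t u a + h t v a + h t z a) s Ruvz)
    (pu : ∀ F, 0 < Ru F 0) (puv : ∀ F, 0 < Ruv F 0) (puz : ∀ F, 0 < Ruz F 0)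
    (puvz : ∀ F, 0 < Ruvz F 0) (cuv : ∀ F, 0 < Cuv F 0) (cuz : ∀ F, 0 < Cuz F 0)
    {Luv Luz Lvz : ℝ → ℝ} (h1 : ∀ r ∈ Icc 0 s, HasDerivAt Luv (h r u v) r)
    (h2 : ∀ r ∈ Icc 0 s, HasDerivAt Luz (h r u z) r)
    (h3 : ∀ r ∈ Icc 0 s, HasDerivAt Lvz (h r v z) r)
    {A D K1 K2 I1 I2 : ℝ} {S : Finset V} (hS : S = Finset.univ \ {u, v, z})
    (hα : Real.log (Ruvz S 0) + Real.log (Ru S 0) - Real.log (Ruv S 0) - Real.log (Ruz S 0) ≤ A)
    (hJ : Real.log (Ru S 0) + Real.log (Ru (insert v (insert z S)) 0)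
      - Real.log (Ru (insert v S) 0) - Real.log (Ru (insert z S) 0) ≤ D)
    (hη1 : (Real.log (Ruv S 0) - Real.log (Cuv (insert z S) 0))
      - (Real.log (Ru S 0) - Real.log (Ru (insert z S) 0)) ≤ K1)
    (hη2 : (Real.log (Ruz S 0) - Real.log (Cuz (insert v S) 0))
      - (Real.log (Ru S 0) - Real.log (Ru (insert v S) 0)) ≤ K2)
    (hI1 : Real.exp (-I1) * Cuv (insert z S) 0 ≤ Ruv (insert z S) 0)
    (hI2 : Real.exp (-I2) * Cuz (insert v S) 0 ≤ Ruz (insert v S) 0) :
    pr (μ s) {u, v, z} * pr (μ s) {u}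
      ≤ Real.exp (-(Lvz s - Lvz 0) + I1 + I2 + K1 + K2 + D + A)
        * (pr (μ s) {u, v} * pr (μ s) {u, z}) := by
  have e1 := dual1 hsy haa hμ u hsT hRu
  have e2 := dual2 hsy haa hμ huv hsT hRuv h1
  have e3 := dual2 hsy haa hμ huz hsT hRuz h2
  have e4 := dual3 hsy haa hμ huv huz hvz hsT hRuvz h1 h2 h3
  have s1 : Finset.univ \ {u} = insert v (insert z S) := by
    rw [hS]; ext x
    simp only [Finset.mem_sdiff, Finset.mem_univ, Finset.mem_singleton, true_and,
      Finset.mem_insert]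
    constructor
    · intro hx; tauto
    · rintro (rfl | rfl | hx)
      · exact fun e => huv e.symm
      · exact fun e => huz e.symm
      · tauto
  have s2 : Finset.univ \ {u, v} = insert z S := by
    rw [hS]; ext x
    simp only [Finset.mem_sdiff, Finset.mem_univ, Finset.mem_singleton, true_and,
      Finset.mem_insert]
    constructor
    · intro hx; tauto
    · rintro (rfl | hx)
      · rintro (e | e)
        · exact huz e.symm
        · exact hvz e.symm
      · tauto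
  have s3 : Finset.univ \ {u, z} = insert v S := by
    rw [hS]; ext x
    simp only [Finset.mem_sdiff, Finset.mem_univ, Finset.mem_singleton, true_and,
      Finset.mem_insert]
    constructor
    · intro hx; tauto
    · rintro (rfl | hx)
      · rintro (e | e)
        · exact huv e.symm
        · exact hvz e
      · tauto
  rw [s1] at e1
  rw [s2] at e2
  rw [s3] at e3
  rw [← hS] at e4
  have l1 : Real.log (Cuv (insert z S) 0) - I1 ≤ Real.log (Ruv (insert z S) 0) := by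
    have := Real.log_le_log (mul_pos (Real.exp_pos _) (cuv _)) hI1
    rw [Real.log_mul (Real.exp_pos _).ne' (cuv _).ne', Real.log_exp] at this
    linarith
  have l2 : Real.log (Cuz (insert v S) 0) - I2 ≤ Real.log (Ruz (insert v S) 0) := by
    have := Real.log_le_log (mul_pos (Real.exp_pos _) (cuz _)) hI2
    rw [Real.log_mul (Real.exp_pos _).ne' (cuz _).ne', Real.log_exp] at this
    linarith
  have key : Real.log (Ruvz S 0) + Real.log (Ru (insert v (insert z S)) 0)
      ≤ Real.log (Ruv (insert z S) 0) + Real.log (Ruz (insert v S) 0)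
        + (I1 + I2 + K1 + K2 + D + A) := by linarith
  have key2 := Real.exp_le_exp.2 key
  rw [Real.exp_add, Real.exp_add, Real.exp_add, Real.exp_log (puvz _), Real.exp_log (pu _),
    Real.exp_log (puv _), Real.exp_log (puz _)] at key2
  rw [e1, e2, e3, e4]
  have x1 : Real.exp (-((Luv s + Luz s + Lvz s) - (Luv 0 + Luz 0 + Lvz 0)))
      = Real.exp (-(Luv s - Luv 0)) * Real.exp (-(Luz s - Luz 0)) * Real.exp (-(Lvz s - Lvz 0)) := by
    rw [← Real.exp_add, ← Real.exp_add]; congr 1; ring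
  have x2 : Real.exp (-(Lvz s - Lvz 0) + I1 + I2 + K1 + K2 + D + A)
      = Real.exp (-(Lvz s - Lvz 0)) * Real.exp (I1 + I2 + K1 + K2 + D + A) := by
    rw [← Real.exp_add]; congr 1; ring
  rw [x1, x2]
  have hpos : 0 ≤ Real.exp (-(Luv s - Luv 0)) * Real.exp (-(Luz s - Luz 0))
      * Real.exp (-(Lvz s - Lvz 0)) := by positivity
  have := mul_le_mul_of_nonneg_left key2 hpos
  calc _ = Real.exp (-(Luv s - Luv 0)) * Real.exp (-(Luz s - Luz 0))
        * Real.exp (-(Lvz s - Lvz 0)) * (Ruvz S 0 * Ru (insert v (insert z S)) 0) := by ring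
    _ ≤ _ := this
    _ = _ := by ring

/-- Jensen step with the extra killing at a single vertex -/
theorem jensen_single {k : ℝ → V → ℝ} {s : ℝ} {m : ℝ → Finset V → ℝ} {U : Finset V}
    (h0 : ∀ t a b, 0 ≤ h t a b) {v : V} {g : ℝ → ℝ} (g0 : ∀ t, 0 ≤ g t)
    {R0 R1 : Finset V → ℝ → ℝ} (hR0 : IsBack h k s R0)
    (hR1 : IsBack h (fun t a => k t a + (if a = v then g t else 0)) s R1)
    (p0 : ∀ F, ∀ r ∈ Icc 0 s, 0 < R0 F r) (p1 : ∀ F, ∀ r ∈ Icc 0 s, 0 < R1 F r)
    (hm : IsKLaw h k U s m) (hs0 : 0 ≤ s)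
    {I p : ℝ → ℝ} (hI : ∀ r ∈ Icc 0 s, HasDerivAt I (g r * p r) r) (hI0 : I 0 = 0)
    (hp : ∀ r ∈ Icc 0 s, ∑ F : Finset V, m r F * (if v ∈ F then R0 F r else 0)
      ≤ p r * R0 U 0) :
    Real.exp (-I s) * R0 U 0 ≤ R1 U 0 := by
  refine jensen h0 hR0 hR1 p0 p1 hm hs0 hI hI0 (fun r hr => ?_)
  have e : ∀ F : Finset V, m r F * ((∑ a ∈ F, (if a = v then g r else 0)) * R0 F r)
      = g r * (m r F * (if v ∈ F then R0 F r else 0)) := by
    intro F
    rw [Finset.sum_ite_eq']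
    split_ifs <;> ring
  simp_rw [e]
  rw [← Finset.mul_sum, mul_assoc]
  exact mul_le_mul_of_nonneg_left (hp r hr) (g0 r)

/-- trivial bound in the Jensen step: probabilities are at most one -/
theorem free_le_one {k : ℝ → V → ℝ} {s : ℝ} {m : ℝ → Finset V → ℝ} {U : Finset V}
    {R0 : Finset V → ℝ → ℝ} (hR0 : IsBack h k s R0) (hm : IsKLaw h k U s m) (v : V) :
    ∀ r ∈ Icc 0 s, ∑ F : Finset V, m r F * (if v ∈ F then R0 F r else 0) ≤ 1 * R0 U 0 := by
  have hconst : ∀ r ∈ Icc 0 s, ∑ F : Finset V, m r F * R0 F r = R0 U 0 := by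
    have hD : ∀ r ∈ Icc 0 s, HasDerivAt (fun r => ∑ F : Finset V, m r F * R0 F r) 0 r := by
      intro r hr
      have := hm.deriv_sum (φ := fun r F => R0 F r)
        (φ' := fun r F => -(gen (h r) (fun G => R0 G r) F - (∑ a ∈ F, k r a) * R0 F r)) hr
        (fun F => hR0.deriv F r hr)
      refine this.congr_deriv ?_
      refine Finset.sum_eq_zero fun F _ => ?_
      ring
    intro r hr
    have h0s : (0 : ℝ) ∈ Icc 0 r := ⟨le_rfl, hr.1⟩
    have e1 := nonneg_of_forward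
      (U := fun t => ∑ F : Finset V, m t F * R0 F t - ∑ F : Finset V, m 0 F * R0 F 0)
      (U' := fun _ => 0) (a := 0) (s := s) (fun r hr => by simpa using hD r hr)
      (by simp) (fun _ _ _ => le_rfl) r hr
    have e2 := nonneg_of_forward
      (U := fun t => ∑ F : Finset V, m 0 F * R0 F 0 - ∑ F : Finset V, m t F * R0 F t)
      (U' := fun _ => 0) (a := 0) (s := s)
      (fun r hr => by simpa using (hD r hr).const_sub (∑ F : Finset V, m 0 F * R0 F 0))
      (by simp) (fun _ _ _ => le_rfl) r hr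
    have e3 : ∑ F : Finset V, m 0 F * R0 F 0 = R0 U 0 := by
      rw [hm.start]; simp [pt]
    linarith
  intro r hr
  rw [one_mul, ← hconst r hr]
  refine Finset.sum_le_sum fun F _ => mul_le_mul_of_nonneg_left ?_ (hm.nonneg F r hr)
  split_ifs
  · exact le_rfl
  · exact hR0.nonneg F r hr

end Pool.Agent.RCRSGen
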